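import Mathlib

/-!
# Logarithms of characteristic polynomials
-/

set_option autoImplicit false

open Filter Topology Polynomial Module

namespace Pool.Agent.N184.QP

/-! ### The function `- log (1 - z)` -/

/-- the function `- log (1 - z)` -/
noncomputable def ell (z : ℂ) : ℂ := -Complex.log (1 - z)

lemma exp_ell {z : ℂ} (hz : ‖z‖ < 1) : Complex.exp (ell z) = (1 - z)⁻¹ := by
  have h : (1 - z) ≠ 0 := by
    intro h
    have : z = 1 := (sub_eq_zero.mp h).symm
    rw [this, norm_one] at hz
    exact lt_irrefl _ hz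
  unfold ell
  rw [Complex.exp_neg, Complex.exp_log h]

lemma hasSum_ell {z : ℂ} (hz : ‖z‖ < 1) : HasSum (fun n : ℕ => z ^ n / n) (ell z) :=
  Complex.hasSum_taylorSeries_neg_log hz

lemma norm_ell_sub_le {z : ℂ} (hz : ‖z‖ ≤ 1 / 2) : ‖ell z - z‖ ≤ ‖z‖ ^ 2 := by
  have h := Complex.norm_log_one_add_sub_self_le (z := -z) (by rw [norm_neg]; linarith)
  rw [norm_neg] at h
  have h1 : ell z - z = -(Complex.log (1 + -z) - -z) := by
    unfold ell
    ring_nf
  rw [h1, norm_neg]
  refine h.trans ?_
  have h2 : (1 - ‖z‖)⁻¹ ≤ 2 := by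
    rw [inv_le_comm₀ (by linarith) (by norm_num)]
    linarith
  have h3 : 0 ≤ ‖z‖ ^ 2 := by positivity
  nlinarith

lemma norm_ell_le {z : ℂ} (hz : ‖z‖ ≤ 1 / 2) : ‖ell z‖ ≤ 2 * ‖z‖ := by
  have h := norm_ell_sub_le hz
  have h2 : ‖ell z‖ ≤ ‖ell z - z‖ + ‖z‖ := by
    have := norm_add_le (ell z - z) z
    rwa [sub_add_cancel] at this
  have h3 : 0 ≤ ‖z‖ := norm_nonneg z
  nlinarith

lemma continuousAt_ell {z : ℂ} (hz : ‖z‖ < 1) : ContinuousAt ell z := by
  unfold ell
  have h : (1 + -z) ∈ Complex.slitPlane := Complex.mem_slitPlane_of_norm_lt_one (by rwa [norm_neg])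
  rw [← sub_eq_add_neg] at h
  exact ((continuousAt_const.sub continuousAt_id).clog h).neg

/-! ### Traces of powers -/

section Trace

variable {K : Type*} [Field K] [IsAlgClosed K] {V : Type*} [AddCommGroup V]
  [Module K V] [FiniteDimensional K V]

/-- The trace of the powers of an operator. -/
lemma trace_pow_eq (ψ : Module.End K V) (n : ℕ) :
    LinearMap.trace K V (ψ ^ n) = (ψ.charpoly.roots.map (· ^ n)).sum := by
  classical
  have hint : DirectSum.IsInternal (fun μ : K => ψ.maxGenEigenspace μ) := by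
    rw [DirectSum.isInternal_submodule_iff_iSupIndep_and_iSup_eq_top]
    exact ⟨ψ.independent_maxGenEigenspace, Module.End.iSup_maxGenEigenspace_eq_top ψ⟩
  have hfin : {μ : K | ψ.maxGenEigenspace μ ≠ ⊥}.Finite :=
    WellFoundedGT.finite_ne_bot_of_iSupIndep ψ.independent_maxGenEigenspace
  have hmaps : ∀ μ : K, Set.MapsTo (ψ ^ n) (ψ.maxGenEigenspace μ) (ψ.maxGenEigenspace μ) := by
    intro μ
    have h1 := Module.End.mapsTo_maxGenEigenspace_of_comm ((Commute.refl ψ).pow_right n) μ
    exact h1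
  rw [LinearMap.trace_eq_sum_trace_restrict' hint hfin hmaps]
  have htr : ∀ μ : K, LinearMap.trace K (ψ.maxGenEigenspace μ) ((ψ ^ n).restrict (hmaps μ)) =
      (Module.finrank K (ψ.maxGenEigenspace μ) : K) * μ ^ n := by
    intro μ
    have hm : Set.MapsTo ψ (ψ.maxGenEigenspace μ) (ψ.maxGenEigenspace μ) :=
      Module.End.mapsTo_maxGenEigenspace_of_comm (Commute.refl ψ) μ
    have hnil : IsNilpotent (ψ.restrict hm - algebraMap K _ μ) :=
      Module.End.isNilpotent_restrict_maxGenEigenspace_sub_algebraMap ψ μ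
    have hpow : (ψ ^ n).restrict (hmaps μ) = (ψ.restrict hm) ^ n :=
      (Module.End.pow_restrict n hm (hmaps μ)).symm
    rw [hpow]
    clear hpow
    induction n with
    | zero =>
      rw [pow_zero, pow_zero, mul_one, LinearMap.trace_one]
    | succ n ih =>
      have hmaps' : ∀ μ : K, Set.MapsTo (ψ ^ n) (ψ.maxGenEigenspace μ)
          (ψ.maxGenEigenspace μ) := fun μ =>
        Module.End.mapsTo_maxGenEigenspace_of_comm ((Commute.refl ψ).pow_right n) μ
      rw [_root_.pow_succ, Module.End.mul_eq_comp,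
        LinearMap.trace_comp_eq_mul_of_commute_of_isNilpotent μ
          ((Commute.refl (ψ.restrict hm)).pow_left n) hnil, ih hmaps']
      ring
  rw [Finset.sum_congr rfl (fun μ _ => htr μ)]
  have hcount : ∀ μ : K, Module.finrank K (ψ.maxGenEigenspace μ) = ψ.charpoly.roots.count μ := by
    intro μ
    rw [LinearMap.finrank_maxGenEigenspace_eq, count_roots]
  rw [Finset.sum_multiset_map_count]
  refine (Finset.sum_subset_zero_on_sdiff (s₁ := ψ.charpoly.roots.toFinset) (s₂ := hfin.toFinset)
    ?_ ?_ ?_).symm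
  · intro μ hμ
    rw [Multiset.mem_toFinset] at hμ
    rw [Set.Finite.mem_toFinset]
    intro h0
    have h1 := hcount μ
    have h0' : ψ.maxGenEigenspace μ = ⊥ := h0
    rw [h0', finrank_bot] at h1
    exact absurd (Multiset.count_pos.2 hμ) (by omega)
  · intro μ hμ
    rw [Finset.mem_sdiff, Multiset.mem_toFinset] at hμ
    rw [hcount, Multiset.count_eq_zero_of_notMem hμ.2, Nat.cast_zero, zero_mul]
  · intro μ _
    rw [hcount, nsmul_eq_mul]

end Trace

section

variable {H : Type*} [AddCommGroup H] [Module ℂ H] [FiniteDimensional ℂ H]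

/-- the determinant of `1 - t F` -/
lemma det_one_sub (F : Module.End ℂ H) (t : ℂ) :
    LinearMap.det (1 - t • F) = (F.charpoly.roots.map fun z => 1 - t * z).prod := by
  have hcard : F.charpoly.roots.card = finrank ℂ H := by
    rw [← F.charpoly_natDegree]
    exact (IsAlgClosed.splits F.charpoly).natDegree_eq_card_roots.symm
  by_cases ht : t = 0
  · subst ht
    rw [zero_smul, sub_zero]
    simp
  · have h1 : (1 - t • F : Module.End ℂ H) = t • (algebraMap ℂ (Module.End ℂ H) t⁻¹ - F) := by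
      rw [smul_sub, Algebra.algebraMap_eq_smul_one, smul_smul, mul_inv_cancel₀ ht, one_smul]
    rw [h1, LinearMap.det_smul, ← LinearMap.eval_charpoly]
    have h2 : F.charpoly = (F.charpoly.roots.map fun z => X - C z).prod :=
      (IsAlgClosed.splits F.charpoly).eq_prod_roots_of_monic F.charpoly_monic
    have h3 : F.charpoly.eval t⁻¹ = (F.charpoly.roots.map fun z => t⁻¹ - z).prod := by
      conv_lhs => rw [h2]
      rw [eval_multiset_prod, Multiset.map_map]
      simp only [Function.comp_def, eval_sub, eval_X, eval_C]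
    rw [h3, ← hcard, ← Multiset.prod_replicate, ← Multiset.map_const', ← Multiset.prod_map_mul]
    congr 1
    refine Multiset.map_congr rfl fun z _ => ?_
    rw [mul_sub, mul_inv_cancel₀ ht]

/-- the eigenvalues with their multiplicities -/
theorem exists_enum (F : Module.End ℂ H) : ∃ lam : Fin (finrank ℂ H) → ℂ,
    (∀ j, F.HasEigenvalue (lam j)) ∧
    (∀ n, LinearMap.trace ℂ H (F ^ n) = ∑ j, lam j ^ n) ∧
    (∀ t : ℂ, LinearMap.det (1 - t • F) = ∏ j, (1 - t * lam j)) := by
  have hcard : F.charpoly.roots.card = finrank ℂ H := by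
    rw [← F.charpoly_natDegree]
    exact (IsAlgClosed.splits F.charpoly).natDegree_eq_card_roots.symm
  have hlen : F.charpoly.roots.toList.length = finrank ℂ H := by
    rw [Multiset.length_toList, hcard]
  refine ⟨fun j => F.charpoly.roots.toList.get (Fin.cast hlen.symm j), ?_, ?_, ?_⟩
  · intro j
    have h1 : F.charpoly.roots.toList.get (Fin.cast hlen.symm j) ∈ F.charpoly.roots := by
      rw [← Multiset.mem_toList]
      exact List.get_mem _ _
    rw [mem_roots F.charpoly_monic.ne_zero] at h1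
    exact (Module.End.hasEigenvalue_iff_isRoot_charpoly F _).mpr h1
  · intro n
    rw [trace_pow_eq]
    have h1 : F.charpoly.roots = (F.charpoly.roots.toList : Multiset ℂ) :=
      (Multiset.coe_toList _).symm
    conv_lhs => rw [h1]
    rw [Multiset.map_coe, Multiset.sum_coe, ← List.sum_ofFn]
    congr 1
    refine List.ext_get (by simp [hlen]) fun k h2 h3 => ?_
    simp
  · intro t
    rw [det_one_sub]
    have h1 : F.charpoly.roots = (F.charpoly.roots.toList : Multiset ℂ) :=
      (Multiset.coe_toList _).symm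
    conv_lhs => rw [h1]
    rw [Multiset.map_coe, Multiset.prod_coe, ← List.prod_ofFn]
    congr 1
    refine List.ext_get (by simp [hlen]) fun k h2 h3 => ?_
    simp

/-- the eigenvalues with their multiplicities -/
noncomputable def eig (F : Module.End ℂ H) : Fin (finrank ℂ H) → ℂ := (exists_enum F).choose

lemma eig_mem (F : Module.End ℂ H) (j) : F.HasEigenvalue (eig F j) :=
  (exists_enum F).choose_spec.1 j

lemma trace_eig (F : Module.End ℂ H) (n : ℕ) : LinearMap.trace ℂ H (F ^ n) = ∑ j, eig F j ^ n :=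
  (exists_enum F).choose_spec.2.1 n

lemma det_eig (F : Module.End ℂ H) (t : ℂ) :
    LinearMap.det (1 - t • F) = ∏ j, (1 - t * eig F j) :=
  (exists_enum F).choose_spec.2.2 t

/-- the logarithm of `det (1 - t F)⁻¹` -/
noncomputable def logdet (F : Module.End ℂ H) (t : ℂ) : ℂ := ∑ j, ell (t * eig F j)

/-- all eigenvalues have absolute value at most one -/
def Bd (F : Module.End ℂ H) : Prop := ∀ μ : ℂ, F.HasEigenvalue μ → ‖μ‖ ≤ 1

variable {F : Module.End ℂ H} (hF : Bd F)
include hF

lemma norm_mul_eig (t : ℂ) (j) : ‖t * eig F j‖ ≤ ‖t‖ := by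
  rw [norm_mul]
  exact mul_le_of_le_one_right (norm_nonneg _) (hF _ (eig_mem F j))

lemma exp_logdet {t : ℂ} (ht : ‖t‖ < 1) :
    Complex.exp (logdet F t) = (LinearMap.det (1 - t • F))⁻¹ := by
  unfold logdet
  rw [Complex.exp_sum, det_eig, ← Finset.prod_inv_distrib]
  exact Finset.prod_congr rfl fun j _ => exp_ell ((norm_mul_eig hF t j).trans_lt ht)

lemma hasSum_logdet {t : ℂ} (ht : ‖t‖ < 1) :
    HasSum (fun n : ℕ => t ^ n / n * LinearMap.trace ℂ H (F ^ n)) (logdet F t) := by
  unfold logdet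
  have h := hasSum_sum (s := Finset.univ) fun j (_ : j ∈ Finset.univ) =>
    hasSum_ell ((norm_mul_eig hF t j).trans_lt ht)
  have h2 : (fun n : ℕ => t ^ n / n * LinearMap.trace ℂ H (F ^ n)) =
      fun n : ℕ => ∑ j, (t * eig F j) ^ n / n := by
    funext n
    rw [trace_eig, Finset.mul_sum]
    refine Finset.sum_congr rfl fun j _ => ?_
    rw [mul_pow]
    ring
  rw [h2]
  exact h

lemma norm_logdet_le {t : ℂ} (ht : ‖t‖ ≤ 1 / 2) : ‖logdet F t‖ ≤ 2 * finrank ℂ H * ‖t‖ := by
  unfold logdet
  refine (norm_sum_le _ _).trans ?_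
  calc ∑ j, ‖ell (t * eig F j)‖ ≤ ∑ _j : Fin (finrank ℂ H), 2 * ‖t‖ := by
        refine Finset.sum_le_sum fun j _ => ?_
        have h1 := norm_mul_eig hF t j
        exact (norm_ell_le (h1.trans ht)).trans (by linarith)
    _ = 2 * finrank ℂ H * ‖t‖ := by
        rw [Finset.sum_const, Finset.card_univ, Fintype.card_fin, nsmul_eq_mul]
        ring

lemma norm_logdet_sub_le {t : ℂ} (ht : ‖t‖ ≤ 1 / 2) :
    ‖logdet F t - t * LinearMap.trace ℂ H F‖ ≤ finrank ℂ H * ‖t‖ ^ 2 := by
  have h0 := trace_eig F 1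
  simp only [pow_one] at h0
  unfold logdet
  rw [h0, Finset.mul_sum, ← Finset.sum_sub_distrib]
  refine (norm_sum_le _ _).trans ?_
  calc ∑ j, ‖ell (t * eig F j) - t * eig F j‖ ≤ ∑ _j : Fin (finrank ℂ H), ‖t‖ ^ 2 := by
        refine Finset.sum_le_sum fun j _ => ?_
        have h1 := norm_mul_eig hF t j
        refine (norm_ell_sub_le (h1.trans ht)).trans ?_
        exact pow_le_pow_left₀ (norm_nonneg _) h1 2
    _ = finrank ℂ H * ‖t‖ ^ 2 := by
        rw [Finset.sum_const, Finset.card_univ, Fintype.card_fin, nsmul_eq_mul]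

lemma continuousAt_logdet {t : ℂ} (ht : ‖t‖ < 1) : ContinuousAt (logdet F) t := by
  unfold logdet
  refine tendsto_finsetSum _ fun j _ => ?_
  have h : ContinuousAt ell (t * eig F j) := continuousAt_ell ((norm_mul_eig hF t j).trans_lt ht)
  exact ContinuousAt.comp (g := ell) (f := fun t : ℂ => t * eig F j) h
    (continuousAt_id.mul continuousAt_const)

end

end Pool.Agent.N184.QP
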