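import Pool.Agent.N184.QP.PoleC

/-!
# Euler products over the prime numbers as functions of a complex variable
-/

set_option autoImplicit false
set_option linter.unusedSectionVars false

open Filter Topology Module
open Pool.Agent.H921R2.TatePole

namespace Pool.Agent.N184.QP

section

variable {H : Type*} [AddCommGroup H] [Module ℂ H] [FiniteDimensional ℂ H]
variable {F : Module.End ℂ H} (hF : Bd F)
include hF

lemma norm_logdet_le' {t : ℂ} (ht : ‖t‖ ≤ 3 / 4) : ‖logdet F t‖ ≤ 3 * finrank ℂ H * ‖t‖ := by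
  unfold logdet
  refine (norm_sum_le _ _).trans ?_
  calc ∑ j, ‖ell (t * eig F j)‖ ≤ ∑ _j : Fin (finrank ℂ H), 3 * ‖t‖ := by
        refine Finset.sum_le_sum fun j _ => ?_
        have h1 := norm_mul_eig hF t j
        exact (norm_ell_le' (h1.trans ht)).trans (by linarith)
    _ = 3 * finrank ℂ H * ‖t‖ := by
        rw [Finset.sum_const, Finset.card_univ, Fintype.card_fin, nsmul_eq_mul]
        ring

lemma norm_logdet_sub_le' {t : ℂ} (ht : ‖t‖ ≤ 3 / 4) :
    ‖logdet F t - LinearMap.trace ℂ H F * t‖ ≤ 2 * finrank ℂ H * ‖t‖ ^ 2 := by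
  have h0 := trace_eig F 1
  simp only [pow_one] at h0
  unfold logdet
  rw [h0, Finset.sum_mul, ← Finset.sum_sub_distrib]
  refine (norm_sum_le _ _).trans ?_
  calc ∑ j, ‖ell (t * eig F j) - eig F j * t‖ ≤ ∑ _j : Fin (finrank ℂ H), 2 * ‖t‖ ^ 2 := by
        refine Finset.sum_le_sum fun j _ => ?_
        have h1 := norm_mul_eig hF t j
        rw [mul_comm (eig F j) t]
        refine (norm_ell_sub_le' (h1.trans ht)).trans ?_
        exact mul_le_mul_of_nonneg_left (pow_le_pow_left₀ (norm_nonneg _) h1 2) (by norm_num)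
    _ = 2 * finrank ℂ H * ‖t‖ ^ 2 := by
        rw [Finset.sum_const, Finset.card_univ, Fintype.card_fin, nsmul_eq_mul]
        ring

lemma differentiableAt_logdet {t : ℂ} (ht : ‖t‖ < 1) : DifferentiableAt ℂ (logdet F) t := by
  unfold logdet
  refine DifferentiableAt.fun_sum fun j _ => ?_
  have h : DifferentiableAt ℂ ell (t * eig F j) :=
    differentiableAt_ell ((norm_mul_eig hF t j).trans_lt ht)
  exact DifferentiableAt.comp (g := ell) (f := fun t : ℂ => t * eig F j) t h
    (differentiableAt_id.mul_const _)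

lemma norm_trace_le : ‖LinearMap.trace ℂ H F‖ ≤ finrank ℂ H := by
  have h0 := trace_eig F 1
  simp only [pow_one] at h0
  rw [h0]
  refine (norm_sum_le _ _).trans ?_
  calc ∑ j, ‖eig F j‖ ≤ ∑ _j : Fin (finrank ℂ H), (1 : ℝ) :=
        Finset.sum_le_sum fun j _ => hF _ (eig_mem F j)
    _ = finrank ℂ H := by simp

end

section
variable {W : Type*} [AddCommGroup W] [Module ℂ W] [FiniteDimensional ℂ W]
  {S : Finset Nat.Primes} {Φ : Nat.Primes → Module.End ℂ W}

/-- the number `p^{-s}` -/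
noncomputable def tc (s : ℂ) (p : Nat.Primes) : ℂ := ((p : ℕ) : ℂ) ^ (-s)

lemma norm_tc (s : ℂ) (p : Nat.Primes) : ‖tc s p‖ = ((p : ℕ) : ℝ) ^ (-s.re) := norm_prime_cpow p s

lemma norm_tc_le {s : ℂ} (hs : 3 / 4 ≤ s.re) (p : Nat.Primes) : ‖tc s p‖ ≤ 3 / 4 := by
  rw [norm_tc]
  exact rpow_le_34 p.prop.two_le hs

/-- the logarithm of the factor at `p` -/
noncomputable def lc (S : Finset Nat.Primes) (Φ : Nat.Primes → Module.End ℂ W) (p : Nat.Primes)
    (s : ℂ) : ℂ := open Classical in if p ∈ S then 0 else logdet (Φ p) (tc s p)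

/-- the traces -/
noncomputable def wt (S : Finset Nat.Primes) (Φ : Nat.Primes → Module.End ℂ W) (p : Nat.Primes) :
    ℂ := open Classical in if p ∈ S then 0 else LinearMap.trace ℂ W (Φ p)

/-- the logarithm of the `L`-function of `W`, with the prime numbers in `S` omitted -/
noncomputable def logLC (S : Finset Nat.Primes) (Φ : Nat.Primes → Module.End ℂ W) (s : ℂ) : ℂ :=
  ∑' p, lc S Φ p s

variable (hΦ : ∀ p, p ∉ S → Bd (Φ p))
include hΦ

lemma norm_lc_le (p : Nat.Primes) {s : ℂ} (hs : 3 / 4 ≤ s.re) :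
    ‖lc S Φ p s‖ ≤ 3 * finrank ℂ W * ((p : ℕ) : ℝ) ^ (-s.re) := by
  unfold lc
  split_ifs with hp
  · rw [norm_zero]; positivity
  · rw [← norm_tc]
    exact norm_logdet_le' (hΦ p hp) (norm_tc_le hs p)

lemma differentiableAt_lc (p : Nat.Primes) {s : ℂ} (hs : 3 / 4 ≤ s.re) :
    DifferentiableAt ℂ (lc S Φ p) s := by
  unfold lc
  split_ifs with hp
  · exact differentiableAt_const _
  · exact DifferentiableAt.comp (g := logdet (Φ p)) s
      (differentiableAt_logdet (hΦ p hp) ((norm_tc_le hs p).trans_lt (by norm_num)))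
      (differentiable_cpow_nat p.prop.pos s)

lemma norm_lc_sub_le (p : Nat.Primes) {s : ℂ} (hs : 3 / 4 ≤ s.re) :
    ‖lc S Φ p s - wt S Φ p * ((p : ℕ) : ℂ) ^ (-s)‖ ≤
      2 * finrank ℂ W * ((p : ℕ) : ℝ) ^ (-(3 / 2 : ℝ)) := by
  unfold lc wt
  split_ifs with hp
  · rw [zero_mul, sub_zero, norm_zero]; positivity
  · refine (norm_logdet_sub_le' (hΦ p hp) (norm_tc_le hs p)).trans ?_
    refine mul_le_mul_of_nonneg_left ?_ (by positivity)
    rw [norm_tc, ← Real.rpow_natCast, ← Real.rpow_mul (by positivity)]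
    refine Real.rpow_le_rpow_of_exponent_le (by exact_mod_cast p.prop.one_lt.le) ?_
    push_cast
    linarith

lemma norm_wt_le (p : Nat.Primes) : ‖wt S Φ p‖ ≤ finrank ℂ W := by
  unfold wt
  split_ifs with hp
  · rw [norm_zero]; positivity
  · exact norm_trace_le (hΦ p hp)

lemma summable_lc {s : ℂ} (hs : 1 < s.re) : Summable fun p => lc S Φ p s :=
  Summable.of_norm_bounded ((summable_primes_rpow hs).mul_left (3 * (finrank ℂ W : ℝ)))
    fun p => norm_lc_le hΦ p (by linarith)

/-- the terms of the second order -/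
theorem ac_logLC : AC (fun s => logLC S Φ s - ∑' p, wt S Φ p * ((p : ℕ) : ℂ) ^ (-s)) := by
  have h : AC (fun s => ∑' p, (lc S Φ p s - wt S Φ p * ((p : ℕ) : ℂ) ^ (-s))) := by
    refine AC.tsum (u := fun p : Nat.Primes => 2 * finrank ℂ W * ((p : ℕ) : ℝ) ^ (-(3 / 2 : ℝ)))
      ((summable_primes_rpow (by norm_num)).mul_left _) (fun p => ?_) (fun p s hs => ?_)
    · intro s hs
      have hs' : (3 / 4 : ℝ) < s.re := hs
      exact ((differentiableAt_lc hΦ p hs'.le).sub
        ((differentiable_cpow_nat p.prop.pos s).const_mul _)).differentiableWithinAt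
    · have hs' : (3 / 4 : ℝ) < s.re := hs
      exact norm_lc_sub_le hΦ p hs'.le
  refine h.congr fun s hs => ?_
  rw [Summable.tsum_sub (summable_lc hΦ hs) (summable_bdd (norm_wt_le hΦ) hs)]
  rfl

lemma differentiableAt_logLC {s : ℂ} (hs : 1 < s.re) : DifferentiableAt ℂ (logLC S Φ) s := by
  set σ : ℝ := (1 + s.re) / 2 with hσ
  have hσ1 : 1 < σ := by rw [hσ]; linarith
  have hσ2 : σ < s.re := by rw [hσ]; linarith
  have hopen : IsOpen {z : ℂ | σ < z.re} := isOpen_lt continuous_const Complex.continuous_re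
  have h := Complex.differentiableOn_tsum_of_summable_norm
    (F := fun (p : Nat.Primes) (s : ℂ) => lc S Φ p s)
    (u := fun p => 3 * finrank ℂ W * ((p : ℕ) : ℝ) ^ (-σ))
    ((summable_primes_rpow hσ1).mul_left _) (fun p => ?_) hopen ?_
  · exact (h s hσ2).differentiableAt (hopen.mem_nhds hσ2)
  · intro z hz
    have hz1 : 1 < z.re := hσ1.trans hz
    exact (differentiableAt_lc hΦ p (by linarith)).differentiableWithinAt
  · intro p z hz
    have hz' : σ < z.re := hz
    refine (norm_lc_le hΦ p (by linarith)).trans ?_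
    refine mul_le_mul_of_nonneg_left ?_ (by positivity)
    exact Real.rpow_le_rpow_of_exponent_le (by exact_mod_cast p.prop.one_lt.le) (by linarith)

/-- the Euler product -/
lemma hasProd_LC {s : ℂ} (hs : 1 < s.re) :
    HasProd (fun p : {p : Nat.Primes // p ∉ S} =>
      (LinearMap.det (1 - (((p.1 : ℕ) : ℂ) ^ (-s)) • Φ p.1))⁻¹) (Complex.exp (logLC S Φ s)) := by
  classical
  have h := ((summable_lc hΦ hs).hasSum).cexp
  have hinj : Function.Injective (fun p : {p : Nat.Primes // p ∉ S} => p.1) :=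
    Subtype.val_injective
  have h1 : HasProd ((Complex.exp ∘ fun p => lc S Φ p s) ∘
      fun p : {p : Nat.Primes // p ∉ S} => p.1) (Complex.exp (logLC S Φ s)) := by
    rw [hinj.hasProd_iff]
    · exact h
    · intro p hp
      have hpS : p ∈ S := by
        by_contra hpS
        exact hp ⟨⟨p, hpS⟩, rfl⟩
      simp only [Function.comp_apply, lc, if_pos hpS, Complex.exp_zero]
  have h2 : (fun p : {p : Nat.Primes // p ∉ S} =>
      (LinearMap.det (1 - (((p.1 : ℕ) : ℂ) ^ (-s)) • Φ p.1))⁻¹) =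
      (Complex.exp ∘ fun p => lc S Φ p s) ∘ fun p : {p : Nat.Primes // p ∉ S} => p.1 := by
    funext p
    simp only [Function.comp_apply, lc, if_neg p.2]
    rw [exp_logdet (hΦ p.1 p.2) ((norm_tc_le (by linarith) p.1).trans_lt (by norm_num))]
    rfl
  rw [h2]
  exact h1

/-- the logarithm of the `L`-function and the logarithmic derivative of the `L`-function -/
theorem ac_logLC_iff (c : ℂ) : AC (fun s => logLC S Φ s + c * Complex.log (s - 1)) ↔
    HasRes (fun s => ∑' p : Nat.Primes, wt S Φ p * (Real.log ((p : ℕ) : ℝ) : ℝ) *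
      ((p : ℕ) : ℂ) ^ (-s)) 1 c := by
  set G : ℂ → ℂ := fun s => ∑' p, wt S Φ p * ((p : ℕ) : ℂ) ^ (-s) with hG
  have hC0 : (0 : ℝ) ≤ finrank ℂ W := by positivity
  have hGder : ∀ s : ℂ, 1 < s.re → HasDerivAt G (-∑' p : Nat.Primes,
      wt S Φ p * (Real.log ((p : ℕ) : ℝ) : ℝ) * ((p : ℕ) : ℂ) ^ (-s)) s := by
    intro s h1
    set σ : ℝ := (1 + s.re) / 2 with hσ
    have hσ1 : 1 < σ := by rw [hσ]; linarith
    have hσ2 : σ < s.re := by rw [hσ]; linarith
    have hopen : IsOpen {z : ℂ | σ < z.re} := isOpen_lt continuous_const Complex.continuous_re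
    have hbd : ∀ (p : Nat.Primes) (z : ℂ), z ∈ {z : ℂ | σ < z.re} →
        ‖wt S Φ p * ((p : ℕ) : ℂ) ^ (-z)‖ ≤ finrank ℂ W * ((p : ℕ) : ℝ) ^ (-σ) := fun p z hz => by
      have hz' : σ < z.re := hz
      rw [norm_mul, norm_prime_cpow]
      exact mul_le_mul (norm_wt_le hΦ p) (Real.rpow_le_rpow_of_exponent_le
        (by exact_mod_cast p.prop.one_lt.le) (by linarith)) (by positivity) hC0
    have hdo : ∀ p : Nat.Primes, DifferentiableOn ℂ
        (fun s : ℂ => wt S Φ p * ((p : ℕ) : ℂ) ^ (-s)) {z : ℂ | σ < z.re} :=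
      fun p => ((differentiable_cpow_nat p.prop.pos).const_mul _).differentiableOn
    have hd := Complex.hasSum_deriv_of_summable_norm
      ((summable_primes_rpow hσ1).mul_left (finrank ℂ W : ℝ)) hdo hopen hbd hσ2
    have hterm : ∀ p : Nat.Primes, deriv (fun s : ℂ => wt S Φ p * ((p : ℕ) : ℂ) ^ (-s)) s =
        -(wt S Φ p * (Real.log ((p : ℕ) : ℝ) : ℝ) * ((p : ℕ) : ℂ) ^ (-s)) := by
      intro p
      have hp0 : ((p : ℕ) : ℂ) ≠ 0 := by exact_mod_cast p.prop.ne_zero
      have h2 : HasDerivAt (fun s : ℂ => -s) (-1) s := (hasDerivAt_id s).neg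
      have h3 := (h2.const_cpow (c := ((p : ℕ) : ℂ)) (Or.inl hp0)).const_mul (wt S Φ p)
      rw [h3.deriv, ← Complex.natCast_log]
      push_cast
      ring
    simp only [hterm] at hd
    have h5 := hd.tsum_eq
    rw [tsum_neg] at h5
    rw [h5]
    have h6 := Complex.differentiableOn_tsum_of_summable_norm
      ((summable_primes_rpow hσ1).mul_left (finrank ℂ W : ℝ)) hdo hopen hbd
    exact ((h6 s hσ2).differentiableAt (hopen.mem_nhds hσ2)).hasDerivAt
  constructor
  · intro h
    refine AC.hasRes hGder ((h.sub (ac_logLC hΦ)).congr fun s _ => ?_)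
    simp only [hG]
    ring
  · intro h
    refine ((HasRes.ac hGder h).add (ac_logLC hΦ)).congr fun s _ => ?_
    simp only [hG]
    ring

/-- **The pole of the `L`-function and the residue of its logarithmic derivative.** -/
theorem hasPole_logLC_iff (r : ℕ) : HasPole (fun s => Complex.exp (logLC S Φ s)) 1 r ↔
    HasRes (fun s => ∑' p : Nat.Primes, wt S Φ p * (Real.log ((p : ℕ) : ℝ) : ℝ) *
      ((p : ℕ) : ℂ) ^ (-s)) 1 r := by
  rw [← ac_logLC_iff hΦ]
  constructor
  · exact HasPole.ac fun s hs => differentiableAt_logLC hΦ hs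
  · exact AC.hasPole

end

end Pool.Agent.N184.QP
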