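import Mathlib

/-!
# Rational class functions on finite groups are combinations of permutation characters
-/

set_option autoImplicit false

namespace Pool.Agent.N184.QP

variable {G : Type} [Group G] [Finite G]

/-- the permutation character of `G / H`: the number of fixed points of `g` -/
noncomputable def perm (H : Subgroup G) (g : G) : ℚ :=
  (Nat.card {σ : G // σ⁻¹ * g * σ ∈ H} : ℚ) / Nat.card H

/-- the number of `σ` such that `σ⁻¹ g σ` generates `C` -/
noncomputable def genC (C : Subgroup G) (g : G) : ℚ :=
  (Nat.card {σ : G // Subgroup.zpowers (σ⁻¹ * g * σ) = C} : ℚ)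

open Classical in
lemma card_mul_perm [Fintype (Subgroup G)] (H : Subgroup G) (g : G) :
    (Nat.card H : ℚ) * perm H g = ∑ C : Subgroup G with C ≤ H, genC C g := by
  have hpos : (Nat.card H : ℚ) ≠ 0 := by exact_mod_cast Nat.card_pos.ne'
  have : Fintype G := Fintype.ofFinite G
  unfold perm genC
  rw [mul_div_cancel₀ _ hpos, ← Nat.cast_sum]
  congr 1
  rw [Nat.card_eq_fintype_card, Fintype.card_subtype]
  rw [Finset.card_eq_sum_card_fiberwise (f := fun σ : G => Subgroup.zpowers (σ⁻¹ * g * σ))
    (t := Finset.univ.filter (fun C : Subgroup G => C ≤ H))]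
  · refine Finset.sum_congr rfl fun C hC => ?_
    rw [Nat.card_eq_fintype_card, Fintype.card_subtype]
    congr 1
    ext σ
    simp only [Finset.mem_filter, Finset.mem_univ, true_and] at hC ⊢
    constructor
    · rintro ⟨_, h⟩; exact h
    · intro h
      refine ⟨?_, h⟩
      apply hC
      rw [← h]
      exact Subgroup.mem_zpowers _
  · intro σ hσ
    simp only [Finset.coe_filter, Finset.mem_univ, true_and, Set.mem_ofPred_eq] at hσ ⊢
    rwa [Subgroup.zpowers_le]

/-- the function `genC C` is a combination of permutation characters -/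
lemma genC_mem (C : Subgroup G) : genC C ∈ Submodule.span ℚ (Set.range (perm (G := G))) := by
  classical
  have : Fintype (Subgroup G) := Fintype.ofFinite _
  induction C using WellFoundedLT.induction with
  | ind C ih =>
  have h1 : genC C = (Nat.card C : ℚ) • perm C - ∑ B : Subgroup G with B < C, genC B := by
    funext g
    have h2 : (Finset.univ.filter (fun B : Subgroup G => B ≤ C)) =
        insert C (Finset.univ.filter (fun B : Subgroup G => B < C)) := by
      ext B
      simp only [Finset.mem_filter, Finset.mem_univ, true_and, Finset.mem_insert]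
      exact le_iff_eq_or_lt
    have h3 := card_mul_perm C g
    rw [h2, Finset.sum_insert (by simp)] at h3
    rw [Pi.sub_apply, Pi.smul_apply, smul_eq_mul, Finset.sum_apply, h3]
    ring
  rw [h1]
  refine Submodule.sub_mem _ (Submodule.smul_mem _ _ (Submodule.subset_span ⟨C, rfl⟩)) ?_
  refine Submodule.sum_mem _ fun B hB => ih B ?_
  simpa using hB

/-- a class function which takes the same value on generators of conjugate cyclic subgroups is a
combination of permutation characters -/
theorem exists_coeff (f : G → ℚ)
    (hf : ∀ g h, Subgroup.zpowers g = Subgroup.zpowers h → f g = f h)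
    (hc : ∀ g σ, f (σ⁻¹ * g * σ) = f g) :
    f ∈ Submodule.span ℚ (Set.range (perm (G := G))) := by
  classical
  have : Fintype G := Fintype.ofFinite G
  have : Fintype (Subgroup G) := Fintype.ofFinite _
  -- the value on a cyclic subgroup
  let F : Subgroup G → ℚ := fun C => if h : ∃ g, Subgroup.zpowers g = C then f h.choose else 0
  have hF : ∀ g, F (Subgroup.zpowers g) = f g := by
    intro g
    have h : ∃ g', Subgroup.zpowers g' = Subgroup.zpowers g := ⟨g, rfl⟩
    simp only [F, dif_pos h]
    exact hf _ _ h.choose_spec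
  have hcard : (Nat.card G : ℚ) ≠ 0 := by exact_mod_cast Nat.card_pos.ne'
  have h1 : f = (Nat.card G : ℚ)⁻¹ • ∑ C : Subgroup G, F C • genC C := by
    funext g
    rw [Pi.smul_apply, Finset.sum_apply, smul_eq_mul]
    have h2 : ∀ C : Subgroup G, (F C • genC C) g = f g * genC C g := by
      intro C
      rw [Pi.smul_apply, smul_eq_mul]
      by_cases h : genC C g = 0
      · rw [h, mul_zero, mul_zero]
      · congr 1
        unfold genC at h
        have h3 : Nat.card {σ : G // Subgroup.zpowers (σ⁻¹ * g * σ) = C} ≠ 0 := by
          intro h4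
          rw [h4] at h
          exact h (by simp)
        have h5 : Nonempty {σ : G // Subgroup.zpowers (σ⁻¹ * g * σ) = C} :=
          (Nat.card_pos_iff.mp (Nat.pos_of_ne_zero h3)).1
        obtain ⟨σ, hσ⟩ := h5
        rw [← hσ, hF, hc]
    rw [Finset.sum_congr rfl fun C _ => h2 C, ← Finset.mul_sum]
    have h3 := card_mul_perm (⊤ : Subgroup G) g
    have h4 : (Finset.univ.filter (fun B : Subgroup G => B ≤ ⊤)) = Finset.univ := by
      ext B; simp
    rw [h4] at h3
    rw [← h3, Subgroup.card_top]
    have h5 : perm (⊤ : Subgroup G) g = 1 := by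
      unfold perm
      rw [Subgroup.card_top]
      have : Nat.card {σ : G // σ⁻¹ * g * σ ∈ (⊤ : Subgroup G)} = Nat.card G :=
        Nat.card_congr (Equiv.subtypeUnivEquiv fun σ => Subgroup.mem_top _)
      rw [this, div_self hcard]
    rw [h5]
    field_simp
  rw [h1]
  refine Submodule.smul_mem _ _ (Submodule.sum_mem _ fun C _ => Submodule.smul_mem _ _ (genC_mem C))

open Classical in
/-- the mean value of a permutation character of a transitive action is one -/
lemma sum_perm [Fintype G] (H : Subgroup G) : ∑ g : G, perm H g = Nat.card G := by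
  have hpos : (Nat.card H : ℚ) ≠ 0 := by exact_mod_cast Nat.card_pos.ne'
  unfold perm
  rw [← Finset.sum_div, div_eq_iff hpos, ← Nat.cast_sum, ← Nat.cast_mul]
  congr 1
  have h1 : ∀ g : G, Nat.card {σ : G // σ⁻¹ * g * σ ∈ H} =
      ∑ σ : G, if σ⁻¹ * g * σ ∈ H then 1 else 0 := by
    intro g
    rw [Nat.card_eq_fintype_card, Fintype.card_subtype, Finset.card_filter]
  rw [Finset.sum_congr rfl fun g _ => h1 g, Finset.sum_comm]
  have h2 : ∀ σ : G, (∑ g : G, if σ⁻¹ * g * σ ∈ H then 1 else 0) = Nat.card H := by
    intro σ
    rw [← Finset.card_filter, ← Fintype.card_subtype, ← Nat.card_eq_fintype_card]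
    refine Nat.card_congr ⟨fun g => ⟨σ⁻¹ * g.1 * σ, g.2⟩, fun h => ⟨σ * h.1 * σ⁻¹, ?_⟩, ?_, ?_⟩
    · have : σ⁻¹ * (σ * h.1 * σ⁻¹) * σ = h.1 := by group
      rw [this]; exact h.2
    · intro g
      apply Subtype.ext
      simp only
      group
    · intro h
      apply Subtype.ext
      simp only
      group
  rw [Finset.sum_congr rfl fun σ _ => h2 σ, Finset.sum_const, Finset.card_univ,
    Nat.card_eq_fintype_card (α := G), smul_eq_mul]

end Pool.Agent.N184.QP
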