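import Pool.Agent.N184.QP.Zeta
import Pool.Agent.N184.QP.Grp
import Pool.Agent.W54.Cheb.Tor
import Pool.Agent.W401.Cheb.Grp

/-!
# Sums of rational class functions of Frobenius elements near `1`
-/

set_option autoImplicit false

open Filter Topology NumberField
open Pool.Agent.H921R2.TatePole Pool.Agent.W401.Cheb

namespace Pool.Agent.N184.QP

/-- the function `a` on the prime numbers is bounded and `∑ a(p) p^{-x} - m log (1/(x-1))` has a
limit as `x → 1+` -/
structure HL (a : Nat.Primes → ℝ) (m : ℝ) : Prop where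
  bdd : ∃ C : ℝ, ∀ p, |a p| ≤ C
  lim : ∃ c : ℝ, Tendsto (fun x : ℝ => (∑' p : Nat.Primes, a p * ((p : ℕ) : ℝ) ^ (-x)) - m * Lam x)
    (𝓝[>] 1) (𝓝 c)

lemma HL.summable {a : Nat.Primes → ℝ} {m : ℝ} (h : HL a m) {x : ℝ} (hx : 1 < x) :
    Summable fun p : Nat.Primes => a p * ((p : ℕ) : ℝ) ^ (-x) := by
  obtain ⟨C, hC⟩ := h.bdd
  refine Summable.of_norm_bounded ((summable_primes_rpow hx).mul_left C) fun p => ?_
  rw [norm_mul, Real.norm_eq_abs, Real.norm_eq_abs, abs_of_nonneg (a := ((p : ℕ) : ℝ) ^ (-x))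
    (by positivity)]
  exact mul_le_mul_of_nonneg_right (hC p) (by positivity)

lemma HL.zero : HL (fun _ => 0) 0 := by
  refine ⟨⟨0, fun p => by simp⟩, 0, ?_⟩
  simp

lemma HL.add {a b : Nat.Primes → ℝ} {m n : ℝ} (ha : HL a m) (hb : HL b n) :
    HL (fun p => a p + b p) (m + n) := by
  obtain ⟨C, hC⟩ := ha.bdd
  obtain ⟨D, hD⟩ := hb.bdd
  obtain ⟨c, hc⟩ := ha.lim
  obtain ⟨d, hd⟩ := hb.lim
  refine ⟨⟨C + D, fun p => (abs_add_le _ _).trans (add_le_add (hC p) (hD p))⟩, c + d, ?_⟩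
  refine (hc.add hd).congr' ?_
  filter_upwards [self_mem_nhdsWithin] with x hx
  have hx1 : (1 : ℝ) < x := hx
  have h1 : (fun p : Nat.Primes => (a p + b p) * ((p : ℕ) : ℝ) ^ (-x)) =
      fun p : Nat.Primes => a p * ((p : ℕ) : ℝ) ^ (-x) + b p * ((p : ℕ) : ℝ) ^ (-x) := by
    funext p; ring
  rw [h1, (ha.summable hx1).tsum_add (hb.summable hx1)]
  ring

lemma HL.smul {a : Nat.Primes → ℝ} {m : ℝ} (ha : HL a m) (r : ℝ) :
    HL (fun p => r * a p) (r * m) := by
  obtain ⟨C, hC⟩ := ha.bdd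
  obtain ⟨c, hc⟩ := ha.lim
  refine ⟨⟨|r| * C, fun p => ?_⟩, r * c, ?_⟩
  · rw [abs_mul]
    exact mul_le_mul_of_nonneg_left (hC p) (abs_nonneg r)
  · refine (hc.const_mul r).congr fun x => ?_
    have h1 : (fun p : Nat.Primes => r * a p * ((p : ℕ) : ℝ) ^ (-x)) =
        fun p : Nat.Primes => r * (a p * ((p : ℕ) : ℝ) ^ (-x)) := by
      funext p; ring
    rw [h1, tsum_mul_left]
    ring

/-- finitely many values may be changed -/
lemma HL.congr {a b : Nat.Primes → ℝ} {m : ℝ} (ha : HL a m) (S : Finset Nat.Primes)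
    (h : ∀ p, p ∉ S → b p = a p) : HL b m := by
  classical
  -- the difference has finite support
  have h0 : HL (fun p => b p - a p) 0 := by
    refine ⟨⟨∑ p ∈ S, |b p - a p|, fun p => ?_⟩, ∑ p ∈ S, (b p - a p) * ((p : ℕ) : ℝ) ^ (-(1 : ℝ)),
      ?_⟩
    · by_cases hp : p ∈ S
      · exact Finset.single_le_sum (f := fun p => |b p - a p|) (fun q _ => abs_nonneg _) hp
      · rw [h p hp, sub_self, abs_zero]
        exact Finset.sum_nonneg fun q _ => abs_nonneg _
    · have h1 : (fun x : ℝ => (∑' p : Nat.Primes, (b p - a p) * ((p : ℕ) : ℝ) ^ (-x)) - 0 * Lam x) =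
          fun x : ℝ => ∑ p ∈ S, (b p - a p) * ((p : ℕ) : ℝ) ^ (-x) := by
        funext x
        rw [zero_mul, sub_zero, tsum_eq_sum (s := S)]
        intro p hp
        rw [h p hp, sub_self, zero_mul]
      rw [h1]
      refine tendsto_finsetSum _ fun p _ => ?_
      refine Tendsto.const_mul _ ?_
      have h2 := tendsto_rpow ((p : ℕ) : ℝ) (by exact_mod_cast p.prop.pos) 1
      simpa using h2
  have h2 := ha.add h0
  rw [add_zero] at h2
  convert h2 using 2
  ring

section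
variable {L : Type} [Field L] [NumberField L] [IsGalois ℚ L]

/-- `τ` is a Frobenius element at `p` in the Galois group of `L` over `ℚ` -/
def IsFrobIn (p : Nat.Primes) (τ : Gal(L/ℚ)) : Prop :=
  haveI : Fact (p : ℕ).Prime := ⟨p.prop⟩
  ∃ φ : 𝓞 L →+* AlgebraicClosure (ZMod (p : ℕ)), HasFrob (p : ℕ) φ τ

/-- the mean value -/
noncomputable def mean {G : Type} [Fintype G] (f : G → ℚ) : ℚ := (∑ g, f g) / Fintype.card G

/-- permutation characters -/
lemma hl_perm (τ : Nat.Primes → Gal(L/ℚ)) (S : Finset Nat.Primes)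
    (hτ : ∀ p, p ∉ S → IsFrobIn p (τ p)) (H : Subgroup Gal(L/ℚ)) :
    HL (fun p => ((perm H (τ p) : ℚ) : ℝ)) 1 := by
  classical
  obtain ⟨D, hD, htor⟩ := W54.ChTor.main L
  set E := IntermediateField.fixedField H with hE
  have h1 : HL (fun p : Nat.Primes => (hc (𝓞 E) p : ℝ)) 1 := by
    refine ⟨⟨Module.finrank ℚ E, fun p => ?_⟩, ?_⟩
    · rw [abs_of_nonneg (by positivity), ← R_eq_hc]
      exact_mod_cast R_le p
    · obtain ⟨c, hc'⟩ := degree_one_limit E
      exact ⟨c, by simpa only [one_mul] using hc'⟩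
  -- the prime divisors of `D`
  have hfin : {p : Nat.Primes | (p : ℕ) ∣ D}.Finite := by
    refine Set.Finite.of_injOn (f := fun p : Nat.Primes => (p : ℕ)) (t := (D.divisors : Set ℕ))
      (fun p hp => ?_) (fun p _ q _ hpq => Subtype.ext hpq) (Finset.finite_toSet _)
    exact Finset.mem_coe.mpr (Nat.mem_divisors.mpr ⟨hp, hD.ne'⟩)
  refine h1.congr (S ∪ hfin.toFinset) fun p hp => ?_
  rw [Finset.mem_union, not_or, Set.Finite.mem_toFinset] at hp
  obtain ⟨hpS, hpD⟩ := hp
  have hpD' : ¬ (p : ℕ) ∣ D := hpD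
  haveI : Fact (p : ℕ).Prime := ⟨p.prop⟩
  obtain ⟨φ, hφ⟩ := hτ p hpS
  have h2 := card_fixed (htor (p : ℕ) hpD') hφ H
  unfold perm
  rw [← h2]
  have h3 : ((Nat.card H : ℕ) : ℚ) ≠ 0 := by exact_mod_cast Nat.card_pos.ne'
  push_cast
  rw [mul_div_cancel_left₀ _ (by exact_mod_cast h3)]
  rfl

/-- **Rational class functions.** -/
theorem hl_class [Fintype Gal(L/ℚ)] (τ : Nat.Primes → Gal(L/ℚ)) (S : Finset Nat.Primes)
    (hτ : ∀ p, p ∉ S → IsFrobIn p (τ p)) (f : Gal(L/ℚ) → ℚ)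
    (hf : ∀ g h, Subgroup.zpowers g = Subgroup.zpowers h → f g = f h)
    (hc : ∀ g σ, f (σ⁻¹ * g * σ) = f g) :
    HL (fun p => ((f (τ p) : ℚ) : ℝ)) ((mean f : ℚ) : ℝ) := by
  classical
  have h := exists_coeff f hf hc
  clear hf hc
  induction h using Submodule.span_induction with
  | mem f hf =>
    obtain ⟨H, rfl⟩ := hf
    have h1 : mean (perm H) = 1 := by
      unfold mean
      have h2 := sum_perm H
      rw [Nat.card_eq_fintype_card] at h2
      rw [h2, div_self]
      exact_mod_cast Fintype.card_ne_zero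
    rw [h1]
    simpa using hl_perm τ S hτ H
  | zero =>
    have h1 : mean (0 : Gal(L/ℚ) → ℚ) = 0 := by unfold mean; simp
    rw [h1]
    simpa using HL.zero
  | add f g _ _ hf hg =>
    have h1 : mean (f + g) = mean f + mean g := by
      unfold mean
      simp only [Pi.add_apply]
      rw [Finset.sum_add_distrib, add_div]
    rw [h1]
    have := hf.add hg
    simpa using this
  | smul r f _ hf =>
    have h1 : mean (r • f) = r * mean f := by
      unfold mean
      simp only [Pi.smul_apply, smul_eq_mul]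
      rw [← Finset.mul_sum, mul_div_assoc]
    rw [h1]
    have := hf.smul (r : ℝ)
    simpa using this

end

end Pool.Agent.N184.QP
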