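import Mathlib

/-!
# Traces of powers of rational operators of finite order
-/

set_option autoImplicit false

open Polynomial

namespace Pool.Agent.N184.QP

section

variable {n : ℕ}

lemma sum_pow_root {ω : ℂ} (hω : ω ^ n = 1) : ∑ i ∈ Finset.range n, ω ^ i = if ω = 1 then (n : ℂ) else 0 := by
  split_ifs with h
  · subst h; simp
  · have h1 := geom_sum_mul ω n
    rw [hω, sub_self] at h1
    exact (mul_eq_zero.mp h1).resolve_right (sub_ne_zero.mpr h)

/-- sum over the roots of unity -/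
lemma sum_roots {ζ : ℂ} (hζ : IsPrimitiveRoot ζ n) {k j : ℕ} (hk : k < n) (hj : j < n) :
    ∑ i ∈ Finset.range n, (ζ ^ i) ^ k * (ζ ^ i) ^ (n - j) = if j = k then (n : ℂ) else 0 := by
  have h1 : ∀ i, (ζ ^ i) ^ k * (ζ ^ i) ^ (n - j) = (ζ ^ (k + (n - j))) ^ i := by
    intro i
    rw [← pow_add, ← pow_mul, ← pow_mul, mul_comm]
  simp only [h1]
  rw [sum_pow_root (by rw [← pow_mul, mul_comm, pow_mul, hζ.pow_eq_one, one_pow])]
  by_cases h : j = k
  · subst h
    rw [if_pos, if_pos rfl]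
    have : j + (n - j) = n := by omega
    rw [this, hζ.pow_eq_one]
  · rw [if_neg h, if_neg]
    intro h2
    have h3 := (hζ.pow_eq_one_iff_dvd _).mp h2
    obtain ⟨c, hc⟩ := h3
    have h4 : c = 1 := by
      rcases Nat.lt_or_ge c 1 with h5 | h5
      · interval_cases c; omega
      · rcases Nat.lt_or_ge 1 c with h6 | h6
        · have : n * 2 ≤ n * c := Nat.mul_le_mul_left n h6
          omega
        · omega
    subst h4
    omega

end

variable {V : Type*} [AddCommGroup V] [Module ℂ V] [FiniteDimensional ℂ V]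

/-- the trace of an idempotent operator is a natural number -/
lemma trace_idem (P : Module.End ℂ V) (hP : P * P = P) : ∃ m : ℕ, LinearMap.trace ℂ V P = m := by
  refine ⟨Module.finrank ℂ (LinearMap.range P), ?_⟩
  have h : LinearMap.IsProj (LinearMap.range P) P :=
    ⟨fun x => LinearMap.mem_range_self P x, fun x hx => by
      obtain ⟨y, rfl⟩ := hx
      exact LinearMap.congr_fun hP y⟩
  exact h.trace

/-- Let `B` be an operator with `B ^ n = 1` whose powers have rational traces `t`. The sum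
`∑ ω ^ (n - j) t j` is an integer for each `n`-th root of unity. -/
lemma mult_rat {n : ℕ} (hn : 0 < n) (B : Module.End ℂ V) (hB : B ^ n = 1) (t : ℕ → ℚ)
    (ht : ∀ j, LinearMap.trace ℂ V (B ^ j) = (t j : ℂ)) {ω : ℂ} (hω : ω ^ n = 1) :
    ∃ c : ℚ, ∑ j ∈ Finset.range n, ω ^ (n - j) * (t j : ℂ) = (c : ℂ) := by
  have hn0 : (n : ℂ) ≠ 0 := by exact_mod_cast hn.ne'
  set P : Module.End ℂ V := (n : ℂ)⁻¹ • ∑ j ∈ Finset.range n, ω ^ (n - j) • B ^ j with hP
  have h1 : B * P = ω • P := by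
    rw [hP, mul_smul_comm, smul_comm ω]
    congr 1
    rw [Finset.mul_sum, Finset.smul_sum]
    have e1 : ∀ j ∈ Finset.range n, B * (ω ^ (n - j) • B ^ j) = ω ^ (n + 1 - (j + 1)) • B ^ (j + 1) := by
      intro j _
      rw [mul_smul_comm, ← pow_succ', Nat.add_sub_add_right]
    have e2 : ∀ j ∈ Finset.range n, ω • (ω ^ (n - j) • B ^ j) = ω ^ (n + 1 - j) • B ^ j := by
      intro j hj
      have := Finset.mem_range.mp hj
      rw [smul_smul, ← pow_succ', Nat.sub_add_comm this.le]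
    rw [Finset.sum_congr rfl e1, Finset.sum_congr rfl e2]
    have h2 := Finset.sum_range_succ (fun j => ω ^ (n + 1 - j) • B ^ j) n
    have h3 := Finset.sum_range_succ' (fun j => ω ^ (n + 1 - j) • B ^ j) n
    rw [h2] at h3
    have h4 : ω ^ (n + 1 - n) • B ^ n = ω ^ (n + 1 - 0) • B ^ 0 := by
      rw [hB, pow_zero, Nat.sub_zero, pow_succ, hω, one_mul]
      congr 1
      simp
    rw [h4] at h3
    exact (add_right_cancel h3).symm
  have h2 : ∀ j, B ^ j * P = ω ^ j • P := by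
    intro j
    induction j with
    | zero => simp
    | succ j ih => rw [pow_succ', mul_assoc, ih, mul_smul_comm, h1, smul_smul, ← pow_succ]
  have h3 : P * P = P := by
    conv_lhs => rw [hP]
    rw [smul_mul_assoc, Finset.sum_mul]
    have e : ∀ j ∈ Finset.range n, ω ^ (n - j) • B ^ j * P = P := by
      intro j hj
      have := Finset.mem_range.mp hj
      rw [smul_mul_assoc, h2, smul_smul, ← pow_add, Nat.sub_add_cancel this.le, hω, one_smul]
    rw [Finset.sum_congr rfl e, Finset.sum_const, Finset.card_range, ← Nat.cast_smul_eq_nsmul ℂ,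
      smul_smul, inv_mul_cancel₀ hn0, one_smul]
  obtain ⟨m, hm⟩ := trace_idem P h3
  refine ⟨n * m, ?_⟩
  have h4 : LinearMap.trace ℂ V P = (n : ℂ)⁻¹ * ∑ j ∈ Finset.range n, ω ^ (n - j) * (t j : ℂ) := by
    rw [hP, map_smul, smul_eq_mul, map_sum]
    congr 1
    refine Finset.sum_congr rfl fun j _ => ?_
    rw [map_smul, smul_eq_mul, ht]
  rw [hm] at h4
  push_cast
  rw [h4, mul_inv_cancel_left₀ hn0]

/-- Let `B` be an operator with `B ^ n = 1` whose powers have rational traces. The trace of `B ^ a`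
is the trace of `B`, for `a` prime to `n`. -/
theorem trace_pow_complex {n : ℕ} (hn : 0 < n) (B : Module.End ℂ V) (hB : B ^ n = 1) (t : ℕ → ℚ)
    (ht : ∀ j, LinearMap.trace ℂ V (B ^ j) = (t j : ℂ)) {a : ℕ} (ha : a.Coprime n) :
    LinearMap.trace ℂ V (B ^ a) = LinearMap.trace ℂ V B := by
  rcases Nat.lt_or_ge 1 n with hn1 | hn1
  swap
  · have : n = 1 := by omega
    subst this
    rw [pow_one] at hB
    rw [hB, one_pow]
  have hn0 : (n : ℂ) ≠ 0 := by exact_mod_cast hn.ne'
  -- reduce to `a < n`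
  wlog hlt : a < n generalizing a with H
  · have h1 : B ^ a = B ^ (a % n) := by
      conv_lhs => rw [← Nat.div_add_mod a n, pow_add, pow_mul, hB, one_pow, one_mul]
    rw [h1]
    have h2 : (a % n).Coprime n := by
      have h3 := ha.gcd_eq_one
      rw [Nat.gcd_comm, Nat.gcd_rec] at h3
      exact h3
    exact H h2 (Nat.mod_lt _ hn)
  obtain ⟨ζ, hζ⟩ : ∃ ζ : ℂ, IsPrimitiveRoot ζ n := ⟨_, Complex.isPrimitiveRoot_exp n hn.ne'⟩
  -- the polynomial
  set F : ℚ[X] := ∑ j ∈ Finset.range n, X ^ (n - j) * C (t j) with hF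
  have hFe : ∀ ω : ℂ, aeval ω F = ∑ j ∈ Finset.range n, ω ^ (n - j) * (t j : ℂ) := by
    intro ω
    rw [hF, map_sum]
    refine Finset.sum_congr rfl fun j _ => ?_
    rw [map_mul, map_pow, aeval_X, aeval_C]
    rfl
  -- Fourier inversion
  have hinv : ∀ k < n, ∑ i ∈ Finset.range n, (ζ ^ i) ^ k * aeval (ζ ^ i) F = n * (t k : ℂ) := by
    intro k hk
    have e1 : ∀ i ∈ Finset.range n, (ζ ^ i) ^ k * aeval (ζ ^ i) F =
        ∑ j ∈ Finset.range n, (ζ ^ i) ^ k * (ζ ^ i) ^ (n - j) * (t j : ℂ) := by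
      intro i _
      rw [hFe, Finset.mul_sum]
      exact Finset.sum_congr rfl fun j _ => by ring
    rw [Finset.sum_congr rfl e1, Finset.sum_comm]
    have e2 : ∀ j ∈ Finset.range n, ∑ i ∈ Finset.range n, (ζ ^ i) ^ k * (ζ ^ i) ^ (n - j) * (t j : ℂ) =
        (if j = k then (n : ℂ) else 0) * (t j : ℂ) := by
      intro j hj
      rw [← Finset.sum_mul, sum_roots hζ hk (Finset.mem_range.mp hj)]
    rw [Finset.sum_congr rfl e2, Finset.sum_eq_single k]
    · simp
    · intro j _ hjk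
      rw [if_neg hjk, zero_mul]
    · intro h
      exact absurd (Finset.mem_range.mpr hk) h
  -- invariance
  have hFa : ∀ i, aeval ((ζ ^ i) ^ a) F = aeval (ζ ^ i) F := by
    intro i
    have hroot : (ζ ^ i) ^ n = 1 := by rw [← pow_mul, mul_comm, pow_mul, hζ.pow_eq_one, one_pow]
    obtain ⟨c, hc⟩ := mult_rat hn B hB t ht hroot
    rw [← hFe] at hc
    have h1 : aeval (ζ ^ i) (F - C c) = 0 := by
      rw [map_sub, aeval_C, hc]
      exact sub_self _
    have h2 := minpoly.dvd ℚ (ζ ^ i) h1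
    -- the minimal polynomials agree
    set d := orderOf (ζ ^ i) with hd
    have hdpos : 0 < d := orderOf_pos_iff.mpr (isOfFinOrder_iff_pow_eq_one.mpr ⟨n, hn, hroot⟩)
    have hdn : d ∣ n := orderOf_dvd_of_pow_eq_one hroot
    have hprim : IsPrimitiveRoot (ζ ^ i) d := IsPrimitiveRoot.orderOf _
    have hcop : a.Coprime d := Nat.Coprime.coprime_dvd_right hdn ha
    have h3 : minpoly ℤ (ζ ^ i) = minpoly ℤ ((ζ ^ i) ^ a) := hprim.minpoly_eq_pow_coprime hcop
    have hint : IsIntegral ℤ (ζ ^ i) := hprim.isIntegral hdpos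
    have hint2 : IsIntegral ℤ ((ζ ^ i) ^ a) := hint.pow a
    have h4 : minpoly ℚ (ζ ^ i) = minpoly ℚ ((ζ ^ i) ^ a) := by
      rw [minpoly.isIntegrallyClosed_eq_field_fractions' ℚ hint,
        minpoly.isIntegrallyClosed_eq_field_fractions' ℚ hint2, h3]
    rw [h4] at h2
    obtain ⟨Q, hQ⟩ := h2
    have h5 : aeval ((ζ ^ i) ^ a) (F - C c) = 0 := by
      rw [hQ, map_mul, minpoly.aeval, zero_mul]
    rw [map_sub, sub_eq_zero, aeval_C] at h5
    rw [h5, hc]
    rfl
  -- reindex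
  have h6 : ∑ i ∈ Finset.range n, (ζ ^ i) ^ a * aeval ((ζ ^ i) ^ a) F =
      ∑ i ∈ Finset.range n, (ζ ^ i) ^ 1 * aeval (ζ ^ i) F := by
    refine Finset.sum_bij (fun i _ => (i * a) % n) (fun i _ => Finset.mem_range.mpr (Nat.mod_lt _ hn))
      ?_ ?_ ?_
    · intro i hi j hj hij
      have hi' := Finset.mem_range.mp hi
      have hj' := Finset.mem_range.mp hj
      have h7 : i * a ≡ j * a [MOD n] := hij
      have h8 : i ≡ j [MOD n] := Nat.ModEq.cancel_right_of_coprime (Nat.coprime_comm.mp ha) h7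
      rw [Nat.ModEq, Nat.mod_eq_of_lt hi', Nat.mod_eq_of_lt hj'] at h8
      exact h8
    · intro b hb
      have hb' := Finset.mem_range.mp hb
      obtain ⟨c, hc⟩ := Nat.exists_mul_mod_eq_one_of_coprime ha hn1
      refine ⟨(b * c) % n, Finset.mem_range.mpr (Nat.mod_lt _ hn), ?_⟩
      rw [Nat.mod_mul_mod, mul_assoc, mul_comm c a, Nat.mul_mod, hc.2, mul_one, Nat.mod_mod,
        Nat.mod_eq_of_lt hb']
    · intro i _
      have h9 : ζ ^ ((i * a) % n) = (ζ ^ i) ^ a := by
        rw [← pow_mul]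
        conv_rhs => rw [← Nat.div_add_mod (i * a) n, pow_add, pow_mul, hζ.pow_eq_one, one_pow, one_mul]
      rw [h9, pow_one]
  have h7 : ∑ i ∈ Finset.range n, (ζ ^ i) ^ a * aeval ((ζ ^ i) ^ a) F =
      ∑ i ∈ Finset.range n, (ζ ^ i) ^ a * aeval (ζ ^ i) F :=
    Finset.sum_congr rfl fun i _ => by rw [hFa]
  rw [h7, hinv a hlt, hinv 1 hn1] at h6
  have h8 := mul_left_cancel₀ hn0 h6
  rw [ht a, h8, ← ht 1, pow_one]

/-- Let `A` be a rational operator with `A ^ n = 1`. The trace of `A ^ a` is the trace of `A`, for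
`a` prime to `n`. -/
theorem trace_pow_rat {U : Type*} [AddCommGroup U] [Module ℚ U] [FiniteDimensional ℚ U] {n : ℕ}
    (hn : 0 < n) (A : Module.End ℚ U) (hA : A ^ n = 1) {a : ℕ} (ha : a.Coprime n) :
    LinearMap.trace ℚ U (A ^ a) = LinearMap.trace ℚ U A := by
  have h1 : ∀ j, LinearMap.trace ℂ (TensorProduct ℚ ℂ U) (A.baseChange ℂ ^ j) =
      ((LinearMap.trace ℚ U (A ^ j) : ℚ) : ℂ) := by
    intro j
    rw [← LinearMap.baseChange_pow, LinearMap.trace_baseChange]
    rfl
  have h2 : (A.baseChange ℂ) ^ n = 1 := by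
    rw [← LinearMap.baseChange_pow, hA]
    exact LinearMap.baseChange_one ..
  have h3 := trace_pow_complex hn (A.baseChange ℂ) h2 (fun j => LinearMap.trace ℚ U (A ^ j)) h1 ha
  rw [h1 a] at h3
  have h4 := h1 1
  rw [pow_one, pow_one] at h4
  rw [h4] at h3
  exact_mod_cast h3

end Pool.Agent.N184.QP
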