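import Pool.Agent.N184.QP.Defs
import Pool.Agent.N184.QP.Rat
import Pool.Agent.N184.QP.Artin

/-!
# Galois representations spanned by classes of finite order
-/

set_option autoImplicit false

open NumberField Module Filter Topology

namespace Pool.Agent.N184.QP

theorem normal_gen (k : Type*) [Field k] : Normal k (AlgebraicClosure k) :=
  IsAlgClosure.normal k (AlgebraicClosure k)

theorem normal_rat : Normal ℚ (AlgebraicClosure ℚ) := by
  have h : (@AlgebraicClosure.instAlgebra ℚ _ ℚ _ (Algebra.id ℚ) :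
      Algebra ℚ (AlgebraicClosure ℚ)) = DivisionRing.toRatAlgebra := Subsingleton.elim _ _
  have h2 := normal_gen ℚ
  rw [h] at h2
  exact h2

theorem nf (L : IntermediateField ℚ (AlgebraicClosure ℚ)) (h : FiniteDimensional ℚ L) :
    NumberField L :=
  @NumberField.mk L _ inferInstance h

/-- Frobenius elements restrict to Frobenius elements -/
theorem isFrobIn_res (L : IntermediateField ℚ (AlgebraicClosure ℚ)) [NumberField L]
    [hN : Normal ℚ L] [IsGalois ℚ L] (p : Nat.Primes) (σ : GalQ) (h : IsFrob p σ) :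
    IsFrobIn (L := L) p (AlgEquiv.restrictNormalHom (K₁ := AlgebraicClosure ℚ) L σ) := by
  have : Fact (p : ℕ).Prime := ⟨p.prop⟩
  obtain ⟨φ, hφ⟩ := h
  refine ⟨φ.comp (algebraMap (𝓞 L) (𝓞 (AlgebraicClosure ℚ))), fun x => ?_⟩
  have h1 : algebraMap (𝓞 L) (𝓞 (AlgebraicClosure ℚ)) ((AlgEquiv.restrictNormalHom L σ) • x) =
      σ • algebraMap (𝓞 L) (𝓞 (AlgebraicClosure ℚ)) x := by
    apply RingOfIntegers.coe_injective
    exact AlgEquiv.restrictNormal_commutes σ L (x : L)
  rw [RingHom.comp_apply, h1, hφ, RingHom.comp_apply]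

section factor
variable {Γ G N : Type*} [Group Γ] [Group G] [Monoid N]

/-- factorization of a homomorphism through a surjective homomorphism -/
noncomputable def factor (res : Γ →* G) (hs : Function.Surjective res) (ρ : Γ →* N)
    (h : ∀ γ γ', res γ = res γ' → ρ γ = ρ γ') : G →* N where
  toFun g := ρ (hs g).choose
  map_one' := by
    rw [← ρ.map_one]
    refine h _ _ ?_
    rw [(hs 1).choose_spec, res.map_one]
  map_mul' a b := by
    rw [← ρ.map_mul]
    refine h _ _ ?_
    rw [(hs (a * b)).choose_spec, res.map_mul, (hs a).choose_spec, (hs b).choose_spec]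

lemma factor_apply (res : Γ →* G) (hs : Function.Surjective res) (ρ : Γ →* N)
    (h : ∀ γ γ', res γ = res γ' → ρ γ = ρ γ') (γ : Γ) : factor res hs ρ h (res γ) = ρ γ :=
  h _ _ (hs (res γ)).choose_spec

end factor

section
variable {G : Type} [Group G] [Finite G] {U : Type*} [AddCommGroup U] [Module ℚ U]
  [FiniteDimensional ℚ U]

/-- the character of a rational representation has the same values on generators of the same cyclic
subgroup -/
lemma char_zpowers (ρ : Representation ℚ G U) (g h : G)
    (hgh : Subgroup.zpowers g = Subgroup.zpowers h) :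
    LinearMap.trace ℚ U (ρ g) = LinearMap.trace ℚ U (ρ h) := by
  have hfin := isOfFinOrder_of_finite g
  have hpos : 0 < orderOf g := orderOf_pos g
  have h1 : h ∈ Subgroup.zpowers g := by rw [hgh]; exact Subgroup.mem_zpowers h
  rw [← hfin.mem_powers_iff_mem_zpowers] at h1
  obtain ⟨a, ha⟩ := h1
  have ha' : g ^ a = h := ha
  have h2 : orderOf h = orderOf g := by
    rw [← Nat.card_zpowers, ← Nat.card_zpowers, hgh]
  have h3 : a.Coprime (orderOf g) := by
    rw [← ha', orderOf_pow] at h2
    have h4 : (orderOf g).gcd a = 1 := by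
      have hd : (orderOf g).gcd a ∣ orderOf g := Nat.gcd_dvd_left _ _
      have hgp : 0 < (orderOf g).gcd a := Nat.gcd_pos_of_pos_left _ hpos
      rw [Nat.div_eq_iff_eq_mul_left hgp hd] at h2
      have h5 : orderOf g * 1 = orderOf g * (orderOf g).gcd a := by rw [mul_one]; exact h2
      exact (Nat.eq_of_mul_eq_mul_left hpos h5).symm
    rw [Nat.coprime_iff_gcd_eq_one, Nat.gcd_comm]
    exact h4
  have h5 := trace_pow_rat hpos (ρ g) (by rw [← map_pow, pow_orderOf_eq_one, map_one]) h3
  rw [← map_pow, ha'] at h5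
  exact h5.symm

end

section
variable {W : Type} [AddCommGroup W] [Module ℂ W] [Module ℚ W] [FiniteDimensional ℂ W]

/-- **Representations spanned by classes of finite order.** -/
theorem rep_data (ρ : Representation ℂ GalQ W) (W₀ A : Submodule ℚ W)
    (stable : ∀ (γ : GalQ) (w : W), w ∈ W₀ → ρ γ w ∈ W₀)
    (finite : ∀ w ∈ W₀, ∃ L : IntermediateField ℚ (AlgebraicClosure ℚ), FiniteDimensional ℚ L ∧
      ∀ γ ∈ L.fixingSubgroup, ρ γ w = w)
    (indep : ∀ (n : ℕ) (w : Fin n → W), (∀ j, w j ∈ W₀) → LinearIndependent ℚ w →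
      LinearIndependent ℂ w)
    (mem_A : ∀ w, w ∈ A ↔ w ∈ W₀ ∧ ∀ γ, ρ γ w = w)
    (hspan : Submodule.span ℂ (W₀ : Set W) = ⊤) :
    ∃ (L : Type) (_ : Field L) (_ : NumberField L) (_ : IsGalois ℚ L)
      (res : GalQ →* Gal(L/ℚ)) (f : Gal(L/ℚ) → ℚ),
      (∀ p σ, IsFrob p σ → IsFrobIn p (res σ)) ∧
      (∀ g h, Subgroup.zpowers g = Subgroup.zpowers h → f g = f h) ∧
      (∀ g σ, f (σ⁻¹ * g * σ) = f g) ∧
      (∀ γ : GalQ, LinearMap.trace ℂ W (ρ γ) = (f (res γ) : ℂ)) ∧
      mean f = finrank ℚ A ∧ finrank ℂ ρ.invariants = finrank ℚ A ∧ FiniteDimensional ℚ A := by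
  classical
  -- `W₀` is finite dimensional
  have hfd : FiniteDimensional ℚ W₀ := by
    have h1 : Module.rank ℚ W₀ ≤ (finrank ℂ W : ℕ) := by
      refine rank_le fun s hs => ?_
      have h2 : LinearIndependent ℚ (fun i : Fin s.card => ((s.equivFin.symm i).1 : W₀)) :=
        hs.comp _ s.equivFin.symm.injective
      have h3 : LinearIndependent ℚ (fun i : Fin s.card => (((s.equivFin.symm i).1 : W₀) : W)) :=
        h2.map' W₀.subtype (Submodule.ker_subtype W₀)
      have h4 := indep _ _ (fun j => (s.equivFin.symm j).1.2) h3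
      have h5 := h4.fintype_card_le_finrank
      rwa [Fintype.card_fin] at h5
    exact Module.rank_lt_aleph0_iff.mp (h1.trans_lt (Cardinal.natCast_lt_aleph0))
  set n := finrank ℚ W₀ with hn
  let b : Basis (Fin n) ℚ W₀ := finBasis ℚ W₀
  have hcast : ∀ (q : ℚ) (w : W), (q : ℂ) • w = q • w := fun q w => Rat.cast_smul_eq_qsmul ℂ q w
  -- a basis of `W`
  have hli : LinearIndependent ℂ (fun j => ((b j : W₀) : W)) :=
    indep _ _ (fun j => (b j).2) (b.linearIndependent.map' W₀.subtype (Submodule.ker_subtype W₀))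
  have hsp : ⊤ ≤ Submodule.span ℂ (Set.range fun j => ((b j : W₀) : W)) := by
    rw [← hspan, Submodule.span_le]
    intro w hw
    have h1 := b.sum_repr ⟨w, hw⟩
    have h2 := congrArg (W₀.subtype) h1
    rw [map_sum] at h2
    simp only [map_smul, Submodule.subtype_apply] at h2
    rw [← h2]
    refine Submodule.sum_mem _ fun j _ => ?_
    rw [← hcast]
    exact Submodule.smul_mem _ _ (Submodule.subset_span ⟨j, rfl⟩)
  let bW : Basis (Fin n) ℂ W := Basis.mk hli hsp
  have hbW : ∀ j, bW j = ((b j : W₀) : W) := fun j => Basis.mk_apply hli hsp j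
  have hrepr : ∀ u : W₀, ∀ j, bW.repr (u : W) j = ((b.repr u j : ℚ) : ℂ) := by
    intro u j
    have h1 : (u : W) = ∑ i, ((b.repr u i : ℚ) : ℂ) • bW i := by
      have h2 := congrArg (W₀.subtype) (b.sum_repr u)
      rw [map_sum] at h2
      simp only [map_smul, Submodule.subtype_apply] at h2
      rw [← h2]
      refine Finset.sum_congr rfl fun i _ => ?_
      rw [hbW, hcast]
    conv_lhs => rw [h1]
    rw [map_sum, Finset.sum_apply']
    simp [Finsupp.single_apply]
  -- the rational representation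
  let ρ₀ : GalQ →* Module.End ℚ W₀ :=
    { toFun := fun γ =>
        { toFun := fun u => ⟨ρ γ u.1, stable γ u.1 u.2⟩
          map_add' := fun u v => Subtype.ext (by
            change ρ γ (u.1 + v.1) = ρ γ u.1 + ρ γ v.1
            exact map_add _ _ _)
          map_smul' := fun q u => Subtype.ext (by
            change ρ γ (q • u.1) = q • ρ γ u.1
            rw [← hcast, map_smul, hcast]) }
      map_one' := by
        ext u
        change ρ 1 u.1 = u.1
        rw [map_one]; rfl
      map_mul' := fun a c => by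
        ext u
        change ρ (a * c) u.1 = ρ a (ρ c u.1)
        rw [map_mul]; rfl }
  have hρ₀ : ∀ γ (u : W₀), ((ρ₀ γ u : W₀) : W) = ρ γ u.1 := fun γ u => rfl
  have htr : ∀ γ, LinearMap.trace ℂ W (ρ γ) = ((LinearMap.trace ℚ W₀ (ρ₀ γ) : ℚ) : ℂ) := by
    intro γ
    rw [LinearMap.trace_eq_matrix_trace ℂ bW, LinearMap.trace_eq_matrix_trace ℚ b, Matrix.trace,
      Matrix.trace]
    push_cast
    refine Finset.sum_congr rfl fun j _ => ?_
    rw [Matrix.diag_apply, Matrix.diag_apply, LinearMap.toMatrix_apply, LinearMap.toMatrix_apply,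
      hbW, ← hρ₀, hrepr]
  -- the number field
  choose! Lf hLf using fun j : Fin n => finite (b j : W₀).1 (b j).2
  have hE : FiniteDimensional ℚ (⨆ j, Lf j : IntermediateField ℚ (AlgebraicClosure ℚ)) := by
    have : ∀ j, FiniteDimensional ℚ (Lf j) := fun j => (hLf j).1
    exact IntermediateField.finiteDimensional_iSup_of_finite
  set E : IntermediateField ℚ (AlgebraicClosure ℚ) := ⨆ j, Lf j with hEdef
  set L : IntermediateField ℚ (AlgebraicClosure ℚ) :=
    IntermediateField.normalClosure ℚ E (AlgebraicClosure ℚ) with hL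
  have hEL : E ≤ L := E.le_normalClosure
  have hnor : Normal ℚ (AlgebraicClosure ℚ) := normal_rat
  have hLfd : FiniteDimensional ℚ L := by
    rw [hL]; infer_instance
  have hLn : Normal ℚ L := by
    rw [hL]; exact normalClosure.normal ℚ E (AlgebraicClosure ℚ)
  have hLg : IsGalois ℚ L := IsGalois.mk
  have htriv : ∀ γ ∈ L.fixingSubgroup, ρ γ = 1 := by
    intro γ hγ
    refine bW.ext fun j => ?_
    rw [hbW]
    refine (hLf j).2 γ ?_
    rw [IntermediateField.mem_fixingSubgroup_iff] at hγ ⊢
    intro x hx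
    exact hγ x (hEL ((le_iSup Lf j) hx))
  let res : GalQ →* Gal(L/ℚ) := AlgEquiv.restrictNormalHom L
  have hs : Function.Surjective res := AlgEquiv.restrictNormalHom_surjective _
  have hfac : ∀ γ γ', res γ = res γ' → ρ γ = ρ γ' := by
    intro γ γ' h
    have h1 : γ'⁻¹ * γ ∈ L.fixingSubgroup := by
      rw [← IntermediateField.restrictNormalHom_ker, MonoidHom.mem_ker, map_mul, map_inv]
      change (res γ')⁻¹ * res γ = 1
      rw [h, inv_mul_cancel]
    have h2 := htriv _ h1
    have h3 : γ = γ' * (γ'⁻¹ * γ) := by group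
    rw [h3, map_mul, h2, mul_one]
  have hfac₀ : ∀ γ γ', res γ = res γ' → ρ₀ γ = ρ₀ γ' := by
    intro γ γ' h
    ext u
    rw [hρ₀, hρ₀, hfac γ γ' h]
  let ρL : Representation ℚ Gal(L/ℚ) W₀ := factor res hs ρ₀ hfac₀
  let ρC : Representation ℂ Gal(L/ℚ) W := factor res hs ρ hfac
  have hρL : ∀ γ, ρL (res γ) = ρ₀ γ := factor_apply res hs ρ₀ hfac₀
  have hρC : ∀ γ, ρC (res γ) = ρ γ := factor_apply res hs ρ hfac
  have hcardne : (Nat.card Gal(L/ℚ)) ≠ 0 := Nat.card_pos.ne'
  let _ : Invertible ((Nat.card Gal(L/ℚ) : ℕ) : ℚ) := invertibleOfNonzero (by exact_mod_cast hcardne)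
  let _ : Invertible ((Nat.card Gal(L/ℚ) : ℕ) : ℂ) := invertibleOfNonzero (by exact_mod_cast hcardne)
  have hmean : mean ρL.character = finrank ℚ (Representation.invariants ρL) := by
    rw [← Representation.card_inv_mul_sum_char_eq_finrank]
    unfold mean
    rw [Nat.card_eq_fintype_card, div_eq_inv_mul]
  have hA : finrank ℚ (Representation.invariants ρL) = finrank ℚ A := by
    refine LinearEquiv.finrank_eq
      { toFun := fun u => ⟨(u.1 : W₀).1, (mem_A _).mpr ⟨u.1.2, fun γ => ?_⟩⟩
        invFun := fun w => ⟨⟨w.1, ((mem_A _).mp w.2).1⟩, ?_⟩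
        left_inv := fun u => rfl
        right_inv := fun w => rfl
        map_add' := fun u v => rfl
        map_smul' := fun q u => rfl }
    · have h1 := (Representation.mem_invariants ρL u.1).mp u.2 (res γ)
      rw [hρL] at h1
      exact congrArg Subtype.val h1
    · rw [Representation.mem_invariants]
      intro g
      obtain ⟨γ, rfl⟩ := hs g
      rw [hρL]
      exact Subtype.ext (((mem_A _).mp w.2).2 γ)
  have hchar : ∀ g, ρC.character g = ((ρL.character g : ℚ) : ℂ) := by
    intro g
    obtain ⟨γ, rfl⟩ := hs g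
    unfold Representation.character
    rw [hρC, hρL, htr]
  have hinv : Representation.invariants ρC = ρ.invariants := by
    ext w
    rw [Representation.mem_invariants, Representation.mem_invariants]
    constructor
    · intro h γ
      have := h (res γ)
      rwa [hρC] at this
    · intro h g
      obtain ⟨γ, rfl⟩ := hs g
      rw [hρC]
      exact h γ
  have hC : (finrank ℂ ρ.invariants : ℂ) = ((mean ρL.character : ℚ) : ℂ) := by
    rw [← hinv, ← Representation.card_inv_mul_sum_char_eq_finrank]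
    unfold mean
    rw [Finset.sum_congr rfl fun g _ => hchar g, Nat.card_eq_fintype_card]
    push_cast
    rw [div_eq_inv_mul]
  have hLnf : NumberField L := nf L hLfd
  refine ⟨L, inferInstance, hLnf, hLg, res, ρL.character, ?_, ?_, ?_, ?_, ?_, ?_, ?_⟩
  · intro p σ hσ
    exact isFrobIn_res L p σ hσ
  · intro g h hgh
    exact char_zpowers ρL g h hgh
  · intro g σ
    have := ρL.char_conj g σ⁻¹
    rwa [inv_inv] at this
  · intro γ
    change _ = (((ρL.character (res γ)) : ℚ) : ℂ)
    unfold Representation.character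
    rw [hρL, htr]
  · rw [hmean, hA]
  · rw [hmean, hA] at hC
    exact_mod_cast hC
  · exact Submodule.finiteDimensional_of_le (S₂ := W₀) fun w hw => ((mem_A w).mp hw).1

end

end Pool.Agent.N184.QP
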