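import Pool.Agent.N184.QP.ArtinC
import Pool.Agent.N184.QP.EigC
import Pool.Agent.N184.QP.Rep

/-!
# Residues of averages of traces of Frobenius
-/

set_option autoImplicit false
set_option linter.unusedSectionVars false

open Filter Topology NumberField IsDedekindDomain Module
open Pool.Agent.H921R2.TatePole

namespace Pool.Agent.N184.QP

lemma log_mul_rpow_le {n : ℕ} (hn : 0 < n) (x : ℝ) {ε : ℝ} (hε : 0 < ε) :
    Real.log n * (n : ℝ) ^ (-x) ≤ ε⁻¹ * (n : ℝ) ^ (-(x - ε)) := by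
  have hn' : (0 : ℝ) < n := by exact_mod_cast hn
  have h := Real.log_le_rpow_div hn'.le hε
  calc Real.log n * (n : ℝ) ^ (-x) ≤ (n : ℝ) ^ ε / ε * (n : ℝ) ^ (-x) :=
        mul_le_mul_of_nonneg_right h (by positivity)
    _ = ε⁻¹ * ((n : ℝ) ^ ε * (n : ℝ) ^ (-x)) := by ring
    _ = _ := by
        rw [← Real.rpow_add hn']
        congr 2
        ring

lemma log_nonneg_nat (n : ℕ) : 0 ≤ Real.log n := Real.log_natCast_nonneg n

/-- the bound of the terms -/
noncomputable def ub (c : Nat.Primes → ℂ) (M : ℝ) (T : Finset Nat.Primes) (p : Nat.Primes) : ℝ :=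
  open Classical in M * 8 * ((p : ℕ) : ℝ) ^ (-(9 / 8 : ℝ)) + if p ∈ T then ‖c p‖ else 0

lemma summable_ub (c : Nat.Primes → ℂ) (M : ℝ) (T : Finset Nat.Primes) :
    Summable (ub c M T) := by
  classical
  refine ((summable_primes_rpow (by norm_num)).mul_left _).add ?_
  refine summable_of_ne_finset_zero (s := T) fun p hp => ?_
  rw [if_neg hp]

lemma norm_le_ub {c : Nat.Primes → ℂ} {M : ℝ} (hM : 0 ≤ M) (T : Finset Nat.Primes)
    (h : ∀ p, p ∉ T → ‖c p‖ ≤ M * ((p : ℕ) : ℝ) ^ (-(1 / 2 : ℝ)) * Real.log (p : ℕ))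
    (p : Nat.Primes) {s : ℂ} (hs : s ∈ HP34) : ‖c p * ((p : ℕ) : ℂ) ^ (-s)‖ ≤ ub c M T p := by
  classical
  unfold ub
  have hs' : (3 / 4 : ℝ) < s.re := hs
  have hp0 : (0 : ℝ) < (p : ℕ) := by exact_mod_cast p.prop.pos
  have hp1 : (1 : ℝ) ≤ (p : ℕ) := by exact_mod_cast p.prop.one_lt.le
  have h0 : 0 ≤ M * 8 * ((p : ℕ) : ℝ) ^ (-(9 / 8 : ℝ)) := by positivity
  rw [norm_mul, norm_prime_cpow]
  by_cases hp : p ∈ T
  · simp only [if_pos hp]
    have h1 : ((p : ℕ) : ℝ) ^ (-s.re) ≤ 1 :=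
      Real.rpow_le_one_of_one_le_of_nonpos hp1 (by linarith)
    have h2 : ‖c p‖ * ((p : ℕ) : ℝ) ^ (-s.re) ≤ ‖c p‖ * 1 :=
      mul_le_mul_of_nonneg_left h1 (norm_nonneg _)
    linarith
  · simp only [if_neg hp, add_zero]
    calc ‖c p‖ * ((p : ℕ) : ℝ) ^ (-s.re)
        ≤ (M * ((p : ℕ) : ℝ) ^ (-(1 / 2 : ℝ)) * Real.log (p : ℕ)) *
            ((p : ℕ) : ℝ) ^ (-(3 / 4 : ℝ)) := by
          refine mul_le_mul (h p hp) (Real.rpow_le_rpow_of_exponent_le hp1 (by linarith))
            (by positivity) ?_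
          have := log_nonneg_nat (p : ℕ)
          positivity
      _ = M * (Real.log (p : ℕ) * ((p : ℕ) : ℝ) ^ (-(5 / 4 : ℝ))) := by
          have : ((p : ℕ) : ℝ) ^ (-(5 / 4 : ℝ)) = ((p : ℕ) : ℝ) ^ (-(1 / 2 : ℝ)) *
              ((p : ℕ) : ℝ) ^ (-(3 / 4 : ℝ)) := by
            rw [← Real.rpow_add hp0]; norm_num
          rw [this]; ring
      _ ≤ M * ((1 / 8)⁻¹ * ((p : ℕ) : ℝ) ^ (-(5 / 4 - 1 / 8 : ℝ))) :=
          mul_le_mul_of_nonneg_left (log_mul_rpow_le p.prop.pos _ (by norm_num)) hM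
      _ = _ := by norm_num; ring

/-- series over the prime numbers with small coefficients -/
lemma AC.primes {c : Nat.Primes → ℂ} {M : ℝ} (hM : 0 ≤ M) (T : Finset Nat.Primes)
    (h : ∀ p, p ∉ T → ‖c p‖ ≤ M * ((p : ℕ) : ℝ) ^ (-(1 / 2 : ℝ)) * Real.log (p : ℕ)) :
    AC (fun z => ∑' p : Nat.Primes, c p * ((p : ℕ) : ℂ) ^ (-z)) :=
  AC.tsum (summable_ub c M T)
    (fun p => ((differentiable_cpow_nat p.prop.pos).const_mul _).differentiableOn)
    (fun p _ hs => norm_le_ub hM T h p hs)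

section
variable {k : Type} [Field k] [NumberField k]

lemma summable_B {B : HeightOneSpectrum (𝓞 k) → ℂ} {C : ℝ} (hC : 0 ≤ C)
    (hB : ∀ v, ‖B v‖ ≤ C * Real.log (nm v)) {z : ℂ} (hz : 1 < z.re) :
    Summable fun v => B v * (nm v : ℂ) ^ (-z) := by
  set ε : ℝ := (z.re - 1) / 2 with hε
  have hε0 : 0 < ε := by rw [hε]; linarith
  refine Summable.of_norm_bounded (((nm_summable (K := k) (x := z.re - ε)
    (by rw [hε]; linarith)).mul_left (C * ε⁻¹))) fun v => ?_
  rw [norm_mul, norm_cpow_neg_nat (nm_pos v)]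
  calc ‖B v‖ * (nm v : ℝ) ^ (-z.re) ≤ C * Real.log (nm v) * (nm v : ℝ) ^ (-z.re) :=
        mul_le_mul_of_nonneg_right (hB v) (by positivity)
    _ = C * (Real.log (nm v) * (nm v : ℝ) ^ (-z.re)) := by ring
    _ ≤ C * (ε⁻¹ * (nm v : ℝ) ^ (-(z.re - ε))) :=
        mul_le_mul_of_nonneg_left (log_mul_rpow_le (nm_pos v) _ hε0) hC
    _ = _ := by ring

lemma deg_one_mul (B : HeightOneSpectrum (𝓞 k) → ℂ) (p : Nat.Primes) (z : ℂ) :
    (∑ v : {v : HeightOneSpectrum (𝓞 k) // below v = p},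
        if deg v.1 = 1 then B v.1 else 0) * ((p : ℕ) : ℂ) ^ (-z) =
      ∑ v : {v : HeightOneSpectrum (𝓞 k) // below v = p},
        (if deg v.1 = 1 then B v.1 * (nm v.1 : ℂ) ^ (-z) else 0) := by
  rw [Finset.sum_mul]
  refine Finset.sum_congr rfl fun v _ => ?_
  split_ifs with hd
  · have h3 := (nm_eq v.1).1
    rw [hd, pow_one, v.2] at h3
    rw [h3]
  · rw [zero_mul]

lemma summable_deg_one {B : HeightOneSpectrum (𝓞 k) → ℂ} {C : ℝ} (hC : 0 ≤ C)
    (hB : ∀ v, ‖B v‖ ≤ C * Real.log (nm v)) {z : ℂ} (hz : 1 < z.re) :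
    Summable fun p : Nat.Primes => (∑ v : {v : HeightOneSpectrum (𝓞 k) // below v = p},
        if deg v.1 = 1 then B v.1 else 0) * ((p : ℕ) : ℂ) ^ (-z) := by
  simp only [deg_one_mul]
  refine summable_fiberC (g := fun v : HeightOneSpectrum (𝓞 k) =>
    if deg v = 1 then B v * (nm v : ℂ) ^ (-z) else 0) ?_
  refine Summable.of_norm_bounded (summable_B hC hB hz).norm fun v => ?_
  split_ifs
  · exact le_rfl
  · rw [norm_zero]; exact norm_nonneg _

/-- series over the primes of `k` -/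
lemma ac_split {B : HeightOneSpectrum (𝓞 k) → ℂ} {C : ℝ} (hC : 0 ≤ C)
    (hB : ∀ v, ‖B v‖ ≤ C * Real.log (nm v)) :
    AC (fun z => (∑' v, B v * (nm v : ℂ) ^ (-z)) -
      ∑' p : Nat.Primes, (∑ v : {v : HeightOneSpectrum (𝓞 k) // below v = p},
        if deg v.1 = 1 then B v.1 else 0) * ((p : ℕ) : ℂ) ^ (-z)) := by
  classical
  have h1 : AC (fun s => ∑' p : Nat.Primes,
      ∑ v : {v : HeightOneSpectrum (𝓞 k) // below v = p},
        (if deg v.1 = 1 then 0 else B v.1 * (nm v.1 : ℂ) ^ (-s))) := by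
    refine AC.tsum (u := fun p : Nat.Primes =>
      (Module.finrank ℚ k : ℝ) * (C * 8 * ((p : ℕ) : ℝ) ^ (-(5 / 4 : ℝ))))
      (((summable_primes_rpow (by norm_num)).mul_left _).mul_left _) (fun p => ?_)
      (fun p s hs => ?_)
    · refine DifferentiableOn.fun_sum fun v _ => ?_
      by_cases hd : deg v.1 = 1
      · simp only [if_pos hd]
        exact differentiableOn_const _
      · simp only [if_neg hd]
        exact ((differentiable_cpow_nat (nm_pos v.1)).const_mul _).differentiableOn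
    · have hs' : (3 / 4 : ℝ) < s.re := hs
      have hp1 : (1 : ℝ) ≤ (p : ℕ) := by exact_mod_cast p.prop.one_lt.le
      calc ‖∑ v : {v : HeightOneSpectrum (𝓞 k) // below v = p},
            (if deg v.1 = 1 then 0 else B v.1 * (nm v.1 : ℂ) ^ (-s))‖
          ≤ ∑ _v : {v : HeightOneSpectrum (𝓞 k) // below v = p},
              (C * 8 * ((p : ℕ) : ℝ) ^ (-(5 / 4 : ℝ))) := by
            refine (norm_sum_le _ _).trans (Finset.sum_le_sum fun v _ => ?_)
            split_ifs with hd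
            · rw [norm_zero]; positivity
            · have hn1 : (1 : ℝ) ≤ nm v.1 := by
                have := nm_pos v.1
                exact_mod_cast this
              rw [norm_mul, norm_cpow_neg_nat (nm_pos v.1)]
              calc ‖B v.1‖ * (nm v.1 : ℝ) ^ (-s.re)
                  ≤ (C * Real.log (nm v.1)) * (nm v.1 : ℝ) ^ (-(3 / 4 : ℝ)) := by
                    refine mul_le_mul (hB v.1)
                      (Real.rpow_le_rpow_of_exponent_le hn1 (by linarith)) (by positivity) ?_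
                    have := log_nonneg_nat (nm v.1)
                    positivity
                _ = C * (Real.log (nm v.1) * (nm v.1 : ℝ) ^ (-(3 / 4 : ℝ))) := by ring
                _ ≤ C * ((1 / 8)⁻¹ * (nm v.1 : ℝ) ^ (-(3 / 4 - 1 / 8 : ℝ))) :=
                    mul_le_mul_of_nonneg_left
                      (log_mul_rpow_le (nm_pos v.1) _ (by norm_num)) hC
                _ = C * 8 * (nm v.1 : ℝ) ^ (-(5 / 8 : ℝ)) := by norm_num; ring
                _ ≤ _ := by
                    refine mul_le_mul_of_nonneg_left ?_ (by positivity)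
                    obtain ⟨h1, h2, _⟩ := nm_eq v.1
                    rw [v.2] at h1
                    rw [h1]
                    push_cast
                    rw [← Real.rpow_natCast, ← Real.rpow_mul (by positivity)]
                    refine Real.rpow_le_rpow_of_exponent_le hp1 ?_
                    have hd2 : (2 : ℝ) ≤ (deg v.1 : ℝ) := by
                      have : 2 ≤ deg v.1 := by omega
                      exact_mod_cast this
                    linarith
        _ = (Fintype.card {v : HeightOneSpectrum (𝓞 k) // below v = p}) *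
              (C * 8 * ((p : ℕ) : ℝ) ^ (-(5 / 4 : ℝ))) := by simp
        _ ≤ _ := by
            refine mul_le_mul_of_nonneg_right ?_ (by positivity)
            exact_mod_cast fiber_card_le p
  refine h1.congr fun s hs => ?_
  have hs1 := summable_deg_one hC hB hs
  simp only [deg_one_mul] at hs1 ⊢
  rw [tsum_fiberC (summable_B hC hB hs), ← Summable.tsum_sub (summable_fiberC (summable_B hC hB hs))
    hs1]
  refine tsum_congr fun p => ?_
  rw [← Finset.sum_sub_distrib]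
  refine Finset.sum_congr rfl fun v _ => ?_
  split_ifs
  · exact sub_self _
  · exact sub_zero _

/-- the primes of norm `p` -/
lemma nm_eq_prime_iff (p : Nat.Primes) (v : HeightOneSpectrum (𝓞 k)) :
    nm v = (p : ℕ) ↔ below v = p ∧ deg v = 1 := by
  obtain ⟨h1, h2, _⟩ := nm_eq v
  constructor
  · intro h
    have h3 : below v = p := by
      refine Subtype.ext ?_
      change (Ideal.absNorm v.asIdeal).minFac = (p : ℕ)
      have h4 : Ideal.absNorm v.asIdeal = (p : ℕ) := h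
      rw [h4]
      exact p.prop.minFac_eq
    refine ⟨h3, ?_⟩
    rw [h, h3] at h1
    have h5 : (p : ℕ) ^ 1 = (p : ℕ) ^ deg v := by rw [pow_one]; exact h1
    exact (Nat.pow_right_injective p.prop.two_le h5).symm
  · rintro ⟨h3, h4⟩
    rw [h1, h3, h4, pow_one]

lemma finsum_nm (p : Nat.Primes) (g : HeightOneSpectrum (𝓞 k) → ℂ) :
    (∑ᶠ (v : HeightOneSpectrum (𝓞 k)) (_ : nm v = (p : ℕ)), g v) =
      ∑ v : {v : HeightOneSpectrum (𝓞 k) // below v = p}, if deg v.1 = 1 then g v.1 else 0 := by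
  classical
  set U : Finset (HeightOneSpectrum (𝓞 k)) :=
    (Finset.univ.filter fun v : {v : HeightOneSpectrum (𝓞 k) // below v = p} => deg v.1 = 1).map
      (Function.Embedding.subtype _) with hU
  have hmem : ∀ v, nm v = (p : ℕ) ↔ v ∈ (U : Set (HeightOneSpectrum (𝓞 k))) := by
    intro v
    rw [nm_eq_prime_iff, hU]
    simp only [Finset.coe_map, Set.mem_image, Finset.mem_coe, Finset.mem_filter,
      Finset.mem_univ, true_and, Function.Embedding.subtype_apply]
    constructor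
    · rintro ⟨h1, h2⟩
      exact ⟨⟨v, h1⟩, h2, rfl⟩
    · rintro ⟨⟨w, h1⟩, h2, rfl⟩
      exact ⟨h1, h2⟩
  have h1 : (∑ᶠ (v : HeightOneSpectrum (𝓞 k)) (_ : nm v = (p : ℕ)), g v) =
      ∑ᶠ (v : HeightOneSpectrum (𝓞 k)) (_ : v ∈ (U : Set (HeightOneSpectrum (𝓞 k)))), g v := by
    refine finsum_congr fun v => ?_
    rw [propext (hmem v)]
  rw [h1, finsum_mem_coe_finset, hU, Finset.sum_map, Finset.sum_filter]
  rfl

/-! ### Residues -/

/-- the residue is determined near `a` -/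
lemma HasRes.congr {F G : ℂ → ℂ} {a : ℝ} {c : ℂ} (hF : HasRes F a c)
    (h : ∀ s : ℂ, a < s.re → G s = F s) : HasRes G a c := by
  obtain ⟨g, hg, hg2⟩ := hF
  refine ⟨g, hg, ?_⟩
  filter_upwards [hg2] with s hs h1
  rw [h s h1, hs h1]

lemma HasRes.add_ac {F A : ℂ → ℂ} {c : ℂ} (hF : HasRes F 1 c) (hA : AC A) :
    HasRes (fun s => F s + A s) 1 c := by
  obtain ⟨f, hf, hf2⟩ := hF
  obtain ⟨g, hg, hg2⟩ := hA
  refine ⟨fun s => f s + g s, hf.fun_add (by simpa using hg), ?_⟩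
  have h1 : ((1 : ℝ) : ℂ) = 1 := by norm_num
  rw [h1] at hf2 ⊢
  filter_upwards [hf2, hg2] with s h1 h2 h
  rw [h1 h, h2 h, add_assoc]

/-- a shift of the variable -/
lemma HasRes.shift {F : ℂ → ℂ} {a b : ℝ} {c : ℂ} (hF : HasRes F a c) :
    HasRes (fun s => F (s - b)) (a + b) c := by
  obtain ⟨g, hg, hg2⟩ := hF
  have hsub : ((a + b : ℝ) : ℂ) - b = a := by push_cast; ring
  have hcont : Tendsto (fun s : ℂ => s - b) (𝓝 ((a + b : ℝ) : ℂ)) (𝓝 (a : ℂ)) := by
    rw [← hsub]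
    exact (continuous_id.sub continuous_const).tendsto _
  refine ⟨fun s => g (s - b), ?_, ?_⟩
  · have h1 : AnalyticAt ℂ (fun s : ℂ => s - b) ((a + b : ℝ) : ℂ) :=
      analyticAt_id.sub analyticAt_const
    exact AnalyticAt.fun_comp (by rw [hsub]; exact hg) h1
  · filter_upwards [hcont.eventually hg2] with s hs h
    have h2 : a < (s - b).re := by
      rw [Complex.sub_re, Complex.ofReal_re]
      linarith
    rw [hs h2]
    congr 2
    push_cast
    ring

/-- **The logarithmic derivative.** -/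
theorem HC.hasRes {a : Nat.Primes → ℂ} {m : ℂ} (h : HC a m) :
    HasRes (fun s => ∑' p : Nat.Primes, a p * (Real.log ((p : ℕ) : ℝ) : ℝ) *
      ((p : ℕ) : ℂ) ^ (-s)) 1 m := by
  obtain ⟨C, hC⟩ := h.bdd
  obtain ⟨g, hg, hg2⟩ := h.ac
  have hC0 : 0 ≤ C := (norm_nonneg _).trans (hC ⟨2, Nat.prime_two⟩)
  have h10 : ((1 : ℝ) : ℂ) = 1 := by norm_num
  refine ⟨fun s => -deriv g s, by rw [h10]; exact hg.deriv.fun_neg, ?_⟩
  rw [h10]
  have hev := hg2.eventually_nhds
  filter_upwards [hev, hg.eventually_analyticAt] with s hs hgs h1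
  -- the derivative of the series
  set σ : ℝ := (1 + s.re) / 2 with hσ
  have hσ1 : 1 < σ := by rw [hσ]; linarith
  have hσ2 : σ < s.re := by rw [hσ]; linarith
  have hopen : IsOpen {z : ℂ | σ < z.re} := isOpen_lt continuous_const Complex.continuous_re
  have hd := Complex.hasSum_deriv_of_summable_norm
    (F := fun (p : Nat.Primes) (s : ℂ) => a p * ((p : ℕ) : ℂ) ^ (-s))
    (u := fun p : Nat.Primes => C * ((p : ℕ) : ℝ) ^ (-σ))
    ((summable_primes_rpow hσ1).mul_left C)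
    (fun p => ((differentiable_cpow_nat p.prop.pos).const_mul _).differentiableOn) hopen
    (fun p z hz => by
      have hz' : σ < z.re := hz
      rw [norm_mul, norm_prime_cpow]
      exact mul_le_mul (hC p) (Real.rpow_le_rpow_of_exponent_le
        (by exact_mod_cast p.prop.one_lt.le) (by linarith)) (by positivity) hC0) hσ2
  have hterm : ∀ p : Nat.Primes, deriv (fun s : ℂ => a p * ((p : ℕ) : ℂ) ^ (-s)) s =
      -(a p * (Real.log ((p : ℕ) : ℝ) : ℝ) * ((p : ℕ) : ℂ) ^ (-s)) := by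
    intro p
    have hp0 : ((p : ℕ) : ℂ) ≠ 0 := by exact_mod_cast p.prop.ne_zero
    have h2 : HasDerivAt (fun s : ℂ => -s) (-1) s := (hasDerivAt_id s).neg
    have h3 := (h2.const_cpow (c := ((p : ℕ) : ℂ)) (Or.inl hp0)).const_mul (a p)
    rw [h3.deriv, ← Complex.natCast_log]
    push_cast
    ring
  simp only [hterm] at hd
  have hslit : s - 1 ∈ Complex.slitPlane := by
    left
    rw [Complex.sub_re, Complex.one_re]
    linarith
  have hlog : HasDerivAt (fun z : ℂ => m * Complex.log (z - 1)) (m * (s - 1)⁻¹) s := by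
    have h2 : HasDerivAt (fun z : ℂ => z - 1) 1 s := (hasDerivAt_id s).sub_const 1
    have h3 := (h2.clog hslit).const_mul m
    rwa [one_div] at h3
  have heq : (fun w => ∑' p : Nat.Primes, a p * ((p : ℕ) : ℂ) ^ (-w)) =ᶠ[𝓝 s]
      fun w => g w - m * Complex.log (w - 1) := by
    have hopen1 : {z : ℂ | 1 < z.re} ∈ 𝓝 s :=
      (isOpen_lt continuous_const Complex.continuous_re).mem_nhds h1
    filter_upwards [hs, hopen1] with w hw hw1
    rw [← hw hw1]
    ring
  have hder := heq.deriv_eq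
  rw [(hgs.differentiableAt.hasDerivAt.fun_sub hlog).deriv] at hder
  have h5 := hd.tsum_eq
  rw [hder, tsum_neg] at h5
  rw [neg_eq_iff_eq_neg] at h5
  rw [h5, div_eq_mul_inv]
  ring

end

section
variable {k : Type} [Field k] [NumberField k] {W : Type} [AddCommGroup W] [Module ℂ W]
  (f : Fibration k W)

/-- the coefficients -/
noncomputable def Fibration.B (v : HeightOneSpectrum (𝓞 k)) : ℂ :=
  open Classical in
  if v ∈ f.R then 0 else f.avg v * ((nm v : ℂ))⁻¹ * (Real.log (nm v) : ℝ)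

/-- the coefficients for `W` -/
noncomputable def Fibration.w (p : Nat.Primes) : ℂ :=
  open Classical in
  if p ∈ f.S then 0 else LinearMap.trace ℂ W (f.ρ (f.frob p)⁻¹)

lemma Fibration.series_eq (s : ℂ) :
    f.series s = ∑' v, f.B v * (nm v : ℂ) ^ (-(s - 1)) := by
  classical
  unfold Fibration.series
  have h := tsum_subtype ({v | v ∉ f.R} : Set (HeightOneSpectrum (𝓞 k)))
    (fun v => f.avg v * (Real.log (nm v) : ℝ) * (nm v : ℂ) ^ (-s))
  refine Eq.trans h (tsum_congr fun v => ?_)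
  unfold Fibration.B
  have hne : (nm v : ℂ) ≠ 0 := by exact_mod_cast nm_ne_zero v
  have h1 : (nm v : ℂ) ^ (-(s - 1)) = (nm v : ℂ) ^ (-s) * (nm v : ℂ) := by
    rw [show -(s - 1) = -s + 1 by ring, Complex.cpow_add _ _ hne, Complex.cpow_one]
  simp only [Set.indicator_apply, Set.mem_ofPred_eq]
  by_cases hv : v ∈ f.R
  · simp [hv]
  · rw [if_pos hv, if_neg hv, h1]
    field_simp

lemma Fibration.seriesW_eq (s : ℂ) :
    f.seriesW s = ∑' p : Nat.Primes, f.w p * (Real.log ((p : ℕ) : ℝ) : ℝ) *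
      ((p : ℕ) : ℂ) ^ (-s) := by
  classical
  unfold Fibration.seriesW
  have h := tsum_subtype ({p | p ∉ f.S} : Set Nat.Primes)
    (fun p => LinearMap.trace ℂ W (f.ρ (f.frob p)⁻¹) * (Real.log ((p : ℕ) : ℝ) : ℝ) *
      ((p : ℕ) : ℂ) ^ (-s))
  refine Eq.trans h (tsum_congr fun p => ?_)
  unfold Fibration.w
  simp only [Set.indicator_apply, Set.mem_ofPred_eq]
  by_cases hp : p ∈ f.S
  · simp [hp]
  · rw [if_pos hp, if_neg hp]

lemma Fibration.norm_B : ∃ C : ℝ, 0 ≤ C ∧ ∀ v, ‖f.B v‖ ≤ C * Real.log (nm v) := by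
  classical
  obtain ⟨C, hC⟩ := f.points
  refine ⟨|C| * |C|, by positivity, fun v => ?_⟩
  unfold Fibration.B
  split_ifs with hv
  · rw [norm_zero]
    have := log_nonneg_nat (nm v)
    positivity
  · obtain ⟨h1, h2⟩ := hC v hv
    have hn0 : (0 : ℝ) < nm v := by exact_mod_cast nm_pos v
    have hl := log_nonneg_nat (nm v)
    have h3 : ‖∑ y ∈ (f.fin v).elems, f.b v y‖ ≤ |C| * (nm v : ℝ) ^ f.m * (|C| * nm v) := by
      refine (norm_sum_le _ _).trans ?_
      refine (Finset.sum_le_sum fun y _ => (h2 y).trans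
        (mul_le_mul_of_nonneg_right (le_abs_self C) hn0.le)).trans ?_
      rw [Finset.sum_const, nsmul_eq_mul]
      refine mul_le_mul_of_nonneg_right ?_ (by positivity)
      have h4 : (((f.fin v).elems.card : ℕ) : ℝ) = (Nat.card (f.Pt v) : ℝ) := by
        let _ := f.fin v
        rw [Nat.card_eq_fintype_card]
        rfl
      rw [h4]
      exact h1.trans (mul_le_mul_of_nonneg_right (le_abs_self C) (by positivity))
    rw [norm_mul, norm_mul, norm_inv, Complex.norm_natCast, Complex.norm_real, Real.norm_eq_abs,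
      abs_of_nonneg hl]
    refine mul_le_mul_of_nonneg_right ?_ hl
    unfold Fibration.avg
    rw [norm_mul, norm_inv, norm_pow, Complex.norm_natCast]
    calc ((nm v : ℝ) ^ f.m)⁻¹ * ‖∑ y ∈ (f.fin v).elems, f.b v y‖ * (nm v : ℝ)⁻¹
        ≤ ((nm v : ℝ) ^ f.m)⁻¹ * (|C| * (nm v : ℝ) ^ f.m * (|C| * nm v)) * (nm v : ℝ)⁻¹ := by
          gcongr
      _ = |C| * |C| := by
          field_simp

/-- **Reduction to `W`.** -/
theorem Fibration.ac_sub : AC (fun z => f.series (z + 1) - f.seriesW z) := by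
  classical
  obtain ⟨C, hC0, hC⟩ := f.norm_B
  obtain ⟨D, hD⟩ := f.trace
  have h1 := ac_split hC0 hC
  -- the comparison of the coefficients
  set e : Nat.Primes → ℂ := fun p => ∑ v : {v : HeightOneSpectrum (𝓞 k) // below v = p},
    if deg v.1 = 1 then f.B v.1 else 0 with he
  have hbd : ∀ p, p ∉ f.S ∪ f.R.image below →
      ‖e p - f.w p * (Real.log ((p : ℕ) : ℝ) : ℝ)‖ ≤
        |D| * ((p : ℕ) : ℝ) ^ (-(1 / 2 : ℝ)) * Real.log (p : ℕ) := by
    intro p hp
    rw [Finset.mem_union, not_or, Finset.mem_image, not_exists] at hp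
    obtain ⟨hpS, hpR⟩ := hp
    have hp0 : (0 : ℝ) < (p : ℕ) := by exact_mod_cast p.prop.pos
    have hpc : ((p : ℕ) : ℂ) ≠ 0 := by exact_mod_cast p.prop.ne_zero
    have hl := log_nonneg_nat (p : ℕ)
    have h3 := hD p hpS
    rw [finsum_nm] at h3
    have h4 : e p = (((p : ℕ) : ℂ) ^ (f.m + 1))⁻¹ *
        (∑ v : {v : HeightOneSpectrum (𝓞 k) // below v = p},
          if deg v.1 = 1 then ∑ y ∈ (f.fin v.1).elems, f.b v.1 y else 0) *
            (Real.log ((p : ℕ) : ℝ) : ℝ) := by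
      rw [he, Finset.mul_sum, Finset.sum_mul]
      refine Finset.sum_congr rfl fun v _ => ?_
      split_ifs with hd
      · have hnm : nm v.1 = (p : ℕ) := (nm_eq_prime_iff p v.1).mpr ⟨v.2, hd⟩
        have hv : v.1 ∉ f.R := fun h => hpR v.1 ⟨h, v.2⟩
        unfold Fibration.B
        rw [if_neg hv]
        unfold Fibration.avg
        rw [hnm, _root_.pow_succ, mul_inv]
        ring
      · ring
    rw [h4]
    unfold Fibration.w
    rw [if_neg hpS, ← sub_mul, norm_mul, Complex.norm_real, Real.norm_eq_abs, abs_of_nonneg hl]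
    refine mul_le_mul_of_nonneg_right ?_ hl
    set u := ∑ v : {v : HeightOneSpectrum (𝓞 k) // below v = p},
          if deg v.1 = 1 then ∑ y ∈ (f.fin v.1).elems, f.b v.1 y else 0 with hu
    set t := LinearMap.trace ℂ W (f.ρ (f.frob p)⁻¹) with ht
    have h5 : (((p : ℕ) : ℂ) ^ (f.m + 1))⁻¹ * u - t =
        (((p : ℕ) : ℂ) ^ (f.m + 1))⁻¹ * (u - ((p : ℕ) : ℂ) ^ (f.m + 1) * t) := by
      rw [mul_sub, inv_mul_cancel_left₀ (pow_ne_zero _ hpc)]
    rw [h5, norm_mul, norm_inv, norm_pow, Complex.norm_natCast]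
    calc (((p : ℕ) : ℝ) ^ (f.m + 1))⁻¹ * ‖u - ((p : ℕ) : ℂ) ^ (f.m + 1) * t‖
        ≤ (((p : ℕ) : ℝ) ^ (f.m + 1))⁻¹ * (|D| * ((p : ℕ) : ℝ) ^ ((f.m : ℝ) + 1 / 2)) := by
          refine mul_le_mul_of_nonneg_left (h3.trans ?_) (by positivity)
          exact mul_le_mul_of_nonneg_right (le_abs_self D) (by positivity)
      _ = |D| * ((p : ℕ) : ℝ) ^ (-(1 / 2 : ℝ)) := by
          rw [← Real.rpow_natCast, ← Real.rpow_neg hp0.le, mul_comm, mul_assoc,
            ← Real.rpow_add hp0]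
          congr 2
          push_cast
          ring
  have h2 := AC.primes (abs_nonneg D) (f.S ∪ f.R.image below) hbd
  refine (h1.add h2).congr fun s hs => ?_
  have hs1 := summable_deg_one hC0 hC hs
  have hs34 : s ∈ HP34 := by
    change (3 / 4 : ℝ) < s.re
    linarith
  have hs2 : Summable fun p : Nat.Primes =>
      (e p - f.w p * (Real.log ((p : ℕ) : ℝ) : ℝ)) * ((p : ℕ) : ℂ) ^ (-s) :=
    Summable.of_norm_bounded (summable_ub _ |D| (f.S ∪ f.R.image below))
      fun p => norm_le_ub (abs_nonneg D) _ hbd p hs34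
  have hs3 : Summable fun p : Nat.Primes =>
      f.w p * (Real.log ((p : ℕ) : ℝ) : ℝ) * ((p : ℕ) : ℂ) ^ (-s) := by
    refine (hs1.sub hs2).congr fun p => ?_
    simp only [he]
    ring
  rw [f.series_eq, f.seriesW_eq, add_sub_cancel_right]
  have h6 : (∑' p : Nat.Primes, (e p - f.w p * (Real.log ((p : ℕ) : ℝ) : ℝ)) *
      ((p : ℕ) : ℂ) ^ (-s)) = (∑' p : Nat.Primes, e p * ((p : ℕ) : ℂ) ^ (-s)) -
      ∑' p : Nat.Primes, f.w p * (Real.log ((p : ℕ) : ℝ) : ℝ) * ((p : ℕ) : ℂ) ^ (-s) := by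
    rw [← Summable.tsum_sub hs1 hs3]
    refine tsum_congr fun p => ?_
    ring
  rw [h6]
  ring

/-- the series converges for `Re s > 2` -/
lemma Fibration.summable_series {s : ℂ} (hs : 2 < s.re) :
    Summable fun v : {v : HeightOneSpectrum (𝓞 k) // v ∉ f.R} =>
      f.avg v.1 * (Real.log (nm v.1) : ℝ) * (nm v.1 : ℂ) ^ (-s) := by
  classical
  obtain ⟨C, hC0, hC⟩ := f.norm_B
  have h1 := summable_B hC0 hC (z := s - 1) (by
    rw [Complex.sub_re, Complex.one_re]; linarith)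
  refine (h1.subtype {v | v ∉ f.R}).congr fun v => ?_
  obtain ⟨v, hv⟩ := v
  have hv' : v ∉ f.R := hv
  simp only [Function.comp_apply]
  unfold Fibration.B
  rw [if_neg hv']
  have hne : (nm v : ℂ) ≠ 0 := by exact_mod_cast nm_ne_zero v
  have h1 : (nm v : ℂ) ^ (-(s - 1)) = (nm v : ℂ) ^ (-s) * (nm v : ℂ) := by
    rw [show -(s - 1) = -s + 1 by ring, Complex.cpow_add _ _ hne, Complex.cpow_one]
  rw [h1]
  field_simp

theorem Fibration.hasRes_iff (c : ℂ) : HasRes f.series 2 c ↔ HasRes f.seriesW 1 c := by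
  constructor
  · intro h
    have h1 := h.shift (b := -1)
    rw [show (2 : ℝ) + -1 = 1 by norm_num] at h1
    refine (h1.add_ac f.ac_sub.neg).congr fun s _ => ?_
    push_cast
    rw [sub_neg_eq_add]
    ring
  · intro h
    have h1 := h.add_ac f.ac_sub
    have h2 := h1.shift (b := 1)
    rw [show (1 : ℝ) + 1 = 2 by norm_num] at h2
    refine h2.congr fun s _ => ?_
    push_cast
    rw [sub_add_cancel]
    ring

section
variable [FiniteDimensional ℂ W]

/-- the geometric Frobenius endomorphism of `W` -/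
noncomputable def Fibration.Fr (p : Nat.Primes) : Module.End ℂ W := f.ρ (f.frob p)⁻¹

lemma Fibration.bdW (p : Nat.Primes) (hp : p ∉ f.S) : Bd (f.Fr p) := fun μ h => (f.pureW p hp μ h).le

lemma Fibration.w_eq (p : Nat.Primes) : f.w p = wt f.S f.Fr p := rfl

lemma Fibration.hasProd_L {s : ℂ} (hs : 1 < s.re) :
    HasProd (fun p : {p : Nat.Primes // p ∉ f.S} =>
      (LinearMap.det (1 - (((p.1 : ℕ) : ℂ) ^ (-s)) • f.ρ (f.frob p.1)⁻¹))⁻¹)
      (Complex.exp (logLC f.S f.Fr s)) :=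
  hasProd_LC f.bdW hs

lemma Fibration.L_eq {s : ℂ} (hs : 1 < s.re) : f.L s = Complex.exp (logLC f.S f.Fr s) :=
  (f.hasProd_L hs).tprod_eq

/-- the pole of the `L`-function of `W` -/
theorem Fibration.hasPole_iff (r : ℕ) : HasPole f.L 1 r ↔ HasRes f.seriesW 1 r := by
  have h0 : HasPole f.L 1 r ↔ HasPole (fun s => Complex.exp (logLC f.S f.Fr s)) 1 r :=
    ⟨fun h => h.congr fun s hs => (f.L_eq hs).symm, fun h => h.congr fun s hs => f.L_eq hs⟩
  rw [h0, hasPole_logLC_iff f.bdW]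
  have h1 : (fun s : ℂ => ∑' p : Nat.Primes, wt f.S f.Fr p * (Real.log ((p : ℕ) : ℝ) : ℝ) *
      ((p : ℕ) : ℂ) ^ (-s)) = f.seriesW := by
    funext s
    rw [f.seriesW_eq]
    rfl
  rw [h1]

end

/-- **Algebraic fixed part.** -/
theorem CycleSpace.hasRes [Module ℚ W] [FiniteDimensional ℂ W] {f : Fibration k W}
    (C : CycleSpace f.ρ) (hspan : Submodule.span ℂ (C.W₀ : Set W) = ⊤) :
    FiniteDimensional ℚ C.A ∧ finrank ℚ C.A = finrank ℂ f.ρ.invariants ∧
      HasRes f.series 2 (finrank ℚ C.A) := by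
  classical
  obtain ⟨L, _, _, _, res, g, hfrob, hg, hgc, htr, hmean, hdim, hfin⟩ :=
    rep_data f.ρ C.W₀ C.A C.stable C.finite C.indep C.mem_A hspan
  refine ⟨hfin, hdim.symm, ?_⟩
  rw [f.hasRes_iff]
  have hl := hc_class (fun p => res (f.frob p)) f.S (fun p hp => hfrob p _ (f.isFrob p hp)) g hg hgc
  rw [hmean] at hl
  have hl2 : HC f.w ((finrank ℚ C.A : ℚ) : ℂ) := by
    refine hl.congr f.S fun p hp => ?_
    unfold Fibration.w
    rw [if_neg hp, htr, map_inv,
      hg (res (f.frob p))⁻¹ (res (f.frob p)) Subgroup.zpowers_inv]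
  have h3 := hl2.hasRes
  rw [show (((finrank ℚ C.A : ℕ) : ℚ) : ℂ) = ((finrank ℚ C.A : ℕ) : ℂ) by push_cast; rfl] at h3
  exact h3.congr fun s _ => f.seriesW_eq s

/-- bounded coefficients -/
lemma summable_log_bdd {a : Nat.Primes → ℂ} {C : ℝ} (hC : ∀ p, ‖a p‖ ≤ C) {s : ℂ}
    (hs : 1 < s.re) : Summable fun p : Nat.Primes =>
      a p * (Real.log ((p : ℕ) : ℝ) : ℝ) * ((p : ℕ) : ℂ) ^ (-s) := by
  have hC0 : 0 ≤ C := (norm_nonneg _).trans (hC ⟨2, Nat.prime_two⟩)
  set ε : ℝ := (s.re - 1) / 2 with hε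
  have hε0 : 0 < ε := by rw [hε]; linarith
  have h0 : Summable fun p : Nat.Primes => ((p : ℕ) : ℝ) ^ (-(s.re - ε)) :=
    summable_primes_rpow (by rw [hε]; linarith)
  refine Summable.of_norm_bounded (h0.mul_left (C * ε⁻¹)) fun p => ?_
  have hl := log_nonneg_nat (p : ℕ)
  rw [norm_mul, norm_mul, norm_prime_cpow, Complex.norm_real, Real.norm_eq_abs, abs_of_nonneg hl]
  calc ‖a p‖ * Real.log (p : ℕ) * ((p : ℕ) : ℝ) ^ (-s.re)
      = ‖a p‖ * (Real.log (p : ℕ) * ((p : ℕ) : ℝ) ^ (-s.re)) := by ring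
    _ ≤ C * (ε⁻¹ * ((p : ℕ) : ℝ) ^ (-(s.re - ε))) := by
        refine mul_le_mul (hC p) (log_mul_rpow_le p.prop.pos _ hε0) ?_ hC0
        positivity
    _ = _ := by ring

/-- **The residue depends only on the traces of Frobenius on `W`.** -/
theorem Fibration.hasRes_congr [FiniteDimensional ℂ W] {k' : Type} [Field k'] [NumberField k']
    {W' : Type} [AddCommGroup W'] [Module ℂ W'] [FiniteDimensional ℂ W'] (f' : Fibration k' W')
    (T : Finset Nat.Primes) (h : ∀ p, p ∉ T → p ∉ f.S → p ∉ f'.S →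
      LinearMap.trace ℂ W (f.ρ (f.frob p)⁻¹) = LinearMap.trace ℂ W' (f'.ρ (f'.frob p)⁻¹)) (c : ℂ)
    (hc : HasRes f.series 2 c) : HasRes f'.series 2 c := by
  classical
  rw [Fibration.hasRes_iff] at hc ⊢
  have h1 : AC (fun s => ∑' p : Nat.Primes,
      ((f'.w p - f.w p) * (Real.log ((p : ℕ) : ℝ) : ℝ)) * ((p : ℕ) : ℂ) ^ (-s)) := by
    refine AC.primes (M := 0) le_rfl (T ∪ f.S ∪ f'.S) fun p hp => ?_
    simp only [Finset.mem_union, not_or] at hp
    obtain ⟨⟨hT, hS⟩, hS'⟩ := hp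
    unfold Fibration.w
    rw [if_neg hS, if_neg hS', h p hT hS hS', sub_self]
    simp
  refine (hc.add_ac h1).congr fun s hs => ?_
  have hb : ∀ p, ‖f.w p‖ ≤ finrank ℂ W := fun p => norm_wt_le f.bdW p
  have hb' : ∀ p, ‖f'.w p‖ ≤ finrank ℂ W' := fun p => norm_wt_le f'.bdW p
  rw [f.seriesW_eq, f'.seriesW_eq, ← (summable_log_bdd hb hs).tsum_add]
  · refine tsum_congr fun p => ?_
    ring
  · refine ((summable_log_bdd hb' hs).sub (summable_log_bdd hb hs)).congr fun p => ?_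
    ring

/-- no classes of type `(a, -a)`, `a > 0` -/
theorem HodgeSpace.span_eq_top [Module ℚ W] {ρ : Representation ℂ GalQ W} {C : CycleSpace ρ}
    (D : HodgeSpace C) (hD : ∀ a, 0 < a → D.h a = ⊥) :
    Submodule.span ℂ (C.W₀ : Set W) = ⊤ := by
  have h1 : ∀ a : ℤ, a ≠ 0 → D.h a = ⊥ := by
    intro a ha
    rcases lt_or_gt_of_ne ha with h | h
    · rw [eq_bot_iff]
      intro w hw
      have h2 := D.conj_h a w hw
      rw [hD (-a) (by omega), Submodule.mem_bot] at h2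
      rw [Submodule.mem_bot]
      exact D.conj_injective (by rw [h2, map_zero])
    · exact hD a h
  have h2 : D.h 0 = ⊤ := by
    rw [eq_top_iff, ← D.sum]
    refine iSup_le fun a => ?_
    by_cases ha : a = 0
    · rw [ha]
    · rw [h1 a ha]; exact bot_le
  rw [eq_top_iff, ← D.span]
  refine Submodule.span_mono fun w hw => ?_
  exact D.algebraic w hw (by rw [h2]; exact Submodule.mem_top)

end

end Pool.Agent.N184.QP
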