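import Pool.Agent.N184.QP.Zc

/-!
# Analytic continuation of sums of rational class functions of Frobenius elements near `1`
-/

set_option autoImplicit false

open Filter Topology NumberField
open Pool.Agent.H921R2.TatePole Pool.Agent.W401.Cheb

namespace Pool.Agent.N184.QP

/-- the function `a` on the prime numbers is bounded and `∑ a(p) p^{-s} + m log (s - 1)` has an
analytic continuation to a neighbourhood of `1` -/
structure HC (a : Nat.Primes → ℂ) (m : ℂ) : Prop where
  bdd : ∃ C : ℝ, ∀ p, ‖a p‖ ≤ C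
  ac : AC (fun s => (∑' p : Nat.Primes, a p * ((p : ℕ) : ℂ) ^ (-s)) + m * Complex.log (s - 1))

lemma HC.summable {a : Nat.Primes → ℂ} {m : ℂ} (h : HC a m) {s : ℂ} (hs : 1 < s.re) :
    Summable fun p : Nat.Primes => a p * ((p : ℕ) : ℂ) ^ (-s) := by
  obtain ⟨C, hC⟩ := h.bdd
  exact summable_bdd hC hs

lemma HC.zero : HC (fun _ => 0) 0 := by
  refine ⟨⟨0, fun p => by simp⟩, ?_⟩
  refine (AC.of_analyticAt (F := fun _ => 0) analyticAt_const).congr fun s _ => ?_
  simp

lemma HC.add {a b : Nat.Primes → ℂ} {m n : ℂ} (ha : HC a m) (hb : HC b n) :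
    HC (fun p => a p + b p) (m + n) := by
  obtain ⟨C, hC⟩ := ha.bdd
  obtain ⟨D, hD⟩ := hb.bdd
  refine ⟨⟨C + D, fun p => (norm_add_le _ _).trans (add_le_add (hC p) (hD p))⟩, ?_⟩
  refine (ha.ac.add hb.ac).congr fun s hs => ?_
  have h1 : (fun p : Nat.Primes => (a p + b p) * ((p : ℕ) : ℂ) ^ (-s)) =
      fun p : Nat.Primes => a p * ((p : ℕ) : ℂ) ^ (-s) + b p * ((p : ℕ) : ℂ) ^ (-s) := by
    funext p; ring
  rw [h1, (ha.summable hs).tsum_add (hb.summable hs)]
  ring

lemma HC.smul {a : Nat.Primes → ℂ} {m : ℂ} (ha : HC a m) (r : ℂ) :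
    HC (fun p => r * a p) (r * m) := by
  obtain ⟨C, hC⟩ := ha.bdd
  refine ⟨⟨‖r‖ * C, fun p => ?_⟩, ?_⟩
  · rw [norm_mul]
    exact mul_le_mul_of_nonneg_left (hC p) (norm_nonneg r)
  · refine (ha.ac.const_mul r).congr fun s _ => ?_
    have h1 : (fun p : Nat.Primes => r * a p * ((p : ℕ) : ℂ) ^ (-s)) =
        fun p : Nat.Primes => r * (a p * ((p : ℕ) : ℂ) ^ (-s)) := by
      funext p; ring
    rw [h1, tsum_mul_left]
    ring

/-- finitely many values may be changed -/
lemma HC.congr {a b : Nat.Primes → ℂ} {m : ℂ} (ha : HC a m) (S : Finset Nat.Primes)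
    (h : ∀ p, p ∉ S → b p = a p) : HC b m := by
  classical
  have h0 : HC (fun p => b p - a p) 0 := by
    refine ⟨⟨∑ p ∈ S, ‖b p - a p‖, fun p => ?_⟩, ?_⟩
    · by_cases hp : p ∈ S
      · exact Finset.single_le_sum (f := fun p => ‖b p - a p‖) (fun q _ => norm_nonneg _) hp
      · rw [h p hp, sub_self, norm_zero]
        exact Finset.sum_nonneg fun q _ => norm_nonneg _
    · have h1 : DifferentiableOn ℂ (fun s : ℂ => ∑ p ∈ S, (b p - a p) * ((p : ℕ) : ℂ) ^ (-s)) HP34 := by
        refine DifferentiableOn.fun_sum fun p _ => ?_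
        exact ((differentiable_cpow_nat p.prop.pos).const_mul _).differentiableOn
      refine (AC.of_differentiableOn h1).congr fun s _ => ?_
      rw [zero_mul, add_zero, tsum_eq_sum (s := S)]
      intro p hp
      rw [h p hp, sub_self, zero_mul]
  have h2 := ha.add h0
  rw [add_zero] at h2
  convert h2 using 2
  ring

section
variable {L : Type} [Field L] [NumberField L] [IsGalois ℚ L]

/-- permutation characters -/
lemma hc_perm (τ : Nat.Primes → Gal(L/ℚ)) (S : Finset Nat.Primes)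
    (hτ : ∀ p, p ∉ S → IsFrobIn p (τ p)) (H : Subgroup Gal(L/ℚ)) :
    HC (fun p => ((perm H (τ p) : ℚ) : ℂ)) 1 := by
  classical
  obtain ⟨D, hD, htor⟩ := W54.ChTor.main L
  set E := IntermediateField.fixedField H with hE
  have h1 : HC (fun p : Nat.Primes => (hc (𝓞 E) p : ℂ)) 1 := by
    refine ⟨⟨Module.finrank ℚ E, hc_le⟩, ?_⟩
    refine (ac_degree_one E).congr fun s _ => ?_
    rw [one_mul]
  have hfin : {p : Nat.Primes | (p : ℕ) ∣ D}.Finite := by
    refine Set.Finite.of_injOn (f := fun p : Nat.Primes => (p : ℕ)) (t := (D.divisors : Set ℕ))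
      (fun p hp => ?_) (fun p _ q _ hpq => Subtype.ext hpq) (Finset.finite_toSet _)
    exact Finset.mem_coe.mpr (Nat.mem_divisors.mpr ⟨hp, hD.ne'⟩)
  refine h1.congr (S ∪ hfin.toFinset) fun p hp => ?_
  rw [Finset.mem_union, not_or, Set.Finite.mem_toFinset] at hp
  obtain ⟨hpS, hpD⟩ := hp
  have hpD' : ¬ (p : ℕ) ∣ D := hpD
  have : Fact (p : ℕ).Prime := ⟨p.prop⟩
  obtain ⟨φ, hφ⟩ := hτ p hpS
  have h2 := card_fixed (htor (p : ℕ) hpD') hφ H
  unfold perm
  rw [← h2]
  have h3 : ((Nat.card H : ℕ) : ℚ) ≠ 0 := by exact_mod_cast Nat.card_pos.ne'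
  push_cast
  rw [mul_div_cancel_left₀ _ (by exact_mod_cast h3)]
  rfl

/-- **Rational class functions.** -/
theorem hc_class [Fintype Gal(L/ℚ)] (τ : Nat.Primes → Gal(L/ℚ)) (S : Finset Nat.Primes)
    (hτ : ∀ p, p ∉ S → IsFrobIn p (τ p)) (f : Gal(L/ℚ) → ℚ)
    (hf : ∀ g h, Subgroup.zpowers g = Subgroup.zpowers h → f g = f h)
    (hc : ∀ g σ, f (σ⁻¹ * g * σ) = f g) :
    HC (fun p => ((f (τ p) : ℚ) : ℂ)) ((mean f : ℚ) : ℂ) := by
  classical
  have h := exists_coeff f hf hc
  clear hf hc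
  induction h using Submodule.span_induction with
  | mem f hf =>
    obtain ⟨H, rfl⟩ := hf
    have h1 : mean (perm H) = 1 := by
      unfold mean
      have h2 := sum_perm H
      rw [Nat.card_eq_fintype_card] at h2
      rw [h2, div_self]
      exact_mod_cast Fintype.card_ne_zero
    rw [h1]
    simpa using hc_perm τ S hτ H
  | zero =>
    have h1 : mean (0 : Gal(L/ℚ) → ℚ) = 0 := by unfold mean; simp
    rw [h1]
    simpa using HC.zero
  | add f g _ _ hf hg =>
    have h1 : mean (f + g) = mean f + mean g := by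
      unfold mean
      simp only [Pi.add_apply]
      rw [Finset.sum_add_distrib, add_div]
    rw [h1]
    have := hf.add hg
    simpa using this
  | smul r f _ hf =>
    have h1 : mean (r • f) = r * mean f := by
      unfold mean
      simp only [Pi.smul_apply, smul_eq_mul]
      rw [← Finset.mul_sum, mul_div_assoc]
    rw [h1]
    have := hf.smul (r : ℂ)
    simpa using this

end

end Pool.Agent.N184.QP
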