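import Pool.Agent.N184.QP.Pts

/-!
# Varieties over finitely generated fields of characteristic zero: definitions

Let `k` be a finitely generated field of characteristic `0`, `V` a smooth projective variety over `k`
and `f : X → Y` a smooth projective morphism with generic fibre `V`, where `Y` is a regular
irreducible scheme of finite type over `ℤ`, of dimension `e + 1`, with function field `k`.
We fix an isomorphism of an algebraic closure of `ℚ_l` with `ℂ`.
-/

set_option autoImplicit false

open NumberField Module Filter Topology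

namespace Pool.Agent.N184.QP

/-- The absolute Galois group of `ℚ`. -/
abbrev GalQ : Type := Gal(AlgebraicClosure ℚ/ℚ)

/-- `σ` is a Frobenius element at `p`: it induces the `p`-th power map on the residue field of some
prime ideal above `p` of the ring of algebraic integers. -/
def IsFrob (p : Nat.Primes) (σ : GalQ) : Prop :=
  haveI : Fact (p : ℕ).Prime := ⟨p.prop⟩
  ∃ φ : 𝓞 (AlgebraicClosure ℚ) →+* AlgebraicClosure (ZMod (p : ℕ)), ∀ x, φ (σ • x) = φ x ^ (p : ℕ)

/-- `traceSum Y F p m` is the sum over the points `x` of `Y` with values in the field with `p ^ m`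
elements of the traces of the geometric Frobenius elements at `x`: over a closed point `y` of residue
characteristic `p` and degree `d` dividing `m` there are `d` such points, with Frobenius
`F y ^ (m / d)`. -/
noncomputable def traceSum {e : ℕ} {P : Type} (Y : Pts e P) {H : Type} [AddCommGroup H] [Module ℂ H]
    (F : P → Module.End ℂ H) (p : Nat.Primes) (m : ℕ) : ℂ :=
  ∑' y : {y // Y.ch y = p ∧ Y.deg y ∣ m},
    (Y.deg y.1 : ℂ) * LinearMap.trace ℂ H (F y.1 ^ (m / Y.deg y.1))

/-- The cohomology of a smooth projective variety `V` over a finitely generated field `k` of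
characteristic `0`, in degree `2 i`. Here `Y` is the scheme of finite type over `ℤ`, of dimension
`e + 1`, with the set `P` of closed points, and

* `H` is the group `H^{2 i}(V̄)(i)`, with coefficients `ℂ`, and `F y` is the geometric Frobenius
  endomorphism at the closed point `y` (any endomorphism of `H` with the characteristic polynomial
  `P_{y, 2 i}(N(y)^{-i} t)` if the residue characteristic of `y` is `l`). Its eigenvalues have
  absolute value `1` (Deligne);
* `W` is the group `H^0(Y ⊗ ℚ̄, R^{2 i} f_* ℚ_l (i))`, with coefficients `ℂ`, with the action `ρ` of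
  the absolute Galois group of `ℚ`. So the invariants of `ρ` are the invariants of `π₁(Y)` in `H`.
  If `k` is regular over `ℚ`, then `W` consists of the invariants of the geometric fundamental
  group of `Y` in `H`. It is unramified outside the finite set `S`, and the eigenvalues of
  Frobenius elements have absolute value `1` (Deligne);
* `trace` is the trace formula of Grothendieck for the sheaf `R^{2 i} f_* ℚ_l (i)` on the fibre of
  `Y` over `p`, for `p` outside the finite set `S`: the cohomology group with compact supports in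
  degree `2 e` is `W (-e)`, and the other ones have weights at most `2 e - 1` (Deligne), and bounded
  dimensions. -/
structure Model (e : ℕ) (P H W : Type) [AddCommGroup H] [Module ℂ H] [AddCommGroup W]
    [Module ℂ W] where
  Y : Pts e P
  F : P → Module.End ℂ H
  pure : ∀ y μ, (F y).HasEigenvalue μ → ‖μ‖ = 1
  ρ : Representation ℂ GalQ W
  S : Finset Nat.Primes
  frob : Nat.Primes → GalQ
  isFrob : ∀ p, p ∉ S → IsFrob p (frob p)
  pureW : ∀ p, p ∉ S → ∀ μ : ℂ, Module.End.HasEigenvalue (ρ (frob p)⁻¹) μ → ‖μ‖ = 1
  trace : ∃ B : ℝ, ∀ p, p ∉ S → ∀ m : ℕ, 0 < m →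
    ‖traceSum Y F p m - (((p : ℕ) : ℂ) ^ e) ^ m * LinearMap.trace ℂ W (ρ (frob p)⁻¹ ^ m)‖ ≤
      B * (((p : ℕ) : ℝ) ^ ((e : ℝ) - 1 / 2)) ^ m

/-- Algebraic cycles: `W₀` is the rational vector space of the sections in `W` that are classes of
algebraic cycles on the geometric generic fibre(s), and `A` is the space spanned by `A^i(V)`. The
space `W₀` is stable under the Galois group, each element is fixed by the Galois group of some number
field, and linearly independent classes remain linearly independent over `ℂ` (comparison with
singular cohomology). The space `A` is the space of Galois invariants of `W₀` (by transfer). -/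
structure Cycles {e : ℕ} {P H W : Type} [AddCommGroup H] [Module ℂ H] [AddCommGroup W]
    [Module ℂ W] [Module ℚ W] (M : Model e P H W) where
  W₀ : Submodule ℚ W
  stable : ∀ (γ : GalQ) (w : W), w ∈ W₀ → M.ρ γ w ∈ W₀
  finite : ∀ w ∈ W₀, ∃ L : IntermediateField ℚ (AlgebraicClosure ℚ), FiniteDimensional ℚ L ∧
    ∀ γ ∈ L.fixingSubgroup, M.ρ γ w = w
  indep : ∀ (n : ℕ) (w : Fin n → W), (∀ j, w j ∈ W₀) → LinearIndependent ℚ w →
    LinearIndependent ℂ w
  A : Submodule ℚ W
  mem_A : ∀ w, w ∈ A ↔ w ∈ W₀ ∧ ∀ γ, M.ρ γ w = w

/-- The Hodge structure on `W`, the cohomology group `H^0(Y(ℂ), R^{2 i} f_* ℂ (i))` (Deligne): `WQ` is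
the rational structure and `h a` is the part of type `(a, -a)`, that is of type `(i + a, i - a)`
before the twist. The last condition says that the Hodge classes in `WQ` are classes of algebraic
cycles. This is the theorem of Lefschetz if `i = 1`. -/
structure Hodge {e : ℕ} {P H W : Type} [AddCommGroup H] [Module ℂ H] [AddCommGroup W]
    [Module ℂ W] [Module ℚ W] {M : Model e P H W} (C : Cycles M) where
  WQ : Submodule ℚ W
  span : Submodule.span ℂ (WQ : Set W) = ⊤
  h : ℤ → Submodule ℂ W
  sum : ⨆ a, h a = ⊤
  conj : W →ₛₗ[starRingEnd ℂ] W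
  conj_injective : Function.Injective conj
  conj_h : ∀ a, ∀ w ∈ h a, conj w ∈ h (-a)
  algebraic : ∀ w ∈ WQ, w ∈ h 0 → w ∈ C.W₀

/-- `(s - d) ^ r Φ(s)` tends to a finite nonzero limit as `s → d` from the right. -/
def IsPole (Φ : ℝ → ℂ) (d : ℝ) (r : ℕ) : Prop :=
  ∃ c : ℂ, c ≠ 0 ∧ Tendsto (fun s : ℝ => ((s : ℂ) - d) ^ r * Φ s) (𝓝[>] d) (𝓝 c)

end Pool.Agent.N184.QP
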