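import Pool.Agent.N184.QP.Defs
import Pool.Agent.N184.QP.Eig

/-!
# Euler products over closed points: reduction to the top cohomology with compact supports
-/

set_option autoImplicit false
set_option linter.unusedSectionVars false

open Filter Topology Module
open Pool.Agent.H921R2.TatePole

namespace Pool.Agent.N184.QP

section
variable {e : ℕ} {P : Type} (Y : Pts e P)
  {H : Type} [AddCommGroup H] [Module ℂ H] [FiniteDimensional ℂ H] (F : P → Module.End ℂ H)

/-- the number `N(y)^{-(e+x)}` -/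
noncomputable def Pts.t (x : ℝ) (y : P) : ℂ := (((Y.N y : ℝ) ^ (-(e + x)) : ℝ) : ℂ)

lemma Pts.norm_t (x : ℝ) (y : P) : ‖Y.t x y‖ = (Y.N y : ℝ) ^ (-(e + x)) := by
  unfold Pts.t
  rw [Complex.norm_real, Real.norm_eq_abs, abs_of_nonneg (by positivity)]

/-- the logarithm of the part over `p` -/
noncomputable def Lp (p : Nat.Primes) (x : ℝ) : ℂ :=
  ∑' y : {y // Y.ch y = p}, logdet (F y.1) (Y.t x y.1)

variable {F} (hF : ∀ y, Bd (F y))
include hF

lemma summable_log {x : ℝ} (hx : 1 < x) : Summable fun y => logdet (F y) (Y.t x y) := by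
  refine Summable.of_norm_bounded ((Y.summable hx).mul_left (2 * (finrank ℂ H : ℝ))) fun y => ?_
  have h := norm_logdet_le (hF y) (t := Y.t x y) (by
    rw [Y.norm_t]; exact Y.rpow_le_half y hx.le)
  rwa [Y.norm_t] at h

lemma summable_log_one (p : Nat.Primes) {x : ℝ} (hx : 1 ≤ x) :
    Summable fun y : {y // Y.ch y = p} => logdet (F y.1) (Y.t x y.1) := by
  refine Summable.of_norm_bounded ((Y.summable_one p hx).mul_left (2 * (finrank ℂ H : ℝ)))
    fun y => ?_
  have h := norm_logdet_le (hF y.1) (t := Y.t x y.1) (by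
    rw [Y.norm_t]; exact Y.rpow_le_half y.1 hx)
  rwa [Y.norm_t] at h

/-- the Euler product -/
lemma hasProd_euler {x : ℝ} (hx : 1 < x) :
    HasProd (fun y => (LinearMap.det (1 - Y.t x y • F y))⁻¹)
      (Complex.exp (∑' y, logdet (F y) (Y.t x y))) := by
  have h := (summable_log Y hF hx).hasSum.cexp
  have h2 : (fun y => (LinearMap.det (1 - Y.t x y • F y))⁻¹) =
      Complex.exp ∘ fun y => logdet (F y) (Y.t x y) := by
    funext y
    rw [Function.comp_apply, exp_logdet (hF y)]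
    rw [Y.norm_t]
    exact (Y.rpow_le_half y hx.le).trans_lt (by norm_num)
  rw [h2]
  exact h

/-- the parts over the prime numbers -/
lemma hasSum_Lp {x : ℝ} (hx : 1 < x) :
    HasSum (fun p => Lp Y F p x) (∑' y, logdet (F y) (Y.t x y)) :=
  ((summable_log Y hF hx).hasSum).tsum_fiberwise Y.ch

lemma norm_Lp_le {C : ℝ} (hC : ∀ (p : Nat.Primes) (d : ℕ),
    (Nat.card {y // Y.ch y = p ∧ Y.deg y = d} : ℝ) ≤ C * ((p : ℕ) : ℝ) ^ (d * e))
    (p : Nat.Primes) {x : ℝ} (hx : 1 ≤ x) :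
    ‖Lp Y F p x‖ ≤ 4 * C * finrank ℂ H * ((p : ℕ) : ℝ) ^ (-x) := by
  have h1 : ‖Lp Y F p x‖ ≤ ∑' y : {y // Y.ch y = p},
      2 * (finrank ℂ H : ℝ) * (Y.N y.1 : ℝ) ^ (-(e + x)) := by
    refine tsum_of_norm_bounded (((Y.summable_one p hx).mul_left _).hasSum) fun y => ?_
    have h := norm_logdet_le (hF y.1) (t := Y.t x y.1) (by
      rw [Y.norm_t]; exact Y.rpow_le_half y.1 hx)
    rwa [Y.norm_t] at h
  refine h1.trans ?_
  rw [tsum_mul_left]
  have h2 := Y.tsum_one_le hC p hx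
  have h3 : (0 : ℝ) ≤ 2 * (finrank ℂ H : ℝ) := by positivity
  calc _ ≤ 2 * (finrank ℂ H : ℝ) * (2 * C * ((p : ℕ) : ℝ) ^ (-x)) :=
        mul_le_mul_of_nonneg_left h2 h3
    _ = _ := by ring

lemma tendsto_t (y : P) : Tendsto (fun x : ℝ => Y.t x y) (𝓝[>] 1) (𝓝 (Y.t 1 y)) := by
  unfold Pts.t
  refine (Complex.continuous_ofReal.tendsto _).comp ?_
  have h : Continuous fun x : ℝ => (Y.N y : ℝ) ^ (-(e + x)) :=
    Continuous.rpow continuous_const (by fun_prop) (fun x => Or.inl (Y.N_pos y).ne')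
  exact (h.tendsto 1).mono_left nhdsWithin_le_nhds

lemma tendsto_Lp (p : Nat.Primes) : Tendsto (fun x : ℝ => Lp Y F p x) (𝓝[>] 1)
    (𝓝 (Lp Y F p 1)) := by
  refine tendsto_tsum_of_dominated_convergence
    (bound := fun y : {y // Y.ch y = p} => 2 * (finrank ℂ H : ℝ) * (Y.N y.1 : ℝ) ^ (-(e + (1 : ℝ))))
    ((Y.summable_one p le_rfl).mul_left _) (fun y => ?_) ?_
  · have h : ContinuousAt (logdet (F y.1)) (Y.t 1 y.1) := by
      refine continuousAt_logdet (hF y.1) ?_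
      rw [Y.norm_t]
      exact (Y.rpow_le_half y.1 le_rfl).trans_lt (by norm_num)
    exact h.tendsto.comp (tendsto_t Y hF y.1)
  · filter_upwards [self_mem_nhdsWithin] with x hx y
    have hx1 : (1 : ℝ) ≤ x := (Set.mem_Ioi.mp hx).le
    have h := norm_logdet_le (hF y.1) (t := Y.t x y.1) (by
      rw [Y.norm_t]; exact Y.rpow_le_half y.1 hx1)
    rw [Y.norm_t] at h
    refine h.trans (mul_le_mul_of_nonneg_left ?_ (by positivity))
    refine Real.rpow_le_rpow_of_exponent_le ?_ (by linarith)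
    have := Y.two_le y.1
    exact_mod_cast (by omega : 1 ≤ Y.N y.1)

/-- the points over one prime number and the traces of the powers -/
lemma norm_trace_pow_le {G : Module.End ℂ H} (hG : Bd G) (n : ℕ) :
    ‖LinearMap.trace ℂ H (G ^ n)‖ ≤ finrank ℂ H := by
  rw [trace_eig]
  refine (norm_sum_le _ _).trans ?_
  calc ∑ j, ‖eig G j ^ n‖ ≤ ∑ _j : Fin (finrank ℂ H), (1 : ℝ) := by
        refine Finset.sum_le_sum fun j _ => ?_
        rw [norm_pow]
        exact pow_le_one₀ (norm_nonneg _) (hG _ (eig_mem G j))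
    _ = finrank ℂ H := by simp

end

section
variable {e : ℕ} {P : Type} (Y : Pts e P)
  {H : Type} [AddCommGroup H] [Module ℂ H] [FiniteDimensional ℂ H] {F : P → Module.End ℂ H}

lemma Pts.t_eq (p : Nat.Primes) (x : ℝ) (y : P) (hy : Y.ch y = p) :
    Y.t x y = (((((p : ℕ) : ℝ) ^ (-(e + x))) : ℝ) : ℂ) ^ Y.deg y := by
  have hp0 : (0 : ℝ) ≤ ((p : ℕ) : ℝ) := by positivity
  unfold Pts.t Pts.N
  rw [hy, ← Complex.ofReal_pow]
  congr 1
  push_cast
  rw [← Real.rpow_natCast, ← Real.rpow_natCast, ← Real.rpow_mul hp0, ← Real.rpow_mul hp0]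
  congr 1
  ring

/-- points of degree dividing `m` and pairs (point, exponent) with product of degree and exponent
equal to `m` -/
def fibEquiv (p : Nat.Primes) {m : ℕ} (_hm : 0 < m) : {y // Y.ch y = p ∧ Y.deg y ∣ m} ≃
    ((fun z : {y // Y.ch y = p} × ℕ => z.2 * Y.deg z.1.1) ⁻¹' {m} :
      Set ({y // Y.ch y = p} × ℕ)) where
  toFun y := ⟨(⟨y.1, y.2.1⟩, m / Y.deg y.1), Nat.div_mul_cancel y.2.2⟩
  invFun z := ⟨z.1.1.1, z.1.1.2, ⟨z.1.2, by
    have h : z.1.2 * Y.deg z.1.1.1 = m := z.2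
    rw [mul_comm, h]⟩⟩
  left_inv y := rfl
  right_inv z := by
    have h : z.1.2 * Y.deg z.1.1.1 = m := z.2
    apply Subtype.ext
    refine Prod.ext rfl ?_
    simp only
    exact Nat.div_eq_of_eq_mul_left (Y.deg_pos _) h.symm

lemma hasSum_traces (hF : ∀ y, Bd (F y)) (p : Nat.Primes) {x : ℝ} (hx : 1 ≤ x) :
    HasSum (fun m : ℕ => (((((p : ℕ) : ℝ) ^ (-(e + x))) : ℝ) : ℂ) ^ m / m * traceSum Y F p m)
      (Lp Y F p x) := by
  set g : {y // Y.ch y = p} × ℕ → ℂ := fun z => (Y.t x z.1.1) ^ z.2 / z.2 *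
    LinearMap.trace ℂ H (F z.1.1 ^ z.2) with hg
  have hsum : Summable g := by
    have h1 : Summable fun z : {y // Y.ch y = p} × ℕ =>
        (2 * (finrank ℂ H : ℝ) * (Y.N z.1.1 : ℝ) ^ (-(e + x))) * ((1 / 2 : ℝ) ^ z.2) :=
      ((Y.summable_one p hx).mul_left (2 * (finrank ℂ H : ℝ))).mul_of_nonneg
        summable_geometric_two (fun y => by positivity) (fun n => by positivity)
    refine Summable.of_norm_bounded h1 fun z => ?_
    obtain ⟨y, n⟩ := z
    rcases Nat.eq_zero_or_pos n with hn | hn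
    · subst hn
      simp only [hg, Nat.cast_zero, div_zero, zero_mul, norm_zero]
      positivity
    · obtain ⟨k, rfl⟩ : ∃ k, n = k + 1 := ⟨n - 1, by omega⟩
      simp only [hg, norm_mul, norm_div, norm_pow, Y.norm_t]
      have hu := Y.rpow_le_half y.1 hx
      have hu0 : (0 : ℝ) ≤ (Y.N y.1 : ℝ) ^ (-(e + x)) := by positivity
      have htr := norm_trace_pow_le hF (hF y.1) (k + 1)
      have hn1 : (1 : ℝ) ≤ ‖((k + 1 : ℕ) : ℂ)‖ := by
        rw [Complex.norm_natCast]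
        exact_mod_cast hn
      have hpow : ((Y.N y.1 : ℝ) ^ (-(e + x))) ^ (k + 1) ≤
          2 * (Y.N y.1 : ℝ) ^ (-(e + x)) * (1 / 2 : ℝ) ^ (k + 1) := by
        rw [_root_.pow_succ, _root_.pow_succ]
        have := pow_le_pow_left₀ hu0 hu k
        nlinarith
      calc ((Y.N y.1 : ℝ) ^ (-(e + x))) ^ (k + 1) / ‖((k + 1 : ℕ) : ℂ)‖ *
            ‖LinearMap.trace ℂ H (F y.1 ^ (k + 1))‖
          ≤ ((Y.N y.1 : ℝ) ^ (-(e + x))) ^ (k + 1) * (finrank ℂ H) := by
            refine mul_le_mul ?_ htr (norm_nonneg _) (by positivity)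
            exact div_le_self (by positivity) hn1
        _ ≤ (2 * (Y.N y.1 : ℝ) ^ (-(e + x)) * (1 / 2 : ℝ) ^ (k + 1)) * (finrank ℂ H) :=
            mul_le_mul_of_nonneg_right hpow (by positivity)
        _ = _ := by ring
  have h2 : ∑' z, g z = Lp Y F p x := by
    rw [hsum.tsum_prod]
    unfold Lp
    refine tsum_congr fun y => ?_
    have h5 := hasSum_logdet (hF y.1) (t := Y.t x y.1) (by
      rw [Y.norm_t]
      exact (Y.rpow_le_half y.1 hx).trans_lt (by norm_num))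
    exact h5.tsum_eq
  have h3 := (hsum.hasSum).tsum_fiberwise (fun z : {y // Y.ch y = p} × ℕ => z.2 * Y.deg z.1.1)
  rw [h2] at h3
  have h4 : (fun m : ℕ => (((((p : ℕ) : ℝ) ^ (-(e + x))) : ℝ) : ℂ) ^ m / m * traceSum Y F p m) =
      fun m : ℕ => ∑' b : ((fun z : {y // Y.ch y = p} × ℕ => z.2 * Y.deg z.1.1) ⁻¹' {m} :
        Set ({y // Y.ch y = p} × ℕ)), g b := by
    funext m
    rcases Nat.eq_zero_or_pos m with hm | hm
    · subst hm
      have h5 : ∀ b : ((fun z : {y // Y.ch y = p} × ℕ => z.2 * Y.deg z.1.1) ⁻¹' {0} :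
          Set ({y // Y.ch y = p} × ℕ)), g b = 0 := by
        rintro ⟨⟨y, n⟩, hn⟩
        have h6 : n * Y.deg y.1 = 0 := hn
        have h7 : n = 0 := by
          rcases Nat.mul_eq_zero.mp h6 with h | h
          · exact h
          · exact absurd h (Y.deg_pos _).ne'
        subst h7
        simp [hg]
      rw [tsum_congr h5, tsum_zero]
      simp
    · rw [← (fibEquiv Y p hm).tsum_eq]
      unfold traceSum
      rw [← tsum_mul_left]
      refine tsum_congr fun y => ?_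
      obtain ⟨y, hy1, d, hd⟩ := y
      have hdeg := Y.deg_pos y
      have hdpos : 0 < d := by
        rcases Nat.eq_zero_or_pos d with h | h
        · rw [h, mul_zero] at hd; omega
        · exact h
      have hdiv : m / Y.deg y = d := by rw [hd]; exact Nat.mul_div_cancel_left d hdeg
      change _ = (Y.t x y) ^ (m / Y.deg y) / ((m / Y.deg y : ℕ) : ℂ) *
        LinearMap.trace ℂ H (F y ^ (m / Y.deg y))
      simp only
      rw [hdiv, Y.t_eq p x y hy1, ← pow_mul, ← hd]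
      have h8 : (m : ℂ) = (Y.deg y : ℂ) * (d : ℂ) := by rw [hd]; push_cast; ring
      have h9 : (Y.deg y : ℂ) ≠ 0 := by exact_mod_cast hdeg.ne'
      have h10 : (d : ℂ) ≠ 0 := by exact_mod_cast hdpos.ne'
      rw [h8]
      field_simp
  rw [h4]
  exact h3

/-- **The part over a good prime number.** -/
lemma good_prime (hF : ∀ y, Bd (F y)) (p : Nat.Primes)
    {W : Type} [AddCommGroup W] [Module ℂ W] [FiniteDimensional ℂ W] {Φ : Module.End ℂ W}
    (hΦ : Bd Φ) {B : ℝ} (hB : ∀ m : ℕ, 0 < m → ‖traceSum Y F p m -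
      (((p : ℕ) : ℂ) ^ e) ^ m * LinearMap.trace ℂ W (Φ ^ m)‖ ≤
        B * (((p : ℕ) : ℝ) ^ ((e : ℝ) - 1 / 2)) ^ m) {x : ℝ} (hx : 1 ≤ x) :
    ‖Lp Y F p x - logdet Φ (((((p : ℕ) : ℝ) ^ (-x)) : ℝ) : ℂ)‖ ≤
      4 * B * ((p : ℕ) : ℝ) ^ (-(3 / 2 : ℝ)) := by
  have hp0 : (0 : ℝ) < ((p : ℕ) : ℝ) := by exact_mod_cast p.prop.pos
  have hp1 : (1 : ℝ) ≤ ((p : ℕ) : ℝ) := by exact_mod_cast p.prop.one_lt.le
  have hp2 : (2 : ℝ) ≤ ((p : ℕ) : ℝ) := by exact_mod_cast p.prop.two_le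
  have hpx := prime_rpow_le_half p hx
  have h1 := hasSum_traces Y hF p hx
  have h2 := hasSum_logdet hΦ (t := (((((p : ℕ) : ℝ) ^ (-x)) : ℝ) : ℂ)) (by
    rw [Complex.norm_real, Real.norm_eq_abs, abs_of_nonneg (by positivity)]
    exact hpx.trans_lt (by norm_num))
  have h3 := h1.sub h2
  have hB0 : 0 ≤ B := by
    have h := (norm_nonneg _).trans (hB 1 one_pos)
    by_contra hneg
    rw [not_le] at hneg
    have : B * (((p : ℕ) : ℝ) ^ ((e : ℝ) - 1 / 2)) ^ 1 < 0 :=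
      mul_neg_of_neg_of_pos hneg (by positivity)
    linarith
  set v : ℝ := ((p : ℕ) : ℝ) ^ (-(x + 1 / 2)) with hv
  have hv0 : 0 ≤ v := by positivity
  have hv1 : v ≤ ((p : ℕ) : ℝ) ^ (-(3 / 2 : ℝ)) :=
    Real.rpow_le_rpow_of_exponent_le hp1 (by linarith)
  have hvh : v ≤ 1 / 2 := by
    refine hv1.trans ?_
    calc ((p : ℕ) : ℝ) ^ (-(3 / 2 : ℝ)) ≤ ((p : ℕ) : ℝ) ^ (-1 : ℝ) :=
          Real.rpow_le_rpow_of_exponent_le hp1 (by norm_num)
      _ = (((p : ℕ) : ℝ))⁻¹ := by rw [Real.rpow_neg_one]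
      _ ≤ 1 / 2 := by
          rw [one_div]
          exact inv_anti₀ (by norm_num) hp2
  have hgeo : HasSum (fun m : ℕ => 2 * B * v * (1 / 2 : ℝ) ^ m) (2 * B * v * 2) :=
    hasSum_geometric_two.mul_left _
  have hterm : ∀ m : ℕ, ‖(((((p : ℕ) : ℝ) ^ (-(e + x))) : ℝ) : ℂ) ^ m / m * traceSum Y F p m -
      (((((p : ℕ) : ℝ) ^ (-x)) : ℝ) : ℂ) ^ m / m * LinearMap.trace ℂ W (Φ ^ m)‖ ≤
      2 * B * v * (1 / 2 : ℝ) ^ m := by
    intro m
    rcases Nat.eq_zero_or_pos m with hm | hm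
    · subst hm
      simp only [Nat.cast_zero, div_zero, zero_mul, sub_self, norm_zero]
      positivity
    · have h4 : (((((p : ℕ) : ℝ) ^ (-x)) : ℝ) : ℂ) ^ m =
          (((((p : ℕ) : ℝ) ^ (-(e + x))) : ℝ) : ℂ) ^ m * (((p : ℕ) : ℂ) ^ e) ^ m := by
        rw [← mul_pow]
        congr 1
        have : (((p : ℕ) : ℂ) ^ e) = (((((p : ℕ) : ℝ) ^ e : ℝ)) : ℂ) := by push_cast; rfl
        rw [this, ← Complex.ofReal_mul]
        congr 1
        rw [← Real.rpow_natCast, ← Real.rpow_add hp0]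
        congr 1
        ring
      rw [h4]
      have h5 : (((((p : ℕ) : ℝ) ^ (-(e + x))) : ℝ) : ℂ) ^ m / m * traceSum Y F p m -
          (((((p : ℕ) : ℝ) ^ (-(e + x))) : ℝ) : ℂ) ^ m * (((p : ℕ) : ℂ) ^ e) ^ m / m *
            LinearMap.trace ℂ W (Φ ^ m) =
          (((((p : ℕ) : ℝ) ^ (-(e + x))) : ℝ) : ℂ) ^ m / m * (traceSum Y F p m -
            (((p : ℕ) : ℂ) ^ e) ^ m * LinearMap.trace ℂ W (Φ ^ m)) := by ring
      rw [h5, norm_mul, norm_div, norm_pow, Complex.norm_real, Real.norm_eq_abs,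
        abs_of_nonneg (by positivity : (0 : ℝ) ≤ ((p : ℕ) : ℝ) ^ (-(e + x))), Complex.norm_natCast]
      have hm1 : (1 : ℝ) ≤ (m : ℝ) := by exact_mod_cast hm
      have h6 : (((p : ℕ) : ℝ) ^ (-(e + x))) ^ m / (m : ℝ) *
          ‖traceSum Y F p m - (((p : ℕ) : ℂ) ^ e) ^ m * LinearMap.trace ℂ W (Φ ^ m)‖ ≤
          (((p : ℕ) : ℝ) ^ (-(e + x))) ^ m * (B * (((p : ℕ) : ℝ) ^ ((e : ℝ) - 1 / 2)) ^ m) := by
        refine mul_le_mul ?_ (hB m hm) (norm_nonneg _) (by positivity)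
        exact div_le_self (by positivity) hm1
      refine h6.trans ?_
      have h7 : (((p : ℕ) : ℝ) ^ (-(e + x))) ^ m * (B * (((p : ℕ) : ℝ) ^ ((e : ℝ) - 1 / 2)) ^ m) =
          B * v ^ m := by
        have : ((p : ℕ) : ℝ) ^ (-(e + x)) * ((p : ℕ) : ℝ) ^ ((e : ℝ) - 1 / 2) = v := by
          rw [← Real.rpow_add hp0]
          congr 1
          ring
        rw [← this, mul_pow]
        ring
      rw [h7]
      obtain ⟨k, rfl⟩ : ∃ k, m = k + 1 := ⟨m - 1, by omega⟩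
      have h8 : v ^ (k + 1) ≤ 2 * v * (1 / 2 : ℝ) ^ (k + 1) := by
        rw [_root_.pow_succ, _root_.pow_succ]
        have := pow_le_pow_left₀ hv0 hvh k
        nlinarith
      calc B * v ^ (k + 1) ≤ B * (2 * v * (1 / 2 : ℝ) ^ (k + 1)) :=
            mul_le_mul_of_nonneg_left h8 hB0
        _ = _ := by ring
  have h9 := tsum_of_norm_bounded hgeo hterm
  rw [h3.tsum_eq] at h9
  refine h9.trans ?_
  calc 2 * B * v * 2 = 4 * B * v := by ring
    _ ≤ 4 * B * ((p : ℕ) : ℝ) ^ (-(3 / 2 : ℝ)) := mul_le_mul_of_nonneg_left hv1 (by positivity)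

end

section
variable {e : ℕ} {P : Type} (Y : Pts e P)
  {H : Type} [AddCommGroup H] [Module ℂ H] [FiniteDimensional ℂ H] {F : P → Module.End ℂ H}
  {W : Type} [AddCommGroup W] [Module ℂ W] [FiniteDimensional ℂ W]

/-- the number `p^{-x}` -/
noncomputable def tp (x : ℝ) (p : Nat.Primes) : ℂ := (((((p : ℕ) : ℝ) ^ (-x)) : ℝ) : ℂ)

lemma norm_tp (x : ℝ) (p : Nat.Primes) : ‖tp x p‖ = ((p : ℕ) : ℝ) ^ (-x) := by
  unfold tp
  rw [Complex.norm_real, Real.norm_eq_abs, abs_of_nonneg (by positivity)]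

lemma tendsto_tp (p : Nat.Primes) : Tendsto (fun x => tp x p) (𝓝[>] 1) (𝓝 (tp 1 p)) := by
  unfold tp
  refine (Complex.continuous_ofReal.tendsto _).comp ?_
  have h := tendsto_rpow ((p : ℕ) : ℝ) (by exact_mod_cast p.prop.pos) 1
  simpa using h

/-- the logarithm of the `L`-function of `W`, with the prime numbers in `S` omitted -/
noncomputable def logL (S : Finset Nat.Primes) (Φ : Nat.Primes → Module.End ℂ W) (x : ℝ) : ℂ :=
  ∑' p : {p : Nat.Primes // p ∉ S}, logdet (Φ p.1) (tp x p.1)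

lemma summable_logL {S : Finset Nat.Primes} {Φ : Nat.Primes → Module.End ℂ W}
    (hΦ : ∀ p, p ∉ S → Bd (Φ p)) {x : ℝ} (hx : 1 < x) :
    Summable fun p : {p : Nat.Primes // p ∉ S} => logdet (Φ p.1) (tp x p.1) := by
  refine Summable.of_norm_bounded (((summable_primes_rpow hx).subtype {p | p ∉ S}).mul_left
    (2 * (finrank ℂ W : ℝ))) fun p => ?_
  have h := norm_logdet_le (hΦ p.1 p.2) (t := tp x p.1) (by
    rw [norm_tp]; exact prime_rpow_le_half p.1 hx.le)
  rwa [norm_tp] at h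

lemma hasProd_L {S : Finset Nat.Primes} {Φ : Nat.Primes → Module.End ℂ W}
    (hΦ : ∀ p, p ∉ S → Bd (Φ p)) {x : ℝ} (hx : 1 < x) :
    HasProd (fun p : {p : Nat.Primes // p ∉ S} => (LinearMap.det (1 - tp x p.1 • Φ p.1))⁻¹)
      (Complex.exp (logL S Φ x)) := by
  have h := (summable_logL hΦ hx).hasSum.cexp
  have h2 : (fun p : {p : Nat.Primes // p ∉ S} => (LinearMap.det (1 - tp x p.1 • Φ p.1))⁻¹) =
      Complex.exp ∘ fun p : {p : Nat.Primes // p ∉ S} => logdet (Φ p.1) (tp x p.1) := by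
    funext p
    rw [Function.comp_apply, exp_logdet (hΦ p.1 p.2)]
    rw [norm_tp]
    exact (prime_rpow_le_half p.1 hx.le).trans_lt (by norm_num)
  rw [h2]
  exact h

/-- **Reduction to `W`.** The difference of the logarithms has a limit. -/
theorem tendsto_sub (hF : ∀ y, Bd (F y)) (S : Finset Nat.Primes)
    (Φ : Nat.Primes → Module.End ℂ W) (hΦ : ∀ p, p ∉ S → Bd (Φ p)) (B : ℝ)
    (hB : ∀ p, p ∉ S → ∀ m : ℕ, 0 < m → ‖traceSum Y F p m -
      (((p : ℕ) : ℂ) ^ e) ^ m * LinearMap.trace ℂ W (Φ p ^ m)‖ ≤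
        B * (((p : ℕ) : ℝ) ^ ((e : ℝ) - 1 / 2)) ^ m) :
    ∃ c : ℂ, Tendsto (fun x : ℝ => (∑' y, logdet (F y) (Y.t x y)) - logL S Φ x) (𝓝[>] 1)
      (𝓝 c) := by
  classical
  obtain ⟨C, hC⟩ := Y.count
  have hC0 : 0 ≤ C := by
    have h := hC ⟨2, Nat.prime_two⟩ 0
    rw [zero_mul, pow_zero, mul_one] at h
    exact le_trans (by positivity) h
  -- the term of `W`
  set M : Nat.Primes → ℝ → ℂ := fun p x => if p ∈ S then 0 else logdet (Φ p) (tp x p) with hM
  have hMsum : ∀ x : ℝ, 1 < x → Summable (fun p => M p x) ∧ ∑' p, M p x = logL S Φ x := by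
    intro x hx
    have h1 : (fun p => M p x) = ({p | p ∉ S} : Set Nat.Primes).indicator
        (fun p => logdet (Φ p) (tp x p)) := by
      funext p
      simp only [hM, Set.indicator_apply, Set.mem_ofPred_eq]
      by_cases hp : p ∈ S <;> simp [hp]
    rw [h1]
    refine ⟨?_, ?_⟩
    · rw [← summable_subtype_iff_indicator]
      exact summable_logL hΦ hx
    · rw [← tsum_subtype]
      rfl
  refine ⟨∑' p : Nat.Primes, (Lp Y F p 1 - M p 1), ?_⟩
  have h1 : Tendsto (fun x : ℝ => ∑' p : Nat.Primes, (Lp Y F p x - M p x)) (𝓝[>] 1)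
      (𝓝 (∑' p : Nat.Primes, (Lp Y F p 1 - M p 1))) := by
    refine tendsto_tsum_of_dominated_convergence
      (bound := fun p : Nat.Primes => (if p ∈ S then 4 * C * (finrank ℂ H : ℝ) else 0) +
        4 * |B| * ((p : ℕ) : ℝ) ^ (-(3 / 2 : ℝ))) ?_ (fun p => ?_) ?_
    · refine Summable.add ?_ ((summable_primes_rpow (by norm_num)).mul_left _)
      refine summable_of_ne_finset_zero (s := S) fun p hp => ?_
      rw [if_neg hp]
    · refine (tendsto_Lp Y hF p).sub ?_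
      simp only [hM]
      by_cases hp : p ∈ S
      · simp only [if_pos hp]
        exact tendsto_const_nhds
      · simp only [if_neg hp]
        have h : ContinuousAt (logdet (Φ p)) (tp 1 p) := by
          refine continuousAt_logdet (hΦ p hp) ?_
          rw [norm_tp]
          exact (prime_rpow_le_half p le_rfl).trans_lt (by norm_num)
        exact h.tendsto.comp (tendsto_tp p)
    · filter_upwards [self_mem_nhdsWithin] with x hx p
      have hx1 : (1 : ℝ) < x := hx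
      have hpos : 0 ≤ 4 * |B| * ((p : ℕ) : ℝ) ^ (-(3 / 2 : ℝ)) := by positivity
      by_cases hp : p ∈ S
      · simp only [hM, if_pos hp, sub_zero]
        have h2 := norm_Lp_le Y hF hC p hx1.le
        have h3 : ((p : ℕ) : ℝ) ^ (-x) ≤ 1 :=
          (prime_rpow_le_half p hx1.le).trans (by norm_num)
        have h4 : 0 ≤ 4 * C * (finrank ℂ H : ℝ) := by positivity
        nlinarith
      · simp only [hM, if_neg hp, zero_add]
        have h2 := good_prime Y hF p (hΦ p hp) (hB p hp) hx1.le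
        refine h2.trans ?_
        refine mul_le_mul_of_nonneg_right ?_ (by positivity)
        have := le_abs_self B
        linarith
  refine h1.congr' ?_
  filter_upwards [self_mem_nhdsWithin] with x hx
  have hx1 : (1 : ℝ) < x := hx
  have h2 := hasSum_Lp Y hF hx1
  rw [h2.summable.tsum_sub (hMsum x hx1).1, h2.tsum_eq, (hMsum x hx1).2]

end

end Pool.Agent.N184.QP
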