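import Pool.Agent.N184.QP.EigC
import Pool.Agent.N184.QP.Euler

/-!
# Euler products over closed points as functions of a complex variable
-/

set_option autoImplicit false
set_option linter.unusedSectionVars false

open Filter Topology Module
open Pool.Agent.H921R2.TatePole

namespace Pool.Agent.N184.QP

section
variable {e : ℕ} {P : Type} (Y : Pts e P)

lemma Pts.rpow_le_34 (y : P) {x : ℝ} (hx : 3 / 4 ≤ x) : (Y.N y : ℝ) ^ (-(e + x)) ≤ 3 / 4 := by
  have he : (0 : ℝ) ≤ e := by positivity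
  exact Pool.Agent.N184.QP.rpow_le_34 (Y.two_le y) (by linarith)

/-- sums over the points over one prime number -/
lemma Pts.sum_le_one' {C : ℝ} (hC : ∀ (p : Nat.Primes) (d : ℕ),
    (Nat.card {y // Y.ch y = p ∧ Y.deg y = d} : ℝ) ≤ C * ((p : ℕ) : ℝ) ^ (d * e)) (p : Nat.Primes)
    {x : ℝ} (hx : 3 / 4 ≤ x) (u : Finset P) (hu : ∀ y ∈ u, Y.ch y = p) :
    ∑ y ∈ u, (Y.N y : ℝ) ^ (-(e + x)) ≤ 4 * C * ((p : ℕ) : ℝ) ^ (-x) := by
  classical
  have hp0 : (0 : ℝ) < (p : ℕ) := by exact_mod_cast p.prop.pos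
  have hC0 : 0 ≤ C := by
    have h := hC p 0
    rw [zero_mul, pow_zero, mul_one] at h
    exact le_trans (by positivity) h
  have hq : ((p : ℕ) : ℝ) ^ (-x) ≤ 3 / 4 := Pool.Agent.N184.QP.rpow_le_34 p.prop.two_le hx
  have hq0 : 0 ≤ ((p : ℕ) : ℝ) ^ (-x) := by positivity
  have h1 : ∑ y ∈ u, (Y.N y : ℝ) ^ (-(e + x)) =
      ∑ d ∈ u.image Y.deg, ∑ y ∈ u with Y.deg y = d, (Y.N y : ℝ) ^ (-(e + x)) := by
    rw [Finset.sum_fiberwise_of_maps_to]
    intro y hy
    exact Finset.mem_image_of_mem _ hy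
  have h2 : ∀ d ∈ u.image Y.deg, ∑ y ∈ u with Y.deg y = d, (Y.N y : ℝ) ^ (-(e + x)) ≤
      C * (((p : ℕ) : ℝ) ^ (-x)) ^ d := by
    intro d _
    have h3 : ∀ y ∈ u.filter (fun y => Y.deg y = d), (Y.N y : ℝ) ^ (-(e + x)) =
        ((((p : ℕ) : ℝ) ^ d) ^ (-(e + x)) : ℝ) := by
      intro y hy
      obtain ⟨hy1, hy2⟩ := Finset.mem_filter.mp hy
      unfold Pts.N
      rw [hu y hy1, hy2]
      push_cast
      rfl
    rw [Finset.sum_congr rfl h3, Finset.sum_const, nsmul_eq_mul]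
    have h4 : ((u.filter (fun y => Y.deg y = d)).card : ℝ) ≤ C * ((p : ℕ) : ℝ) ^ (d * e) := by
      refine le_trans ?_ (hC p d)
      have hfin : Finite {y // Y.ch y = p ∧ Y.deg y = d} := (Y.fin p d).to_subtype
      have := Fintype.ofFinite {y // Y.ch y = p ∧ Y.deg y = d}
      rw [Nat.card_eq_fintype_card, ← Finset.card_univ]
      norm_cast
      refine Finset.card_le_card_of_surjOn (fun y => y.1) ?_
      intro y hy
      obtain ⟨hy1, hy2⟩ := Finset.mem_filter.mp hy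
      exact ⟨⟨y, hu y hy1, hy2⟩, by simp, rfl⟩
    calc ((u.filter (fun y => Y.deg y = d)).card : ℝ) * (((p : ℕ) : ℝ) ^ d) ^ (-(e + x))
        ≤ C * ((p : ℕ) : ℝ) ^ (d * e) * (((p : ℕ) : ℝ) ^ d) ^ (-(e + x)) :=
          mul_le_mul_of_nonneg_right h4 (by positivity)
      _ = C * (((p : ℕ) : ℝ) ^ (-x)) ^ d := by
          rw [mul_assoc]
          congr 1
          rw [← Real.rpow_natCast, ← Real.rpow_natCast, ← Real.rpow_natCast,
            ← Real.rpow_mul hp0.le, ← Real.rpow_mul hp0.le, ← Real.rpow_add hp0]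
          congr 1
          push_cast
          ring
  rw [h1]
  refine (Finset.sum_le_sum h2).trans ?_
  rw [← Finset.mul_sum]
  have h5 : ∑ d ∈ u.image Y.deg, (((p : ℕ) : ℝ) ^ (-x)) ^ d ≤ 4 * ((p : ℕ) : ℝ) ^ (-x) := by
    have hs : HasSum (fun n : ℕ => (((p : ℕ) : ℝ) ^ (-x)) ^ (n + 1))
        ((1 - ((p : ℕ) : ℝ) ^ (-x))⁻¹ * ((p : ℕ) : ℝ) ^ (-x)) := by
      have h7 := (hasSum_geometric_of_lt_one hq0 (by linarith : ((p : ℕ) : ℝ) ^ (-x) < 1)).mul_right
        (((p : ℕ) : ℝ) ^ (-x))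
      have h8 : (fun n : ℕ => (((p : ℕ) : ℝ) ^ (-x)) ^ (n + 1)) =
          fun n : ℕ => (((p : ℕ) : ℝ) ^ (-x)) ^ n * ((p : ℕ) : ℝ) ^ (-x) := by
        funext n
        rw [_root_.pow_succ]
      rw [h8]
      exact h7
    have hpos : ∀ d ∈ u.image Y.deg, 0 < d := by
      intro d hd
      obtain ⟨y, _, rfl⟩ := Finset.mem_image.mp hd
      exact Y.deg_pos y
    generalize u.image Y.deg = U at hpos
    have h6 : ∑ d ∈ U, (((p : ℕ) : ℝ) ^ (-x)) ^ d =
        ∑ d ∈ U.image (fun d => d - 1), (((p : ℕ) : ℝ) ^ (-x)) ^ (d + 1) := by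
      symm
      rw [Finset.sum_image]
      · refine Finset.sum_congr rfl fun d hd => ?_
        have := hpos d hd
        congr 1
        omega
      · intro a ha b hb hab
        have h1 := hpos a ha
        have h2 := hpos b hb
        simp only at hab
        omega
    rw [h6]
    refine (sum_le_hasSum _ (fun n _ => by positivity) hs).trans ?_
    refine mul_le_mul_of_nonneg_right ?_ hq0
    rw [inv_le_comm₀ (by linarith) (by norm_num)]
    linarith
  calc C * ∑ d ∈ u.image Y.deg, (((p : ℕ) : ℝ) ^ (-x)) ^ d ≤ C * (4 * ((p : ℕ) : ℝ) ^ (-x)) :=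
        mul_le_mul_of_nonneg_left h5 hC0
    _ = _ := by ring

lemma Pts.summable_one' (p : Nat.Primes) {x : ℝ} (hx : 3 / 4 ≤ x) :
    Summable fun y : {y // Y.ch y = p} => (Y.N y.1 : ℝ) ^ (-(e + x)) := by
  obtain ⟨C, hC⟩ := Y.count
  refine summable_of_sum_le (fun y => by positivity) (c := 4 * C * ((p : ℕ) : ℝ) ^ (-x)) (fun u => ?_)
  have h := Y.sum_le_one' hC p hx (u.map (Function.Embedding.subtype _)) (by
    intro y hy
    obtain ⟨z, _, rfl⟩ := Finset.mem_map.mp hy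
    exact z.2)
  rwa [Finset.sum_map] at h

lemma Pts.tsum_one_le' {C : ℝ} (hC : ∀ (p : Nat.Primes) (d : ℕ),
    (Nat.card {y // Y.ch y = p ∧ Y.deg y = d} : ℝ) ≤ C * ((p : ℕ) : ℝ) ^ (d * e))
    (p : Nat.Primes) {x : ℝ} (hx : 3 / 4 ≤ x) :
    ∑' y : {y // Y.ch y = p}, (Y.N y.1 : ℝ) ^ (-(e + x)) ≤ 4 * C * ((p : ℕ) : ℝ) ^ (-x) := by
  refine Real.tsum_le_of_sum_le (fun y => by positivity) (fun u => ?_)
  have h := Y.sum_le_one' hC p hx (u.map (Function.Embedding.subtype _)) (by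
    intro y hy
    obtain ⟨z, _, rfl⟩ := Finset.mem_map.mp hy
    exact z.2)
  rwa [Finset.sum_map] at h

/-- the number `N(y)^{-(e+s)}` -/
noncomputable def Pts.tC (s : ℂ) (y : P) : ℂ := (Y.N y : ℂ) ^ (-((e : ℂ) + s))

lemma Pts.pos (y : P) : 0 < Y.N y := by
  have := Y.two_le y
  omega

lemma Pts.norm_tC (s : ℂ) (y : P) : ‖Y.tC s y‖ = (Y.N y : ℝ) ^ (-(e + s.re)) := by
  unfold Pts.tC
  rw [norm_cpow_neg_nat (Y.pos y), Complex.add_re, Complex.natCast_re]

lemma Pts.norm_tC_le {s : ℂ} (hs : 3 / 4 ≤ s.re) (y : P) : ‖Y.tC s y‖ ≤ 3 / 4 := by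
  rw [Y.norm_tC]
  exact Y.rpow_le_34 y hs

lemma Pts.norm_tC_lt {s : ℂ} (hs : 3 / 4 ≤ s.re) (y : P) : ‖Y.tC s y‖ < 1 :=
  (Y.norm_tC_le hs y).trans_lt (by norm_num)

lemma Pts.differentiable_tC (y : P) : Differentiable ℂ fun s => Y.tC s y := by
  intro s
  unfold Pts.tC
  exact DifferentiableAt.const_cpow ((differentiableAt_const _).add differentiableAt_id).neg
    (Or.inl (by exact_mod_cast (Y.pos y).ne'))

lemma Pts.tC_eq (p : Nat.Primes) (s : ℂ) (y : P) (hy : Y.ch y = p) :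
    Y.tC s y = (((p : ℕ) : ℂ) ^ (-((e : ℂ) + s))) ^ Y.deg y := by
  unfold Pts.tC Pts.N
  rw [hy]
  push_cast
  rw [← Complex.cpow_nat_mul, ← Complex.natCast_cpow_natCast_mul]

end

section
variable {e : ℕ} {P : Type} (Y : Pts e P)
  {H : Type} [AddCommGroup H] [Module ℂ H] [FiniteDimensional ℂ H] (F : P → Module.End ℂ H)

/-- the logarithm of the part over `p` -/
noncomputable def Lc (p : Nat.Primes) (s : ℂ) : ℂ :=
  ∑' y : {y // Y.ch y = p}, logdet (F y.1) (Y.tC s y.1)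

/-- the logarithm of the Euler product -/
noncomputable def LamC (s : ℂ) : ℂ := ∑' y, logdet (F y) (Y.tC s y)

variable {F} (hF : ∀ y, Bd (F y))
include hF

lemma norm_term_le {s : ℂ} (hs : 3 / 4 ≤ s.re) (y : P) :
    ‖logdet (F y) (Y.tC s y)‖ ≤ 3 * (finrank ℂ H : ℝ) * (Y.N y : ℝ) ^ (-(e + s.re)) := by
  have h := norm_logdet_le' (hF y) (Y.norm_tC_le hs y)
  rwa [Y.norm_tC] at h

lemma summable_logC {s : ℂ} (hs : 1 < s.re) : Summable fun y => logdet (F y) (Y.tC s y) :=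
  Summable.of_norm_bounded ((Y.summable hs).mul_left _) fun y =>
    norm_term_le Y hF (by linarith) y

lemma summable_logC_one (p : Nat.Primes) {s : ℂ} (hs : 3 / 4 ≤ s.re) :
    Summable fun y : {y // Y.ch y = p} => logdet (F y.1) (Y.tC s y.1) :=
  Summable.of_norm_bounded ((Y.summable_one' p hs).mul_left _) fun y =>
    norm_term_le Y hF hs y.1

/-- the Euler product -/
lemma hasProd_eulerC {s : ℂ} (hs : 1 < s.re) :
    HasProd (fun y => (LinearMap.det (1 - Y.tC s y • F y))⁻¹) (Complex.exp (LamC Y F s)) := by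
  have h := (summable_logC Y hF hs).hasSum.cexp
  have h2 : (fun y => (LinearMap.det (1 - Y.tC s y • F y))⁻¹) =
      Complex.exp ∘ fun y => logdet (F y) (Y.tC s y) := by
    funext y
    rw [Function.comp_apply, exp_logdet (hF y) (Y.norm_tC_lt (by linarith) y)]
  rw [h2]
  exact h

lemma hasSum_Lc {s : ℂ} (hs : 1 < s.re) : HasSum (fun p => Lc Y F p s) (LamC Y F s) :=
  ((summable_logC Y hF hs).hasSum).tsum_fiberwise Y.ch

lemma norm_Lc_le {C : ℝ} (hC : ∀ (p : Nat.Primes) (d : ℕ),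
    (Nat.card {y // Y.ch y = p ∧ Y.deg y = d} : ℝ) ≤ C * ((p : ℕ) : ℝ) ^ (d * e))
    (p : Nat.Primes) {s : ℂ} (hs : 3 / 4 ≤ s.re) :
    ‖Lc Y F p s‖ ≤ 12 * C * finrank ℂ H * ((p : ℕ) : ℝ) ^ (-s.re) := by
  have h1 : ‖Lc Y F p s‖ ≤ ∑' y : {y // Y.ch y = p},
      3 * (finrank ℂ H : ℝ) * (Y.N y.1 : ℝ) ^ (-(e + s.re)) :=
    tsum_of_norm_bounded (((Y.summable_one' p hs).mul_left _).hasSum) fun y =>
      norm_term_le Y hF hs y.1
  refine h1.trans ?_
  rw [tsum_mul_left]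
  have h2 := Y.tsum_one_le' hC p hs
  have h3 : (0 : ℝ) ≤ 3 * (finrank ℂ H : ℝ) := by positivity
  calc _ ≤ 3 * (finrank ℂ H : ℝ) * (4 * C * ((p : ℕ) : ℝ) ^ (-s.re)) :=
        mul_le_mul_of_nonneg_left h2 h3
    _ = _ := by ring

lemma differentiableOn_Lc (p : Nat.Primes) : DifferentiableOn ℂ (Lc Y F p) HP34 := by
  refine Complex.differentiableOn_tsum_of_summable_norm
    (u := fun y : {y // Y.ch y = p} =>
      3 * (finrank ℂ H : ℝ) * (Y.N y.1 : ℝ) ^ (-(e + (3 / 4 : ℝ))))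
    ((Y.summable_one' p le_rfl).mul_left _) (fun y => ?_) isOpen_HP34 (fun y s hs => ?_)
  · intro s hs
    have hs' : (3 / 4 : ℝ) < s.re := hs
    exact (DifferentiableAt.comp (g := logdet (F y.1)) s
      (differentiableAt_logdet (hF y.1) (Y.norm_tC_lt hs'.le y.1))
      (Y.differentiable_tC y.1 s)).differentiableWithinAt
  · have hs' : (3 / 4 : ℝ) < s.re := hs
    refine (norm_term_le Y hF hs'.le y.1).trans (mul_le_mul_of_nonneg_left ?_ (by positivity))
    refine Real.rpow_le_rpow_of_exponent_le ?_ (by linarith)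
    have := Y.pos y.1
    exact_mod_cast this

lemma hasSum_tracesC (p : Nat.Primes) {s : ℂ} (hs : 3 / 4 ≤ s.re) :
    HasSum (fun m : ℕ => (((p : ℕ) : ℂ) ^ (-((e : ℂ) + s))) ^ m / m * traceSum Y F p m)
      (Lc Y F p s) := by
  set g : {y // Y.ch y = p} × ℕ → ℂ := fun z => (Y.tC s z.1.1) ^ z.2 / z.2 *
    LinearMap.trace ℂ H (F z.1.1 ^ z.2) with hg
  have hsum : Summable g := by
    have hgeo : Summable fun n : ℕ => (3 / 4 : ℝ) ^ n :=
      summable_geometric_of_lt_one (by norm_num) (by norm_num)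
    have h1 : Summable fun z : {y // Y.ch y = p} × ℕ =>
        (4 / 3 * (finrank ℂ H : ℝ) * (Y.N z.1.1 : ℝ) ^ (-(e + s.re))) * ((3 / 4 : ℝ) ^ z.2) :=
      ((Y.summable_one' p hs).mul_left (4 / 3 * (finrank ℂ H : ℝ))).mul_of_nonneg
        hgeo (fun y => by positivity) (fun n => by positivity)
    refine Summable.of_norm_bounded h1 fun z => ?_
    obtain ⟨y, n⟩ := z
    rcases Nat.eq_zero_or_pos n with hn | hn
    · subst hn
      simp only [hg, Nat.cast_zero, div_zero, zero_mul, norm_zero]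
      positivity
    · obtain ⟨k, rfl⟩ : ∃ k, n = k + 1 := ⟨n - 1, by omega⟩
      simp only [hg, norm_mul, norm_div, norm_pow, Y.norm_tC]
      have hu := Y.rpow_le_34 y.1 hs
      have hu0 : (0 : ℝ) ≤ (Y.N y.1 : ℝ) ^ (-(e + s.re)) := by positivity
      have htr := norm_trace_pow_le hF (hF y.1) (k + 1)
      have hn1 : (1 : ℝ) ≤ ‖((k + 1 : ℕ) : ℂ)‖ := by
        rw [Complex.norm_natCast]
        exact_mod_cast hn
      have hpow : ((Y.N y.1 : ℝ) ^ (-(e + s.re))) ^ (k + 1) ≤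
          4 / 3 * (Y.N y.1 : ℝ) ^ (-(e + s.re)) * (3 / 4 : ℝ) ^ (k + 1) := by
        rw [_root_.pow_succ, _root_.pow_succ]
        have := pow_le_pow_left₀ hu0 hu k
        nlinarith
      calc ((Y.N y.1 : ℝ) ^ (-(e + s.re))) ^ (k + 1) / ‖((k + 1 : ℕ) : ℂ)‖ *
            ‖LinearMap.trace ℂ H (F y.1 ^ (k + 1))‖
          ≤ ((Y.N y.1 : ℝ) ^ (-(e + s.re))) ^ (k + 1) * (finrank ℂ H) := by
            refine mul_le_mul ?_ htr (norm_nonneg _) (by positivity)
            exact div_le_self (by positivity) hn1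
        _ ≤ (4 / 3 * (Y.N y.1 : ℝ) ^ (-(e + s.re)) * (3 / 4 : ℝ) ^ (k + 1)) * (finrank ℂ H) :=
            mul_le_mul_of_nonneg_right hpow (by positivity)
        _ = _ := by ring
  have h2 : ∑' z, g z = Lc Y F p s := by
    rw [hsum.tsum_prod]
    unfold Lc
    refine tsum_congr fun y => ?_
    have h5 := hasSum_logdet (hF y.1) (t := Y.tC s y.1) (Y.norm_tC_lt hs y.1)
    exact h5.tsum_eq
  have h3 := (hsum.hasSum).tsum_fiberwise (fun z : {y // Y.ch y = p} × ℕ => z.2 * Y.deg z.1.1)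
  rw [h2] at h3
  have h4 : (fun m : ℕ => (((p : ℕ) : ℂ) ^ (-((e : ℂ) + s))) ^ m / m * traceSum Y F p m) =
      fun m : ℕ => ∑' b : ((fun z : {y // Y.ch y = p} × ℕ => z.2 * Y.deg z.1.1) ⁻¹' {m} :
        Set ({y // Y.ch y = p} × ℕ)), g b := by
    funext m
    rcases Nat.eq_zero_or_pos m with hm | hm
    · subst hm
      have h5 : ∀ b : ((fun z : {y // Y.ch y = p} × ℕ => z.2 * Y.deg z.1.1) ⁻¹' {0} :
          Set ({y // Y.ch y = p} × ℕ)), g b = 0 := by
        rintro ⟨⟨y, n⟩, hn⟩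
        have h6 : n * Y.deg y.1 = 0 := hn
        have h7 : n = 0 := by
          rcases Nat.mul_eq_zero.mp h6 with h | h
          · exact h
          · exact absurd h (Y.deg_pos _).ne'
        subst h7
        simp [hg]
      rw [tsum_congr h5, tsum_zero]
      simp
    · rw [← (fibEquiv Y p hm).tsum_eq]
      unfold traceSum
      rw [← tsum_mul_left]
      refine tsum_congr fun y => ?_
      obtain ⟨y, hy1, d, hd⟩ := y
      have hdeg := Y.deg_pos y
      have hdpos : 0 < d := by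
        rcases Nat.eq_zero_or_pos d with h | h
        · rw [h, mul_zero] at hd; omega
        · exact h
      have hdiv : m / Y.deg y = d := by rw [hd]; exact Nat.mul_div_cancel_left d hdeg
      change _ = (Y.tC s y) ^ (m / Y.deg y) / ((m / Y.deg y : ℕ) : ℂ) *
        LinearMap.trace ℂ H (F y ^ (m / Y.deg y))
      simp only
      rw [hdiv, Y.tC_eq p s y hy1, ← pow_mul, ← hd]
      have h8 : (m : ℂ) = (Y.deg y : ℂ) * (d : ℂ) := by rw [hd]; push_cast; ring
      have h9 : (Y.deg y : ℂ) ≠ 0 := by exact_mod_cast hdeg.ne'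
      have h10 : (d : ℂ) ≠ 0 := by exact_mod_cast hdpos.ne'
      rw [h8]
      field_simp
  rw [h4]
  exact h3

/-- **The part over a good prime number.** -/
lemma good_primeC (p : Nat.Primes)
    {W : Type} [AddCommGroup W] [Module ℂ W] [FiniteDimensional ℂ W] {Φ : Module.End ℂ W}
    (hΦ : Bd Φ) {B : ℝ} (hB : ∀ m : ℕ, 0 < m → ‖traceSum Y F p m -
      (((p : ℕ) : ℂ) ^ e) ^ m * LinearMap.trace ℂ W (Φ ^ m)‖ ≤
        B * (((p : ℕ) : ℝ) ^ ((e : ℝ) - 1 / 2)) ^ m) {s : ℂ} (hs : 3 / 4 ≤ s.re) :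
    ‖Lc Y F p s - logdet Φ (tc s p)‖ ≤ 4 * B * ((p : ℕ) : ℝ) ^ (-(5 / 4 : ℝ)) := by
  have hp0 : (0 : ℝ) < ((p : ℕ) : ℝ) := by exact_mod_cast p.prop.pos
  have hp1 : (1 : ℝ) ≤ ((p : ℕ) : ℝ) := by exact_mod_cast p.prop.one_lt.le
  have hp2 : (2 : ℝ) ≤ ((p : ℕ) : ℝ) := by exact_mod_cast p.prop.two_le
  have hpc : ((p : ℕ) : ℂ) ≠ 0 := by exact_mod_cast p.prop.ne_zero
  have h1 := hasSum_tracesC Y hF p hs
  have h2 := hasSum_logdet hΦ (t := tc s p) ((norm_tc_le hs p).trans_lt (by norm_num))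
  have h3 := h1.sub h2
  have hB0 : 0 ≤ B := by
    have h := (norm_nonneg _).trans (hB 1 one_pos)
    by_contra hneg
    rw [not_le] at hneg
    have : B * (((p : ℕ) : ℝ) ^ ((e : ℝ) - 1 / 2)) ^ 1 < 0 :=
      mul_neg_of_neg_of_pos hneg (by positivity)
    linarith
  set v : ℝ := ((p : ℕ) : ℝ) ^ (-(s.re + 1 / 2)) with hv
  have hv0 : 0 ≤ v := by positivity
  have hv1 : v ≤ ((p : ℕ) : ℝ) ^ (-(5 / 4 : ℝ)) :=
    Real.rpow_le_rpow_of_exponent_le hp1 (by linarith)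
  have hvh : v ≤ 1 / 2 := by
    refine hv1.trans ?_
    calc ((p : ℕ) : ℝ) ^ (-(5 / 4 : ℝ)) ≤ ((p : ℕ) : ℝ) ^ (-1 : ℝ) :=
          Real.rpow_le_rpow_of_exponent_le hp1 (by norm_num)
      _ = (((p : ℕ) : ℝ))⁻¹ := by rw [Real.rpow_neg_one]
      _ ≤ 1 / 2 := by
          rw [one_div]
          exact inv_anti₀ (by norm_num) hp2
  have hgeo : HasSum (fun m : ℕ => 2 * B * v * (1 / 2 : ℝ) ^ m) (2 * B * v * 2) :=
    hasSum_geometric_two.mul_left _
  have hterm : ∀ m : ℕ, ‖(((p : ℕ) : ℂ) ^ (-((e : ℂ) + s))) ^ m / m * traceSum Y F p m -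
      (tc s p) ^ m / m * LinearMap.trace ℂ W (Φ ^ m)‖ ≤
      2 * B * v * (1 / 2 : ℝ) ^ m := by
    intro m
    rcases Nat.eq_zero_or_pos m with hm | hm
    · subst hm
      simp only [Nat.cast_zero, div_zero, zero_mul, sub_self, norm_zero]
      positivity
    · have h4 : (tc s p) ^ m =
          (((p : ℕ) : ℂ) ^ (-((e : ℂ) + s))) ^ m * (((p : ℕ) : ℂ) ^ e) ^ m := by
        rw [← mul_pow]
        congr 1
        unfold tc
        rw [← Complex.cpow_natCast, ← Complex.cpow_add _ _ hpc]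
        congr 1
        ring
      rw [h4]
      have h5 : (((p : ℕ) : ℂ) ^ (-((e : ℂ) + s))) ^ m / m * traceSum Y F p m -
          (((p : ℕ) : ℂ) ^ (-((e : ℂ) + s))) ^ m * (((p : ℕ) : ℂ) ^ e) ^ m / m *
            LinearMap.trace ℂ W (Φ ^ m) =
          (((p : ℕ) : ℂ) ^ (-((e : ℂ) + s))) ^ m / m * (traceSum Y F p m -
            (((p : ℕ) : ℂ) ^ e) ^ m * LinearMap.trace ℂ W (Φ ^ m)) := by ring
      rw [h5, norm_mul, norm_div, norm_pow, norm_prime_cpow, Complex.norm_natCast,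
        Complex.add_re, Complex.natCast_re]
      have hm1 : (1 : ℝ) ≤ (m : ℝ) := by exact_mod_cast hm
      have h6 : (((p : ℕ) : ℝ) ^ (-(e + s.re))) ^ m / (m : ℝ) *
          ‖traceSum Y F p m - (((p : ℕ) : ℂ) ^ e) ^ m * LinearMap.trace ℂ W (Φ ^ m)‖ ≤
          (((p : ℕ) : ℝ) ^ (-(e + s.re))) ^ m * (B * (((p : ℕ) : ℝ) ^ ((e : ℝ) - 1 / 2)) ^ m) := by
        refine mul_le_mul ?_ (hB m hm) (norm_nonneg _) (by positivity)
        exact div_le_self (by positivity) hm1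
      refine h6.trans ?_
      have h7 : (((p : ℕ) : ℝ) ^ (-(e + s.re))) ^ m *
          (B * (((p : ℕ) : ℝ) ^ ((e : ℝ) - 1 / 2)) ^ m) = B * v ^ m := by
        have : ((p : ℕ) : ℝ) ^ (-(e + s.re)) * ((p : ℕ) : ℝ) ^ ((e : ℝ) - 1 / 2) = v := by
          rw [← Real.rpow_add hp0]
          congr 1
          ring
        rw [← this, mul_pow]
        ring
      rw [h7]
      obtain ⟨k, rfl⟩ : ∃ k, m = k + 1 := ⟨m - 1, by omega⟩
      have h8 : v ^ (k + 1) ≤ 2 * v * (1 / 2 : ℝ) ^ (k + 1) := by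
        rw [_root_.pow_succ, _root_.pow_succ]
        have := pow_le_pow_left₀ hv0 hvh k
        nlinarith
      calc B * v ^ (k + 1) ≤ B * (2 * v * (1 / 2 : ℝ) ^ (k + 1)) :=
            mul_le_mul_of_nonneg_left h8 hB0
        _ = _ := by ring
  have h9 := tsum_of_norm_bounded hgeo hterm
  rw [h3.tsum_eq] at h9
  refine h9.trans ?_
  calc 2 * B * v * 2 = 4 * B * v := by ring
    _ ≤ 4 * B * ((p : ℕ) : ℝ) ^ (-(5 / 4 : ℝ)) := mul_le_mul_of_nonneg_left hv1 (by positivity)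

/-- **Reduction to `W`.** The difference of the logarithms extends to an analytic function. -/
theorem ac_LamC {W : Type} [AddCommGroup W] [Module ℂ W] [FiniteDimensional ℂ W]
    (S : Finset Nat.Primes) (Φ : Nat.Primes → Module.End ℂ W) (hΦ : ∀ p, p ∉ S → Bd (Φ p)) (B : ℝ)
    (hB : ∀ p, p ∉ S → ∀ m : ℕ, 0 < m → ‖traceSum Y F p m -
      (((p : ℕ) : ℂ) ^ e) ^ m * LinearMap.trace ℂ W (Φ p ^ m)‖ ≤
        B * (((p : ℕ) : ℝ) ^ ((e : ℝ) - 1 / 2)) ^ m) :
    AC (fun s => LamC Y F s - logLC S Φ s) := by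
  classical
  obtain ⟨C, hC⟩ := Y.count
  have hC0 : 0 ≤ C := by
    have h := hC ⟨2, Nat.prime_two⟩ 0
    rw [zero_mul, pow_zero, mul_one] at h
    exact le_trans (by positivity) h
  have h1 : AC (fun s => ∑' p : Nat.Primes, (Lc Y F p s - lc S Φ p s)) := by
    refine AC.tsum (u := fun p : Nat.Primes => (if p ∈ S then 12 * C * (finrank ℂ H : ℝ) else 0) +
        4 * |B| * ((p : ℕ) : ℝ) ^ (-(5 / 4 : ℝ))) ?_ (fun p => ?_) (fun p s hs => ?_)
    · refine Summable.add ?_ ((summable_primes_rpow (by norm_num)).mul_left _)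
      refine summable_of_ne_finset_zero (s := S) fun p hp => ?_
      rw [if_neg hp]
    · refine (differentiableOn_Lc Y hF p).sub ?_
      intro s hs
      have hs' : (3 / 4 : ℝ) < s.re := hs
      exact (differentiableAt_lc hΦ p hs'.le).differentiableWithinAt
    · have hs' : (3 / 4 : ℝ) < s.re := hs
      have hpos : 0 ≤ 4 * |B| * ((p : ℕ) : ℝ) ^ (-(5 / 4 : ℝ)) := by positivity
      by_cases hp : p ∈ S
      · simp only [lc, if_pos hp, sub_zero]
        have h2 := norm_Lc_le Y hF hC p hs'.le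
        have h3 : ((p : ℕ) : ℝ) ^ (-s.re) ≤ 1 :=
          (Pool.Agent.N184.QP.rpow_le_34 p.prop.two_le hs'.le).trans (by norm_num)
        have h4 : 0 ≤ 12 * C * (finrank ℂ H : ℝ) := by positivity
        nlinarith
      · simp only [lc, if_neg hp, zero_add]
        have h2 := good_primeC Y hF p (hΦ p hp) (hB p hp) hs'.le
        refine h2.trans ?_
        refine mul_le_mul_of_nonneg_right ?_ (by positivity)
        have := le_abs_self B
        linarith
  refine h1.congr fun s hs => ?_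
  have h2 := hasSum_Lc Y hF hs
  rw [h2.summable.tsum_sub (summable_lc hΦ hs), h2.tsum_eq]
  rfl

end

end Pool.Agent.N184.QP
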