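import Pool.Agent.N184.QP.Defs

/-!
# Fibrations over number fields and averages of traces of Frobenius: definitions

Let `k` be a number field and `f : X → Y` a flat proper morphism of connected smooth projective varieties
over `k` with geometrically irreducible generic fibre, `m = dim Y`.
We fix an isomorphism of an algebraic closure of `ℚ_l` with `ℂ`.
-/

set_option autoImplicit false

open NumberField Module Filter Topology IsDedekindDomain
open Pool.Agent.H921R2.TatePole (nm)

namespace Pool.Agent.N184.QP

/-- A fibration `f : X → Y` over the number field `k`, `m = dim Y`.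

* `R` is the finite set of bad primes. For a prime `v` of `k` the set `Pt v` consists of the points
  of the reduction of `Y` over the residue field of `v`, and `b v y` is the trace of Frobenius on the
  cohomology of degree `2` of the fibre over `y`. There are at most `C * (nm v) ^ m` points, and
  `b v y` has absolute value at most `C * nm v`, `nm v` being the norm of `v` (Deligne);
* `W` is the group `H^0(U ⊗ ℚ̄, R² f_* ℚ_l (1))`, with coefficients `ℂ`, where `U` is the open part
  of `Y` over which `f` is smooth, considered as a scheme over `ℚ`, with the action `ρ` of the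
  absolute Galois group of `ℚ`. It is the sum, over the embeddings of `k` in `ℚ̄`, of the parts
  fixed by the geometric fundamental group of `U` in `H²(1)` of the geometric generic fibre. It is
  unramified outside the finite set `S`;
* `trace` is the trace formula of Grothendieck for the sheaf `R² f_* ℚ_l` on `U` modulo `p`, for `p`
  outside of `S`, with the bounds of Deligne: the points `y` over the primes `v` of norm `p` are the
  points of `Y` over the field with `p` elements, the cohomology group with compact supports in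
  degree `2 m` is `W (-m - 1)`, the other groups have weights at most `2 m + 1`, and the contribution
  of the points outside of `U` is `O(p ^ m)`. -/
structure Fibration (k : Type) [Field k] [NumberField k] (W : Type) [AddCommGroup W]
    [Module ℂ W] where
  m : ℕ
  R : Finset (HeightOneSpectrum (𝓞 k))
  Pt : HeightOneSpectrum (𝓞 k) → Type
  fin : ∀ v, Fintype (Pt v)
  b : ∀ v, Pt v → ℂ
  points : ∃ C : ℝ, ∀ v, v ∉ R → (Nat.card (Pt v) : ℝ) ≤ C * (nm v : ℝ) ^ m ∧
    ∀ y : Pt v, ‖b v y‖ ≤ C * nm v
  ρ : Representation ℂ GalQ W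
  S : Finset Nat.Primes
  frob : Nat.Primes → GalQ
  isFrob : ∀ p, p ∉ S → IsFrob p (frob p)
  pureW : ∀ p, p ∉ S → ∀ μ : ℂ, Module.End.HasEigenvalue (ρ (frob p)⁻¹) μ → ‖μ‖ = 1
  trace : ∃ C : ℝ, ∀ p, p ∉ S →
    ‖(∑ᶠ (v : HeightOneSpectrum (𝓞 k)) (_ : nm v = (p : ℕ)), ∑ y ∈ (fin v).elems, b v y) -
      ((p : ℕ) : ℂ) ^ (m + 1) * LinearMap.trace ℂ W (ρ (frob p)⁻¹)‖ ≤
        C * ((p : ℕ) : ℝ) ^ ((m : ℝ) + 1 / 2)

/-- The average `𝔅_v(X)` of the traces of Frobenius on the cohomology of degree `2` of the fibres. -/
noncomputable def Fibration.avg {k : Type} [Field k] [NumberField k] {W : Type} [AddCommGroup W]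
    [Module ℂ W] (f : Fibration k W) (v : HeightOneSpectrum (𝓞 k)) : ℂ :=
  ((nm v : ℂ) ^ f.m)⁻¹ * ∑ y ∈ (f.fin v).elems, f.b v y

/-- The Dirichlet series `∑_v 𝔅_v(X) log (nm v) (nm v) ^ (-s)`, where `v` runs through the primes
outside of `R`. -/
noncomputable def Fibration.series {k : Type} [Field k] [NumberField k] {W : Type}
    [AddCommGroup W] [Module ℂ W] (f : Fibration k W) (s : ℂ) : ℂ :=
  ∑' v : {v : HeightOneSpectrum (𝓞 k) // v ∉ f.R},
    f.avg v.1 * (Real.log (nm v.1) : ℝ) * (nm v.1 : ℂ) ^ (-s)

/-- The Dirichlet series `∑_p tr(Φ_p | W) log(p) p ^ (-s)`, where `p` runs through the prime numbers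
outside of `S` and `Φ_p` is the geometric Frobenius. -/
noncomputable def Fibration.seriesW {k : Type} [Field k] [NumberField k] {W : Type}
    [AddCommGroup W] [Module ℂ W] (f : Fibration k W) (s : ℂ) : ℂ :=
  ∑' p : {p : Nat.Primes // p ∉ f.S},
    LinearMap.trace ℂ W (f.ρ (f.frob p.1)⁻¹) * (Real.log ((p.1 : ℕ) : ℝ) : ℝ) *
      ((p.1 : ℕ) : ℂ) ^ (-s)

/-- The function `F`, given for `Re s > a`, has a meromorphic continuation to a neighbourhood of `a`
with at most a simple pole at `a`, with the residue `c`. -/
def HasRes (F : ℂ → ℂ) (a : ℝ) (c : ℂ) : Prop :=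
  ∃ g : ℂ → ℂ, AnalyticAt ℂ g a ∧ ∀ᶠ s in 𝓝 (a : ℂ), a < s.re → F s = c / (s - a) + g s

/-- The `L`-function of `W`: the Euler product over the prime numbers outside of `S`. -/
noncomputable def Fibration.L {k : Type} [Field k] [NumberField k] {W : Type}
    [AddCommGroup W] [Module ℂ W] (f : Fibration k W) (s : ℂ) : ℂ :=
  ∏' p : {p : Nat.Primes // p ∉ f.S},
    (LinearMap.det (1 - (((p.1 : ℕ) : ℂ) ^ (-s)) • f.ρ (f.frob p.1)⁻¹))⁻¹

/-- The function `F`, given for `Re s > a`, has a meromorphic continuation to a neighbourhood of `a`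
and a pole of order `r` at `a`: the function `(s - a) ^ r F(s)` extends to a function that is analytic
at `a` and does not vanish there. -/
def HasPole (F : ℂ → ℂ) (a : ℝ) (r : ℕ) : Prop :=
  ∃ g : ℂ → ℂ, AnalyticAt ℂ g a ∧ g a ≠ 0 ∧
    ∀ᶠ s in 𝓝 (a : ℂ), a < s.re → (s - a) ^ r * F s = g s

/-- Algebraic cycles: `W₀` is the rational vector space of the sections in `W` that are classes of
algebraic cycles on the geometric generic fibre(s), and `A` is the space spanned by the classes of
the cycles on the generic fibre itself. The space `W₀` is stable under the Galois group, each element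
is fixed by the Galois group of some number field, and linearly independent classes remain linearly
independent over `ℂ` (comparison with singular cohomology). The space `A` is the space of Galois
invariants of `W₀` (by transfer). -/
structure CycleSpace {W : Type} [AddCommGroup W] [Module ℂ W] [Module ℚ W]
    (ρ : Representation ℂ GalQ W) where
  W₀ : Submodule ℚ W
  stable : ∀ (γ : GalQ) (w : W), w ∈ W₀ → ρ γ w ∈ W₀
  finite : ∀ w ∈ W₀, ∃ L : IntermediateField ℚ (AlgebraicClosure ℚ), FiniteDimensional ℚ L ∧
    ∀ γ ∈ L.fixingSubgroup, ρ γ w = w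
  indep : ∀ (n : ℕ) (w : Fin n → W), (∀ j, w j ∈ W₀) → LinearIndependent ℚ w →
    LinearIndependent ℂ w
  A : Submodule ℚ W
  mem_A : ∀ w, w ∈ A ↔ w ∈ W₀ ∧ ∀ γ, ρ γ w = w

/-- The Hodge structure on `W` (Deligne's theorem of the fixed part): `WQ` is the rational structure
and `h a` is the part of type `(a, -a)`. The last condition says that the Hodge classes in `WQ` are
classes of algebraic cycles; for the cohomology of degree `2` this is the theorem of Lefschetz. -/
structure HodgeSpace {W : Type} [AddCommGroup W] [Module ℂ W] [Module ℚ W]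
    {ρ : Representation ℂ GalQ W} (C : CycleSpace ρ) where
  WQ : Submodule ℚ W
  span : Submodule.span ℂ (WQ : Set W) = ⊤
  h : ℤ → Submodule ℂ W
  sum : ⨆ a, h a = ⊤
  conj : W →ₛₗ[starRingEnd ℂ] W
  conj_injective : Function.Injective conj
  conj_h : ∀ a, ∀ w ∈ h a, conj w ∈ h (-a)
  algebraic : ∀ w ∈ WQ, w ∈ h 0 → w ∈ C.W₀

end Pool.Agent.N184.QP
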