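import Pool.Agent.N184.QP.NagDefs

/-!
# Arbitrary varieties over finitely generated fields of characteristic zero: definitions

Let `k` be a finitely generated field of characteristic `0` and `X` a variety over `k` (a separated
scheme of finite type, not necessarily smooth or proper). Let `U` be a smooth scheme over `ℤ[1 / l]`,
of dimension `e + 1`, with function field `k`, and `f : 𝒳 → U` a model of `X` such that
`R^{2 i} f_! ℚ_l` is lisse and mixed of weights `≤ 2 i`.
We fix an isomorphism of an algebraic closure of `ℚ_l` with `ℂ`.
-/

set_option autoImplicit false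

open NumberField Module Filter Topology

namespace Pool.Agent.N184.QP

/-- The (co)homology of a variety `X` over the finitely generated field `k` of characteristic `0`, for
cycles of dimension `i`. Here `U` is the scheme over `ℤ[1 / l]`, of dimension `e + 1`, with the
set `P` of closed points (`Y` consists of their residue characteristics and degrees), and

* `H` is the group `H_c^{2 i}(X̄)(i)`, with coefficients `ℂ`, and `F y` is the geometric Frobenius
  endomorphism at the closed point `y`. The eigenvalues have absolute value at most `1` (Deligne);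
* `W` is the group `H^0(U ⊗ ℚ̄, W₀ 𝒢)`, with coefficients `ℂ`, where `𝒢` is the dual of
  `R^{2 i} f_! ℚ_l (i)`, with stalk the Borel-Moore homology `H_{2 i}(X̄, ℚ_l(i))`, and `W₀ 𝒢` is
  its part of weight `0`, which is the part of smallest weight. The absolute Galois group of `ℚ`
  acts on `W` by `ρ`. So the invariants of `ρ` are the invariants of the absolute Galois group of
  `k` in `H_{2 i}(X̄, ℚ_l(i))`. If `k` is regular over `ℚ`, then `W` consists of the elements of
  weight `0` of `H_{2 i}(X̄, ℚ_l(i))` fixed by the geometric fundamental group of `U`. It is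
  unramified outside the finite set `S`, and the eigenvalues of the arithmetic Frobenius elements
  `frob p` have absolute value `1`;
* `trace` is the trace formula of Grothendieck for `R^{2 i} f_! ℚ_l (i)` on the fibre of `U` over `p`,
  for `p` outside of the finite set `S`: the quotient of weight `2 e` of the cohomology group with
  compact supports in degree `2 e` is the dual of `W`, twisted by `-e`, and everything else has
  weights at most `2 e - 1` (Deligne), and bounded dimensions. -/
structure OpenModel (e : ℕ) (P H W : Type) [AddCommGroup H] [Module ℂ H] [AddCommGroup W]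
    [Module ℂ W] where
  Y : Pts e P
  F : P → Module.End ℂ H
  weight : ∀ y μ, (F y).HasEigenvalue μ → ‖μ‖ ≤ 1
  ρ : Representation ℂ GalQ W
  S : Finset Nat.Primes
  frob : Nat.Primes → GalQ
  isFrob : ∀ p, p ∉ S → IsFrob p (frob p)
  pureW : ∀ p, p ∉ S → ∀ μ : ℂ, Module.End.HasEigenvalue (ρ (frob p)) μ → ‖μ‖ = 1
  trace : ∃ B : ℝ, ∀ p, p ∉ S → ∀ m : ℕ, 0 < m →
    ‖traceSum Y F p m - (((p : ℕ) : ℂ) ^ e) ^ m * LinearMap.trace ℂ W (ρ (frob p) ^ m)‖ ≤
      B * (((p : ℕ) : ℝ) ^ ((e : ℝ) - 1 / 2)) ^ m

/-- The function `L(X, s + i) = ∏_y det (1 - F_y N(y) ^ (-s - i) | H_c^{2 i}(X̄)) ⁻¹`. -/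
noncomputable def OpenModel.L {e : ℕ} {P H W : Type} [AddCommGroup H] [Module ℂ H]
    [AddCommGroup W] [Module ℂ W] (M : OpenModel e P H W) (s : ℂ) : ℂ :=
  ∏' y : P, (LinearMap.det (1 - ((M.Y.N y : ℂ) ^ (-s)) • M.F y))⁻¹

/-- The `L`-function of the dual of `W`, with the prime numbers in `S` omitted. -/
noncomputable def OpenModel.LW {e : ℕ} {P H W : Type} [AddCommGroup H] [Module ℂ H]
    [AddCommGroup W] [Module ℂ W] (M : OpenModel e P H W) (s : ℂ) : ℂ :=
  ∏' p : {p : Nat.Primes // p ∉ M.S},
    (LinearMap.det (1 - (((p.1 : ℕ) : ℂ) ^ (-s)) • M.ρ (M.frob p.1)))⁻¹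

/-- Algebraic cycles: `W₀` is the rational vector space of the elements of `W` that are classes of
algebraic cycles of dimension `i` on the geometric generic fibre(s), and `B` is the space spanned by
the image of the group `B_i(X)` of the classes of the cycles of dimension `i` on `X`. The space `W₀`
is stable under the Galois group, each element is fixed by the Galois group of some number field,
and linearly independent classes remain linearly independent over `ℂ` (comparison with the Borel-Moore
homology of `X(ℂ)` with rational coefficients). The space `B` is the space of Galois invariants of `W₀`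
(by transfer). -/
structure OpenCycles {e : ℕ} {P H W : Type} [AddCommGroup H] [Module ℂ H] [AddCommGroup W]
    [Module ℂ W] [Module ℚ W] (M : OpenModel e P H W) where
  W₀ : Submodule ℚ W
  stable : ∀ (γ : GalQ) (w : W), w ∈ W₀ → M.ρ γ w ∈ W₀
  finite : ∀ w ∈ W₀, ∃ L : IntermediateField ℚ (AlgebraicClosure ℚ), FiniteDimensional ℚ L ∧
    ∀ γ ∈ L.fixingSubgroup, M.ρ γ w = w
  indep : ∀ (n : ℕ) (w : Fin n → W), (∀ j, w j ∈ W₀) → LinearIndependent ℚ w →
    LinearIndependent ℂ w
  B : Submodule ℚ W
  mem_B : ∀ w, w ∈ B ↔ w ∈ W₀ ∧ ∀ γ, M.ρ γ w = w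

/-- The Hodge structure on `W`, the group of the global sections of the part of weight `0` of the
variation of mixed Hodge structures with fibres `H_{2 i}(X_u(ℂ), ℚ(i))` (Deligne's theorem of the
fixed part): `WQ` is the rational structure and `h a` is the part of type `(a, -a)`. The last
condition says that the Hodge classes in `WQ` are classes of algebraic cycles. If `i = 1` or
`i = dim X - 1` this holds by the theorem of Lefschetz for resolutions of compactifications of the
components of `X` and of subvarieties dominating them. -/
structure OpenHodge {e : ℕ} {P H W : Type} [AddCommGroup H] [Module ℂ H] [AddCommGroup W]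
    [Module ℂ W] [Module ℚ W] {M : OpenModel e P H W} (C : OpenCycles M) where
  WQ : Submodule ℚ W
  span : Submodule.span ℂ (WQ : Set W) = ⊤
  h : ℤ → Submodule ℂ W
  sum : ⨆ a, h a = ⊤
  conj : W →ₛₗ[starRingEnd ℂ] W
  conj_injective : Function.Injective conj
  conj_h : ∀ a, ∀ w ∈ h a, conj w ∈ h (-a)
  algebraic : ∀ w ∈ WQ, w ∈ h 0 → w ∈ C.W₀

end Pool.Agent.N184.QP
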