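import Pool.Agent.N184.QP.EulerC
import Pool.Agent.N184.QP.OpenDefs
import Pool.Agent.N184.QP.Rep
import Pool.Agent.N184.QP.ArtinC

/-!
# The order of the `L`-function of an arbitrary variety
-/

set_option autoImplicit false
set_option linter.unusedSectionVars false

open NumberField Module Filter Topology
open Pool.Agent.H921R2.TatePole

namespace Pool.Agent.N184.QP

section
variable {e : ℕ} {P H W : Type} [AddCommGroup H] [Module ℂ H] [AddCommGroup W] [Module ℂ W]
  [FiniteDimensional ℂ H] [FiniteDimensional ℂ W] (M : OpenModel e P H W)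

lemma OpenModel.bdF (y : P) : Bd (M.F y) := fun μ h => M.weight y μ h

/-- the Frobenius endomorphism -/
noncomputable def OpenModel.Fr (p : Nat.Primes) : Module.End ℂ W := M.ρ (M.frob p)

lemma OpenModel.bdW (p : Nat.Primes) (hp : p ∉ M.S) : Bd (M.Fr p) := fun μ h => (M.pureW p hp μ h).le

lemma OpenModel.hasProd_L' {s : ℂ} (hs : (e : ℝ) + 1 < s.re) :
    HasProd (fun y => (LinearMap.det (1 - ((M.Y.N y : ℂ) ^ (-s)) • M.F y))⁻¹)
      (Complex.exp (LamC M.Y M.F (s - e))) := by
  have h1 : 1 < (s - e).re := by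
    rw [Complex.sub_re, Complex.natCast_re]
    linarith
  have h := hasProd_eulerC M.Y M.bdF h1
  have h2 : ∀ y, M.Y.tC (s - e) y = (M.Y.N y : ℂ) ^ (-s) := by
    intro y
    unfold Pts.tC
    congr 1
    ring
  simp only [h2] at h
  exact h

lemma OpenModel.L_eq {s : ℂ} (hs : (e : ℝ) + 1 < s.re) :
    M.L s = Complex.exp (LamC M.Y M.F (s - e)) := (M.hasProd_L' hs).tprod_eq

lemma OpenModel.hasProd_L {s : ℂ} (hs : (e : ℝ) + 1 < s.re) :
    HasProd (fun y => (LinearMap.det (1 - ((M.Y.N y : ℂ) ^ (-s)) • M.F y))⁻¹) (M.L s) := by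
  rw [M.L_eq hs]
  exact M.hasProd_L' hs

lemma OpenModel.hasProd_LW' {s : ℂ} (hs : 1 < s.re) :
    HasProd (fun p : {p : Nat.Primes // p ∉ M.S} =>
      (LinearMap.det (1 - (((p.1 : ℕ) : ℂ) ^ (-s)) • M.ρ (M.frob p.1)))⁻¹)
      (Complex.exp (logLC M.S M.Fr s)) := hasProd_LC M.bdW hs

lemma OpenModel.LW_eq {s : ℂ} (hs : 1 < s.re) : M.LW s = Complex.exp (logLC M.S M.Fr s) :=
  (M.hasProd_LW' hs).tprod_eq

lemma OpenModel.hasProd_LW {s : ℂ} (hs : 1 < s.re) :
    HasProd (fun p : {p : Nat.Primes // p ∉ M.S} =>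
      (LinearMap.det (1 - (((p.1 : ℕ) : ℂ) ^ (-s)) • M.ρ (M.frob p.1)))⁻¹) (M.LW s) := by
  rw [M.LW_eq hs]
  exact M.hasProd_LW' hs

/-- **Reduction to `W`.** -/
theorem OpenModel.hasPole_iff (r : ℕ) : HasPole M.L (e + 1) r ↔ HasPole M.LW 1 r := by
  obtain ⟨B, hB⟩ := M.trace
  have hac := ac_LamC M.Y M.bdF M.S M.Fr M.bdW B hB
  constructor
  · intro h
    have h1 := h.shift (b := -(e : ℝ))
    rw [show (e : ℝ) + 1 + -(e : ℝ) = 1 by ring] at h1
    refine (h1.mul_exp hac.neg).congr fun s hs => ?_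
    have h2 : ((e : ℝ) + 1) < (s - ((-(e : ℝ) : ℝ) : ℂ)).re := by
      rw [Complex.sub_re, Complex.ofReal_re]
      linarith
    rw [M.LW_eq hs, M.L_eq h2, ← Complex.exp_add]
    congr 1
    have h3 : s - ((-(e : ℝ) : ℝ) : ℂ) - (e : ℂ) = s := by
      push_cast
      ring
    rw [h3]
    ring
  · intro h
    have h1 := (h.mul_exp hac).shift (b := (e : ℝ))
    rw [show (1 : ℝ) + (e : ℝ) = (e : ℝ) + 1 by ring] at h1
    refine h1.congr fun s hs => ?_
    have h2 : 1 < (s - ((e : ℝ) : ℂ)).re := by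
      rw [Complex.sub_re, Complex.ofReal_re]
      linarith
    have h3 : ((e : ℝ) : ℂ) = (e : ℂ) := by push_cast; rfl
    rw [M.LW_eq h2, M.L_eq hs, ← Complex.exp_add, h3]
    congr 1
    ring

variable [Module ℚ W]

/-- **The case of an algebraic fixed part.** -/
theorem OpenCycles.pole {M : OpenModel e P H W} (C : OpenCycles M)
    (hspan : Submodule.span ℂ (C.W₀ : Set W) = ⊤) :
    FiniteDimensional ℚ C.B ∧ finrank ℚ C.B = finrank ℂ M.ρ.invariants ∧
      HasPole M.L (e + 1) (finrank ℚ C.B) := by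
  classical
  obtain ⟨L, _, _, _, res, g, hfrob, hg, hgc, htr, hmean, hdim, hfin⟩ :=
    rep_data M.ρ C.W₀ C.B C.stable C.finite C.indep C.mem_B hspan
  refine ⟨hfin, hdim.symm, ?_⟩
  rw [M.hasPole_iff]
  have hl := hc_class (fun p => res (M.frob p)) M.S (fun p hp => hfrob p _ (M.isFrob p hp)) g hg hgc
  rw [hmean] at hl
  have hl2 : HC (wt M.S M.Fr) ((finrank ℚ C.B : ℚ) : ℂ) := by
    refine hl.congr M.S fun p hp => ?_
    unfold wt
    rw [if_neg hp]
    exact htr _
  have h3 := hl2.ac.add (ac_logLC M.bdW)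
  have h4 : HasPole (fun s => Complex.exp (logLC M.S M.Fr s)) 1 (finrank ℚ C.B) := by
    refine AC.hasPole (h3.congr fun s _ => ?_)
    push_cast
    ring
  exact h4.congr fun s hs => M.LW_eq hs

/-- the classes of cycles span the invariants -/
theorem OpenCycles.span_eq {M : OpenModel e P H W} (C : OpenCycles M)
    (hcast : ∀ (q : ℚ) (w : W), (q : ℂ) • w = q • w)
    (hfin : FiniteDimensional ℚ C.B) (hdim : finrank ℚ C.B = finrank ℂ M.ρ.invariants) :
    Submodule.span ℂ (C.B : Set W) = M.ρ.invariants := by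
  classical
  have hle : Submodule.span ℂ (C.B : Set W) ≤ M.ρ.invariants := by
    rw [Submodule.span_le]
    intro w hw
    exact fun γ => ((C.mem_B w).mp hw).2 γ
  refine Submodule.eq_of_le_of_finrank_eq hle ?_
  rw [← hdim]
  let b := Module.finBasis ℚ C.B
  have hli : LinearIndependent ℂ fun i => ((b i : C.B) : W) := by
    refine C.indep _ _ (fun i => ((C.mem_B _).mp (b i).2).1) ?_
    exact b.linearIndependent.map' C.B.subtype (Submodule.ker_subtype _)
  have hspan : Submodule.span ℂ (C.B : Set W) =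
      Submodule.span ℂ (Set.range fun i => ((b i : C.B) : W)) := by
    refine le_antisymm (Submodule.span_le.mpr fun w hw => ?_) (Submodule.span_mono ?_)
    · have h1 := b.sum_repr ⟨w, hw⟩
      have h2 := congrArg (C.B.subtype) h1
      rw [map_sum] at h2
      simp only [map_smul, Submodule.subtype_apply] at h2
      rw [← h2]
      refine Submodule.sum_mem _ fun i _ => ?_
      rw [← hcast]
      exact Submodule.smul_mem _ _ (Submodule.subset_span ⟨i, rfl⟩)
    · rintro _ ⟨i, rfl⟩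
      exact (b i).2
  rw [hspan, finrank_span_eq_card hli, Fintype.card_fin]

/-- no classes of type `(a, -a)`, `a > 0` -/
theorem OpenHodge.span_eq_top {M : OpenModel e P H W} {C : OpenCycles M} (D : OpenHodge C)
    (hD : ∀ a, 0 < a → D.h a = ⊥) : Submodule.span ℂ (C.W₀ : Set W) = ⊤ := by
  have h1 : ∀ a : ℤ, a ≠ 0 → D.h a = ⊥ := by
    intro a ha
    rcases lt_or_gt_of_ne ha with h | h
    · rw [eq_bot_iff]
      intro w hw
      have h2 := D.conj_h a w hw
      rw [hD (-a) (by omega), Submodule.mem_bot] at h2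
      rw [Submodule.mem_bot]
      exact D.conj_injective (by rw [h2, map_zero])
    · exact hD a h
  have h2 : D.h 0 = ⊤ := by
    rw [eq_top_iff, ← D.sum]
    refine iSup_le fun a => ?_
    by_cases ha : a = 0
    · rw [ha]
    · rw [h1 a ha]; exact bot_le
  rw [eq_top_iff, ← D.span]
  refine Submodule.span_mono fun w hw => ?_
  exact D.algebraic w hw (by rw [h2]; exact Submodule.mem_top)

end

end Pool.Agent.N184.QP
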