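import Pool.Agent.N184.QP.Zc
import Pool.Agent.N184.QP.NagDefs

/-!
# Poles of functions given by their logarithms in a half plane
-/

set_option autoImplicit false

open Filter Topology

namespace Pool.Agent.N184.QP

lemma sub_one_mem_slit {s : ℂ} (hs : 1 < s.re) : s - 1 ∈ Complex.slitPlane := by
  rw [Complex.mem_slitPlane_iff]
  left
  simp only [Complex.sub_re, Complex.one_re]
  linarith

lemma exp_mul_log {s : ℂ} (hs : 1 < s.re) (r : ℕ) :
    Complex.exp ((r : ℂ) * Complex.log (s - 1)) = (s - 1) ^ r := by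
  rw [Complex.exp_nat_mul, Complex.exp_log (Complex.slitPlane_ne_zero (sub_one_mem_slit hs))]

/-- half balls -/
lemma exists_half (ε : ℝ) (hε : 0 < ε) :
    ∃ x₀, x₀ ∈ Metric.ball (1 : ℂ) ε ∩ {s | 1 < s.re} := by
  refine ⟨((1 + ε / 2 : ℝ) : ℂ), ?_, ?_⟩
  · rw [Metric.mem_ball, dist_eq_norm]
    have : ((1 + ε / 2 : ℝ) : ℂ) - 1 = ((ε / 2 : ℝ) : ℂ) := by push_cast; ring
    rw [this, Complex.norm_real, Real.norm_eq_abs, abs_of_pos (by linarith)]
    linarith
  · simp only [Set.mem_ofPred_eq, Complex.ofReal_re]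
    linarith

lemma isOpen_half (ε : ℝ) : IsOpen (Metric.ball (1 : ℂ) ε ∩ {s | 1 < s.re}) :=
  Metric.isOpen_ball.inter (isOpen_lt continuous_const Complex.continuous_re)

lemma const_half {ε : ℝ} {h : ℂ → ℂ}
    (hd : ∀ s ∈ Metric.ball (1 : ℂ) ε ∩ {s | 1 < s.re}, HasDerivAt h 0 s) :
    ∀ x ∈ Metric.ball (1 : ℂ) ε ∩ {s | 1 < s.re}, ∀ y ∈ Metric.ball (1 : ℂ) ε ∩ {s | 1 < s.re},
      h x = h y := by
  have hconv : Convex ℝ (Metric.ball (1 : ℂ) ε ∩ {s | 1 < s.re}) :=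
    (convex_ball _ _).inter (convex_halfSpace_re_gt 1)
  intro x hx y hy
  exact (isOpen_half ε).is_const_of_deriv_eq_zero hconv.isPreconnected
    (fun z hz => (hd z hz).differentiableAt.differentiableWithinAt) (fun z hz => (hd z hz).deriv)
    hx hy

/-- the exponential of a function with a logarithmic singularity -/
lemma AC.hasPole {ℓ : ℂ → ℂ} {r : ℕ} (h : AC (fun s => ℓ s + (r : ℂ) * Complex.log (s - 1))) :
    HasPole (fun s => Complex.exp (ℓ s)) 1 r := by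
  obtain ⟨g, hg, hg2⟩ := h
  have h10 : ((1 : ℝ) : ℂ) = 1 := by norm_num
  refine ⟨fun s => Complex.exp (g s), ?_, Complex.exp_ne_zero _, ?_⟩
  · rw [h10]; exact hg.cexp
  · rw [h10]
    filter_upwards [hg2] with s hs h1
    rw [← hs h1, Complex.exp_add, exp_mul_log h1]
    ring

/-- the converse -/
lemma HasPole.ac {ℓ : ℂ → ℂ} {r : ℕ} (hℓ : ∀ s : ℂ, 1 < s.re → DifferentiableAt ℂ ℓ s)
    (h : HasPole (fun s => Complex.exp (ℓ s)) 1 r) :
    AC (fun s => ℓ s + (r : ℂ) * Complex.log (s - 1)) := by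
  obtain ⟨g, hg, hg1, hg2⟩ := h
  have h10 : ((1 : ℝ) : ℂ) = 1 := by norm_num
  rw [h10] at hg hg1 hg2
  set b : ℂ → ℂ := fun s => Complex.log (g s / g 1) + Complex.log (g 1) with hb
  have hslit : g 1 / g 1 ∈ Complex.slitPlane := by
    rw [div_self hg1]
    exact Complex.one_mem_slitPlane
  have hban : AnalyticAt ℂ b 1 := (((hg.div analyticAt_const hg1).clog hslit)).add analyticAt_const
  have hq : ContinuousAt (fun s => g s / g 1) 1 := hg.continuousAt.div_const _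
  have hev : ∀ᶠ s in 𝓝 (1 : ℂ), AnalyticAt ℂ b s ∧ g s / g 1 ∈ Complex.slitPlane ∧
      (1 < s.re → (s - 1) ^ r * Complex.exp (ℓ s) = g s) :=
    hban.eventually_analyticAt.and ((hq.eventually_mem
      (Complex.isOpen_slitPlane.mem_nhds hslit)).and hg2)
  obtain ⟨ε, hε, hball⟩ := Metric.eventually_nhds_iff_ball.mp hev
  set h : ℂ → ℂ := fun s => ℓ s + (r : ℂ) * Complex.log (s - 1) - b s with hh
  have hdiff : ∀ s ∈ Metric.ball (1 : ℂ) ε ∩ {s | 1 < s.re}, DifferentiableAt ℂ h s := by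
    intro s hs
    have hs1 : 1 < s.re := hs.2
    refine ((hℓ s hs1).add ?_).sub (hball s hs.1).1.differentiableAt
    exact ((differentiableAt_id.sub (differentiableAt_const _)).clog
      (sub_one_mem_slit hs1)).const_mul _
  have hexp : ∀ s ∈ Metric.ball (1 : ℂ) ε ∩ {s | 1 < s.re}, Complex.exp (h s) = 1 := by
    intro s hs
    have hs1 : 1 < s.re := hs.2
    obtain ⟨_, hsl, hgs⟩ := hball s hs.1
    have hgne : g s / g 1 ≠ 0 := Complex.slitPlane_ne_zero hsl
    have hgs0 : g s ≠ 0 := fun h0 => hgne (by rw [h0, zero_div])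
    simp only [hh, hb]
    rw [Complex.exp_sub, Complex.exp_add, Complex.exp_add, Complex.exp_log hgne,
      Complex.exp_log hg1, exp_mul_log hs1, div_mul_cancel₀ _ hg1, mul_comm, hgs hs1,
      div_self hgs0]
  have hder : ∀ s ∈ Metric.ball (1 : ℂ) ε ∩ {s | 1 < s.re}, HasDerivAt h 0 s := by
    intro s hs
    have h4 : HasDerivAt (fun z => Complex.exp (h z)) (Complex.exp (h s) * deriv h s) s :=
      (hdiff s hs).hasDerivAt.cexp
    have h5 : HasDerivAt (fun z => Complex.exp (h z)) 0 s := by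
      refine (hasDerivAt_const s (1 : ℂ)).congr_of_eventuallyEq ?_
      filter_upwards [(isOpen_half ε).mem_nhds hs] with z hz
      exact hexp z hz
    have h6 := h4.unique h5
    rw [hexp s hs, one_mul] at h6
    rw [← h6]
    exact (hdiff s hs).hasDerivAt
  obtain ⟨x₀, hx₀⟩ := exists_half ε hε
  refine ⟨fun s => b s + h x₀, hban.add analyticAt_const, ?_⟩
  filter_upwards [Metric.ball_mem_nhds (1 : ℂ) hε] with s hs hs1
  have h7 := const_half hder s ⟨hs, hs1⟩ x₀ hx₀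
  rw [← h7]
  simp only [hh]
  ring

lemma hasDerivAt_log {s : ℂ} (hs : 1 < s.re) (c : ℂ) :
    HasDerivAt (fun z : ℂ => c * Complex.log (z - 1)) (c * (s - 1)⁻¹) s := by
  have h2 : HasDerivAt (fun z : ℂ => z - 1) 1 s := (hasDerivAt_id s).sub_const 1
  have h3 := (h2.clog (sub_one_mem_slit hs)).const_mul c
  rwa [one_div] at h3

/-- the derivative -/
lemma AC.hasRes {ℓ ℓ' : ℂ → ℂ} {c : ℂ} (hℓ : ∀ s : ℂ, 1 < s.re → HasDerivAt ℓ (-ℓ' s) s)
    (h : AC (fun s => ℓ s + c * Complex.log (s - 1))) : HasRes ℓ' 1 c := by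
  obtain ⟨g, hg, hg2⟩ := h
  have h10 : ((1 : ℝ) : ℂ) = 1 := by norm_num
  refine ⟨fun s => -deriv g s, by rw [h10]; exact hg.deriv.fun_neg, ?_⟩
  rw [h10]
  have hev := hg2.eventually_nhds
  filter_upwards [hev, hg.eventually_analyticAt] with s hs hgs h1
  have heq : ℓ =ᶠ[𝓝 s] fun w => g w - c * Complex.log (w - 1) := by
    have hopen1 : {z : ℂ | 1 < z.re} ∈ 𝓝 s :=
      (isOpen_lt continuous_const Complex.continuous_re).mem_nhds h1
    filter_upwards [hs, hopen1] with w hw hw1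
    rw [← hw hw1]
    ring
  have hder := heq.deriv_eq
  rw [(hgs.differentiableAt.hasDerivAt.fun_sub (hasDerivAt_log h1 c)).deriv, (hℓ s h1).deriv] at hder
  rw [neg_eq_iff_eq_neg] at hder
  rw [hder, div_eq_mul_inv]
  ring

/-- the converse -/
lemma HasRes.ac {ℓ ℓ' : ℂ → ℂ} {c : ℂ} (hℓ : ∀ s : ℂ, 1 < s.re → HasDerivAt ℓ (-ℓ' s) s)
    (h : HasRes ℓ' 1 c) : AC (fun s => ℓ s + c * Complex.log (s - 1)) := by
  obtain ⟨g, hg, hg2⟩ := h
  have h10 : ((1 : ℝ) : ℂ) = 1 := by norm_num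
  rw [h10] at hg hg2
  obtain ⟨ε, hε, hball⟩ := Metric.eventually_nhds_iff_ball.mp (hg.eventually_analyticAt.and hg2)
  have hdo : DifferentiableOn ℂ g (Metric.ball 1 ε) := fun s hs =>
    (hball s hs).1.differentiableAt.differentiableWithinAt
  obtain ⟨G, hG⟩ := hdo.isExactOn_ball
  have hGan : AnalyticAt ℂ G 1 := by
    have h1 : DifferentiableOn ℂ G (Metric.ball 1 ε) := fun s hs =>
      (hG s hs).differentiableAt.differentiableWithinAt
    exact h1.analyticAt (Metric.ball_mem_nhds 1 hε)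
  have hder : ∀ s ∈ Metric.ball (1 : ℂ) ε ∩ {s | 1 < s.re},
      HasDerivAt (fun s => ℓ s + c * Complex.log (s - 1) + G s) 0 s := by
    intro s hs
    have hs1 : 1 < s.re := hs.2
    have h1 := ((hℓ s hs1).add (hasDerivAt_log hs1 c)).add (hG s hs.1)
    have h2 := (hball s hs.1).2 hs1
    have h3 : -ℓ' s + c * (s - 1)⁻¹ + g s = 0 := by
      rw [h2, div_eq_mul_inv]
      ring
    rw [h3] at h1
    exact h1
  obtain ⟨x₀, hx₀⟩ := exists_half ε hε
  set κ : ℂ := ℓ x₀ + c * Complex.log (x₀ - 1) + G x₀ with hκ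
  refine ⟨fun s => κ - G s, analyticAt_const.sub hGan, ?_⟩
  filter_upwards [Metric.ball_mem_nhds (1 : ℂ) hε] with s hs hs1
  have h7 := const_half hder s ⟨hs, hs1⟩ x₀ hx₀
  rw [hκ, ← h7]
  ring

lemma HasRes.congr' {F G : ℂ → ℂ} {a : ℝ} {c : ℂ} (hF : HasRes F a c)
    (h : ∀ᶠ s : ℂ in 𝓝 a, a < s.re → G s = F s) : HasRes G a c := by
  obtain ⟨g, hg, hg2⟩ := hF
  refine ⟨g, hg, ?_⟩
  filter_upwards [hg2, h] with s hs h2 h1
  rw [h2 h1, hs h1]

lemma HasPole.congr {F G : ℂ → ℂ} {a : ℝ} {r : ℕ} (hF : HasPole F a r)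
    (h : ∀ s : ℂ, a < s.re → G s = F s) : HasPole G a r := by
  obtain ⟨g, hg, hg1, hg2⟩ := hF
  refine ⟨g, hg, hg1, ?_⟩
  filter_upwards [hg2] with s hs h1
  rw [h s h1, hs h1]

/-- multiplication by a nowhere vanishing function -/
lemma HasPole.mul_exp {F A : ℂ → ℂ} {r : ℕ} (hF : HasPole F 1 r) (hA : AC A) :
    HasPole (fun s => F s * Complex.exp (A s)) 1 r := by
  obtain ⟨f, hf, hf1, hf2⟩ := hF
  obtain ⟨g, hg, hg2⟩ := hA
  have h10 : ((1 : ℝ) : ℂ) = 1 := by norm_num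
  rw [h10] at hf hf1 hf2
  refine ⟨fun s => f s * Complex.exp (g s), ?_, ?_, ?_⟩
  · rw [h10]; exact hf.fun_mul hg.cexp
  · rw [h10]; exact mul_ne_zero hf1 (Complex.exp_ne_zero _)
  · rw [h10]
    filter_upwards [hf2, hg2] with s h1 h2 h
    rw [← h1 h, ← h2 h]
    ring

/-- a shift of the variable -/
lemma HasPole.shift {F : ℂ → ℂ} {a b : ℝ} {r : ℕ} (hF : HasPole F a r) :
    HasPole (fun s => F (s - b)) (a + b) r := by
  obtain ⟨g, hg, hg1, hg2⟩ := hF
  have hsub : ((a + b : ℝ) : ℂ) - b = a := by push_cast; ring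
  have hcont : Tendsto (fun s : ℂ => s - b) (𝓝 ((a + b : ℝ) : ℂ)) (𝓝 (a : ℂ)) := by
    rw [← hsub]
    exact (continuous_id.sub continuous_const).tendsto _
  refine ⟨fun s => g (s - b), ?_, ?_, ?_⟩
  · have h1 : AnalyticAt ℂ (fun s : ℂ => s - b) ((a + b : ℝ) : ℂ) :=
      analyticAt_id.sub analyticAt_const
    exact AnalyticAt.fun_comp (by rw [hsub]; exact hg) h1
  · simp only [hsub]; exact hg1
  · filter_upwards [hcont.eventually hg2] with s hs h
    have h2 : a < (s - b).re := by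
      rw [Complex.sub_re, Complex.ofReal_re]
      linarith
    rw [← hs h2]
    congr 2
    push_cast
    ring

end Pool.Agent.N184.QP
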