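import Pool.Agent.N184.QP.Zeta

/-!
# Sums over the closed points of a scheme of finite type over the integers
-/

set_option autoImplicit false

open Filter Topology
open Pool.Agent.H921R2.TatePole

namespace Pool.Agent.N184.QP

/-- The closed points `P` of a scheme of finite type over `ℤ` whose fibres over the prime numbers
have dimension at most `e`: the residue field of the point `y` has characteristic `ch y` and degree
`deg y` over its prime field. There are finitely many points of given characteristic `p` and degree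
`d`, at most `C * p ^ (d * e)`. -/
structure Pts (e : ℕ) (P : Type) where
  ch : P → Nat.Primes
  deg : P → ℕ
  deg_pos : ∀ y, 0 < deg y
  fin : ∀ (p : Nat.Primes) (d : ℕ), {y | ch y = p ∧ deg y = d}.Finite
  count : ∃ C : ℝ, ∀ (p : Nat.Primes) (d : ℕ),
    (Nat.card {y // ch y = p ∧ deg y = d} : ℝ) ≤ C * ((p : ℕ) : ℝ) ^ (d * e)

/-- the number of elements of the residue field -/
def Pts.N {e : ℕ} {P : Type} (Y : Pts e P) (y : P) : ℕ := (Y.ch y : ℕ) ^ Y.deg y

section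
variable {e : ℕ} {P : Type} (Y : Pts e P)

lemma Pts.two_le (y : P) : 2 ≤ Y.N y := by
  unfold Pts.N
  exact (Y.ch y).prop.two_le.trans (Nat.le_self_pow (Y.deg_pos y).ne' _)

lemma Pts.N_pos (y : P) : (0 : ℝ) < Y.N y := by
  have := Y.two_le y
  exact_mod_cast (by omega : 0 < Y.N y)

lemma Pts.rpow_le_half (y : P) {x : ℝ} (hx : 1 ≤ x) : (Y.N y : ℝ) ^ (-(e + x)) ≤ 1 / 2 := by
  have h2 : (2 : ℝ) ≤ (Y.N y : ℝ) := by exact_mod_cast Y.two_le y
  calc (Y.N y : ℝ) ^ (-(e + x)) ≤ (Y.N y : ℝ) ^ (-1 : ℝ) := by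
        refine Real.rpow_le_rpow_of_exponent_le (by linarith) ?_
        have : (0 : ℝ) ≤ e := by positivity
        linarith
    _ = ((Y.N y : ℝ))⁻¹ := by rw [Real.rpow_neg_one]
    _ ≤ 1 / 2 := by
        rw [one_div]
        exact inv_anti₀ (by norm_num) h2

/-- sums over the points over one prime number -/
lemma Pts.sum_le_one {C : ℝ} (hC : ∀ (p : Nat.Primes) (d : ℕ),
    (Nat.card {y // Y.ch y = p ∧ Y.deg y = d} : ℝ) ≤ C * ((p : ℕ) : ℝ) ^ (d * e)) (p : Nat.Primes)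
    {x : ℝ} (hx : 1 ≤ x) (u : Finset P) (hu : ∀ y ∈ u, Y.ch y = p) :
    ∑ y ∈ u, (Y.N y : ℝ) ^ (-(e + x)) ≤ 2 * C * ((p : ℕ) : ℝ) ^ (-x) := by
  classical
  have hp0 : (0 : ℝ) < (p : ℕ) := by exact_mod_cast p.prop.pos
  have hC0 : 0 ≤ C := by
    have h := hC p 0
    rw [zero_mul, pow_zero, mul_one] at h
    exact le_trans (by positivity) h
  have hq : ((p : ℕ) : ℝ) ^ (-x) ≤ 1 / 2 := prime_rpow_le_half p hx
  have hq0 : 0 ≤ ((p : ℕ) : ℝ) ^ (-x) := by positivity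
  have h1 : ∑ y ∈ u, (Y.N y : ℝ) ^ (-(e + x)) =
      ∑ d ∈ u.image Y.deg, ∑ y ∈ u with Y.deg y = d, (Y.N y : ℝ) ^ (-(e + x)) := by
    rw [Finset.sum_fiberwise_of_maps_to]
    intro y hy
    exact Finset.mem_image_of_mem _ hy
  have h2 : ∀ d ∈ u.image Y.deg, ∑ y ∈ u with Y.deg y = d, (Y.N y : ℝ) ^ (-(e + x)) ≤
      C * (((p : ℕ) : ℝ) ^ (-x)) ^ d := by
    intro d _
    have h3 : ∀ y ∈ u.filter (fun y => Y.deg y = d), (Y.N y : ℝ) ^ (-(e + x)) =
        ((((p : ℕ) : ℝ) ^ d) ^ (-(e + x)) : ℝ) := by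
      intro y hy
      obtain ⟨hy1, hy2⟩ := Finset.mem_filter.mp hy
      unfold Pts.N
      rw [hu y hy1, hy2]
      push_cast
      rfl
    rw [Finset.sum_congr rfl h3, Finset.sum_const, nsmul_eq_mul]
    have h4 : ((u.filter (fun y => Y.deg y = d)).card : ℝ) ≤ C * ((p : ℕ) : ℝ) ^ (d * e) := by
      refine le_trans ?_ (hC p d)
      have hfin : Finite {y // Y.ch y = p ∧ Y.deg y = d} := (Y.fin p d).to_subtype
      have := Fintype.ofFinite {y // Y.ch y = p ∧ Y.deg y = d}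
      rw [Nat.card_eq_fintype_card, ← Finset.card_univ]
      norm_cast
      refine Finset.card_le_card_of_surjOn (fun y => y.1) ?_
      intro y hy
      obtain ⟨hy1, hy2⟩ := Finset.mem_filter.mp hy
      exact ⟨⟨y, hu y hy1, hy2⟩, by simp, rfl⟩
    calc ((u.filter (fun y => Y.deg y = d)).card : ℝ) * (((p : ℕ) : ℝ) ^ d) ^ (-(e + x))
        ≤ C * ((p : ℕ) : ℝ) ^ (d * e) * (((p : ℕ) : ℝ) ^ d) ^ (-(e + x)) :=
          mul_le_mul_of_nonneg_right h4 (by positivity)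
      _ = C * (((p : ℕ) : ℝ) ^ (-x)) ^ d := by
          rw [mul_assoc]
          congr 1
          rw [← Real.rpow_natCast, ← Real.rpow_natCast, ← Real.rpow_natCast,
            ← Real.rpow_mul hp0.le, ← Real.rpow_mul hp0.le, ← Real.rpow_add hp0]
          congr 1
          push_cast
          ring
  rw [h1]
  refine (Finset.sum_le_sum h2).trans ?_
  rw [← Finset.mul_sum]
  have h5 : ∑ d ∈ u.image Y.deg, (((p : ℕ) : ℝ) ^ (-x)) ^ d ≤ 2 * ((p : ℕ) : ℝ) ^ (-x) := by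
    have hs : HasSum (fun n : ℕ => (((p : ℕ) : ℝ) ^ (-x)) ^ (n + 1))
        ((1 - ((p : ℕ) : ℝ) ^ (-x))⁻¹ * ((p : ℕ) : ℝ) ^ (-x)) := by
      have h7 := (hasSum_geometric_of_lt_one hq0 (by linarith : ((p : ℕ) : ℝ) ^ (-x) < 1)).mul_right
        (((p : ℕ) : ℝ) ^ (-x))
      have h8 : (fun n : ℕ => (((p : ℕ) : ℝ) ^ (-x)) ^ (n + 1)) =
          fun n : ℕ => (((p : ℕ) : ℝ) ^ (-x)) ^ n * ((p : ℕ) : ℝ) ^ (-x) := by
        funext n
        rw [_root_.pow_succ]
      rw [h8]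
      exact h7
    have hpos : ∀ d ∈ u.image Y.deg, 0 < d := by
      intro d hd
      obtain ⟨y, _, rfl⟩ := Finset.mem_image.mp hd
      exact Y.deg_pos y
    generalize u.image Y.deg = U at hpos
    have h6 : ∑ d ∈ U, (((p : ℕ) : ℝ) ^ (-x)) ^ d =
        ∑ d ∈ U.image (fun d => d - 1), (((p : ℕ) : ℝ) ^ (-x)) ^ (d + 1) := by
      symm
      rw [Finset.sum_image]
      · refine Finset.sum_congr rfl fun d hd => ?_
        have := hpos d hd
        congr 1
        omega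
      · intro a ha b hb hab
        have h1 := hpos a ha
        have h2 := hpos b hb
        simp only at hab
        omega
    rw [h6]
    refine (sum_le_hasSum _ (fun n _ => by positivity) hs).trans ?_
    refine mul_le_mul_of_nonneg_right ?_ hq0
    rw [inv_le_comm₀ (by linarith) (by norm_num)]
    linarith
  calc C * ∑ d ∈ u.image Y.deg, (((p : ℕ) : ℝ) ^ (-x)) ^ d ≤ C * (2 * ((p : ℕ) : ℝ) ^ (-x)) :=
        mul_le_mul_of_nonneg_left h5 hC0
    _ = _ := by ring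

/-- sums over all points -/
lemma Pts.sum_le {C : ℝ} (hC : ∀ (p : Nat.Primes) (d : ℕ),
    (Nat.card {y // Y.ch y = p ∧ Y.deg y = d} : ℝ) ≤ C * ((p : ℕ) : ℝ) ^ (d * e))
    {x : ℝ} (hx : 1 < x) (u : Finset P) :
    ∑ y ∈ u, (Y.N y : ℝ) ^ (-(e + x)) ≤ 2 * C * ∑' p : Nat.Primes, ((p : ℕ) : ℝ) ^ (-x) := by
  classical
  have hC0 : 0 ≤ C := by
    have h := hC ⟨2, Nat.prime_two⟩ 0
    rw [zero_mul, pow_zero, mul_one] at h
    exact le_trans (by positivity) h
  have h1 : ∑ y ∈ u, (Y.N y : ℝ) ^ (-(e + x)) =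
      ∑ p ∈ u.image Y.ch, ∑ y ∈ u with Y.ch y = p, (Y.N y : ℝ) ^ (-(e + x)) := by
    rw [Finset.sum_fiberwise_of_maps_to]
    intro y hy
    exact Finset.mem_image_of_mem _ hy
  rw [h1]
  refine (Finset.sum_le_sum fun p _ => Y.sum_le_one hC p hx.le _ fun y hy =>
    (Finset.mem_filter.mp hy).2).trans ?_
  rw [← Finset.mul_sum]
  refine mul_le_mul_of_nonneg_left ?_ (by positivity)
  exact Summable.sum_le_tsum _ (fun p _ => by positivity) (summable_primes_rpow hx)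

lemma Pts.summable {x : ℝ} (hx : 1 < x) : Summable fun y => (Y.N y : ℝ) ^ (-(e + x)) := by
  obtain ⟨C, hC⟩ := Y.count
  exact summable_of_sum_le (fun y => by positivity) (fun u => Y.sum_le hC hx u)

lemma Pts.summable_one (p : Nat.Primes) {x : ℝ} (hx : 1 ≤ x) :
    Summable fun y : {y // Y.ch y = p} => (Y.N y.1 : ℝ) ^ (-(e + x)) := by
  obtain ⟨C, hC⟩ := Y.count
  refine summable_of_sum_le (fun y => by positivity) (c := 2 * C * ((p : ℕ) : ℝ) ^ (-x)) (fun u => ?_)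
  have h := Y.sum_le_one hC p hx (u.map (Function.Embedding.subtype _)) (by
    intro y hy
    obtain ⟨z, _, rfl⟩ := Finset.mem_map.mp hy
    exact z.2)
  rwa [Finset.sum_map] at h

lemma Pts.tsum_one_le {C : ℝ} (hC : ∀ (p : Nat.Primes) (d : ℕ),
    (Nat.card {y // Y.ch y = p ∧ Y.deg y = d} : ℝ) ≤ C * ((p : ℕ) : ℝ) ^ (d * e))
    (p : Nat.Primes) {x : ℝ} (hx : 1 ≤ x) :
    ∑' y : {y // Y.ch y = p}, (Y.N y.1 : ℝ) ^ (-(e + x)) ≤ 2 * C * ((p : ℕ) : ℝ) ^ (-x) := by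
  refine Real.tsum_le_of_sum_le (fun y => by positivity) (fun u => ?_)
  have h := Y.sum_le_one hC p hx (u.map (Function.Embedding.subtype _)) (by
    intro y hy
    obtain ⟨z, _, rfl⟩ := Finset.mem_map.mp hy
    exact z.2)
  rwa [Finset.sum_map] at h

end

end Pool.Agent.N184.QP
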