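import Pool.Agent.N184.QP.Zeta
import Pool.Agent.N184.QP.Eig
import Pool.Agent.N184.QP.Artin
import Pool.Agent.H484R2.Zeta

/-!
# Analytic continuation of sums over primes of degree one near `1`
-/

set_option autoImplicit false

open Filter Topology NumberField IsDedekindDomain
open Pool.Agent.H921R2.TatePole

namespace Pool.Agent.N184.QP

/-! ### Functions with an analytic continuation near `1` -/

/-- the function `F` on the half plane `Re s > 1` extends to an analytic function near `1` -/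
def AC (F : ℂ → ℂ) : Prop :=
  ∃ g : ℂ → ℂ, AnalyticAt ℂ g 1 ∧ ∀ᶠ s in 𝓝 (1 : ℂ), 1 < s.re → F s = g s

lemma AC.congr {F G : ℂ → ℂ} (hF : AC F) (h : ∀ s : ℂ, 1 < s.re → G s = F s) : AC G := by
  obtain ⟨g, hg, hg2⟩ := hF
  refine ⟨g, hg, ?_⟩
  filter_upwards [hg2] with s hs h1
  rw [h s h1, hs h1]

lemma AC.congr' {F G : ℂ → ℂ} (hF : AC F)
    (h : ∀ᶠ s : ℂ in 𝓝 1, 1 < s.re → G s = F s) : AC G := by
  obtain ⟨g, hg, hg2⟩ := hF
  refine ⟨g, hg, ?_⟩
  filter_upwards [hg2, h] with s hs h2 h1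
  rw [h2 h1, hs h1]

lemma AC.add {F G : ℂ → ℂ} (hF : AC F) (hG : AC G) : AC (fun s => F s + G s) := by
  obtain ⟨f, hf, hf2⟩ := hF
  obtain ⟨g, hg, hg2⟩ := hG
  refine ⟨fun s => f s + g s, hf.fun_add hg, ?_⟩
  filter_upwards [hf2, hg2] with s h1 h2 h
  rw [h1 h, h2 h]

lemma AC.neg {F : ℂ → ℂ} (hF : AC F) : AC (fun s => -F s) := by
  obtain ⟨f, hf, hf2⟩ := hF
  refine ⟨fun s => -f s, hf.fun_neg, ?_⟩
  filter_upwards [hf2] with s h1 h
  rw [h1 h]

lemma AC.sub {F G : ℂ → ℂ} (hF : AC F) (hG : AC G) : AC (fun s => F s - G s) :=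
  (hF.add hG.neg).congr fun _ _ => sub_eq_add_neg _ _

lemma AC.const_mul {F : ℂ → ℂ} (hF : AC F) (c : ℂ) : AC (fun s => c * F s) := by
  obtain ⟨f, hf, hf2⟩ := hF
  refine ⟨fun s => c * f s, analyticAt_const.fun_mul hf, ?_⟩
  filter_upwards [hf2] with s h1 h
  rw [h1 h]

lemma AC.of_analyticAt {F : ℂ → ℂ} (hF : AnalyticAt ℂ F 1) : AC F :=
  ⟨F, hF, Eventually.of_forall fun _ _ => rfl⟩

/-- the half plane `Re s > 3 / 4` -/
def HP34 : Set ℂ := {s | (3 / 4 : ℝ) < s.re}

lemma isOpen_HP34 : IsOpen HP34 := isOpen_lt continuous_const Complex.continuous_re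

lemma one_mem_HP34 : (1 : ℂ) ∈ HP34 := by
  simp only [HP34, Set.mem_ofPred_eq, Complex.one_re]
  norm_num

lemma AC.of_differentiableOn {F : ℂ → ℂ} (hF : DifferentiableOn ℂ F HP34) : AC F :=
  AC.of_analyticAt (hF.analyticAt (isOpen_HP34.mem_nhds one_mem_HP34))

/-- a uniformly convergent series of analytic functions -/
lemma AC.tsum {ι : Type*} {F : ι → ℂ → ℂ} {u : ι → ℝ} (hu : Summable u)
    (hF : ∀ i, DifferentiableOn ℂ (F i) HP34) (hb : ∀ i, ∀ s ∈ HP34, ‖F i s‖ ≤ u i) :
    AC (fun s => ∑' i, F i s) :=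
  AC.of_differentiableOn (Complex.differentiableOn_tsum_of_summable_norm hu hF isOpen_HP34 hb)

/-- the numbers `n^{-s}` -/
lemma norm_cpow_neg_nat {n : ℕ} (hn : 0 < n) (s : ℂ) : ‖(n : ℂ) ^ (-s)‖ = (n : ℝ) ^ (-s.re) := by
  rw [Complex.norm_natCast_cpow_of_pos hn, Complex.neg_re]

lemma two_rpow_le : (2 : ℝ) ^ (-(3 / 4 : ℝ)) ≤ 3 / 4 := by
  have h1 : ((2 : ℝ) ^ (-(3 / 4 : ℝ))) ^ 4 ≤ (3 / 4 : ℝ) ^ 4 := by
    rw [← Real.rpow_natCast, ← Real.rpow_mul (by norm_num)]
    have : (-(3 / 4 : ℝ)) * ((4 : ℕ) : ℝ) = -(3 : ℕ) := by norm_num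
    rw [this, Real.rpow_neg (by norm_num), Real.rpow_natCast]
    norm_num
  exact le_of_pow_le_pow_left₀ (by norm_num) (by norm_num) h1

lemma rpow_le_34 {n : ℕ} (hn : 2 ≤ n) {x : ℝ} (hx : 3 / 4 ≤ x) : (n : ℝ) ^ (-x) ≤ 3 / 4 := by
  have hn' : (2 : ℝ) ≤ n := by exact_mod_cast hn
  calc (n : ℝ) ^ (-x) ≤ (n : ℝ) ^ (-(3 / 4 : ℝ)) :=
        Real.rpow_le_rpow_of_exponent_le (by linarith) (by linarith)
    _ ≤ (2 : ℝ) ^ (-(3 / 4 : ℝ)) :=
        Real.rpow_le_rpow_of_nonpos (by norm_num) hn' (by norm_num)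
    _ ≤ 3 / 4 := two_rpow_le

/-- the estimate for the logarithm -/
lemma norm_ell_sub_le' {z : ℂ} (hz : ‖z‖ ≤ 3 / 4) : ‖ell z - z‖ ≤ 2 * ‖z‖ ^ 2 := by
  have h := Complex.norm_log_one_add_sub_self_le (z := -z) (by rw [norm_neg]; linarith)
  rw [norm_neg] at h
  have h1 : ell z - z = -(Complex.log (1 + -z) - -z) := by
    unfold ell
    ring_nf
  rw [h1, norm_neg]
  refine h.trans ?_
  have h2 : (1 - ‖z‖)⁻¹ ≤ 4 := by
    rw [inv_le_comm₀ (by linarith) (by norm_num)]
    linarith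
  have h3 : 0 ≤ ‖z‖ ^ 2 := by positivity
  nlinarith

lemma norm_ell_le' {z : ℂ} (hz : ‖z‖ ≤ 3 / 4) : ‖ell z‖ ≤ 3 * ‖z‖ := by
  have h := norm_ell_sub_le' hz
  have h2 : ‖ell z‖ ≤ ‖ell z - z‖ + ‖z‖ := by
    have := norm_add_le (ell z - z) z
    rwa [sub_add_cancel] at this
  have h3 : 0 ≤ ‖z‖ := norm_nonneg z
  nlinarith

lemma differentiableAt_ell {z : ℂ} (hz : ‖z‖ < 1) : DifferentiableAt ℂ ell z := by
  unfold ell
  have h : (1 + -z) ∈ Complex.slitPlane := Complex.mem_slitPlane_of_norm_lt_one (by rwa [norm_neg])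
  rw [← sub_eq_add_neg] at h
  exact (((differentiableAt_const _).sub differentiableAt_id).clog h).neg

lemma differentiable_cpow_nat {n : ℕ} (hn : 0 < n) : Differentiable ℂ fun s : ℂ => (n : ℂ) ^ (-s) := by
  intro s
  exact DifferentiableAt.const_cpow differentiableAt_id.neg (Or.inl (by exact_mod_cast hn.ne'))

section
variable {K : Type} [Field K] [NumberField K]

lemma nm_pos (v : HeightOneSpectrum (𝓞 K)) : 0 < nm v := Nat.pos_of_ne_zero (nm_ne_zero v)

/-- the terms of the second order -/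
lemma ac1 : AC (fun s => ∑' v : HeightOneSpectrum (𝓞 K),
    (ell ((nm v : ℂ) ^ (-s)) - (nm v : ℂ) ^ (-s))) := by
  refine AC.tsum (u := fun v : HeightOneSpectrum (𝓞 K) => 2 * (nm v : ℝ) ^ (-(3 / 2 : ℝ)))
    ((nm_summable (by norm_num)).mul_left 2) (fun v => ?_) (fun v s hs => ?_)
  · intro s hs
    refine DifferentiableAt.differentiableWithinAt ?_
    refine DifferentiableAt.sub ?_ (differentiable_cpow_nat (nm_pos v) s)
    have hz : ‖(nm v : ℂ) ^ (-s)‖ < 1 := by
      rw [norm_cpow_neg_nat (nm_pos v)]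
      exact (rpow_le_34 (two_le_nm v) (le_of_lt hs)).trans_lt (by norm_num)
    exact DifferentiableAt.comp (g := ell) s (differentiableAt_ell hz)
      (differentiable_cpow_nat (nm_pos v) s)
  · have hs' : (3 / 4 : ℝ) < s.re := hs
    have h34 := rpow_le_34 (two_le_nm v) hs'.le
    have h1 := norm_ell_sub_le' (z := (nm v : ℂ) ^ (-s)) (by
      rw [norm_cpow_neg_nat (nm_pos v)]; exact h34)
    refine h1.trans (mul_le_mul_of_nonneg_left ?_ (by norm_num))
    rw [norm_cpow_neg_nat (nm_pos v), rpow_sq']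
    have h2 : (2 : ℝ) ≤ (nm v : ℝ) := by exact_mod_cast two_le_nm v
    exact Real.rpow_le_rpow_of_exponent_le (by linarith) (by linarith)

lemma cpow_fib (v : HeightOneSpectrum (𝓞 K)) (s : ℂ) :
    (nm v : ℂ) ^ (-s) = (((below v : ℕ) : ℂ) ^ (-s)) ^ deg v := by
  rw [(nm_eq v).1]
  push_cast
  rw [← Complex.cpow_nat_mul, ← Complex.natCast_cpow_natCast_mul]

lemma tsum_fiberC {g : HeightOneSpectrum (𝓞 K) → ℂ} (hg : Summable g) :
    ∑' v, g v = ∑' p : Nat.Primes, ∑ v : {v : HeightOneSpectrum (𝓞 K) // below v = p}, g v := by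
  have h0 := ((Equiv.sigmaFiberEquiv (below (K := K))).summable_iff.mpr hg)
  have h1 := h0.tsum_sigma
  have h2 : ∑' c : (y : Nat.Primes) × {v : HeightOneSpectrum (𝓞 K) // below v = y},
      (g ∘ (Equiv.sigmaFiberEquiv (below (K := K)))) c = ∑' v, g v :=
    (Equiv.sigmaFiberEquiv (below (K := K))).tsum_eq g
  rw [← h2, h1]
  refine tsum_congr fun p => ?_
  rw [tsum_fintype]
  rfl

lemma summable_fiberC {g : HeightOneSpectrum (𝓞 K) → ℂ} (hg : Summable g) :
    Summable fun p : Nat.Primes => ∑ v : {v : HeightOneSpectrum (𝓞 K) // below v = p}, g v := by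
  have h := ((Equiv.sigmaFiberEquiv (below (K := K))).summable_iff.mpr hg).sigma
  refine h.congr fun p => ?_
  rw [tsum_fintype]
  rfl

lemma summable_nm {s : ℂ} (hs : 1 < s.re) :
    Summable fun v : HeightOneSpectrum (𝓞 K) => (nm v : ℂ) ^ (-s) := by
  refine Summable.of_norm_bounded (nm_summable hs) fun v => ?_
  rw [norm_cpow_neg_nat (nm_pos v)]

lemma norm_prime_cpow (p : Nat.Primes) (s : ℂ) : ‖((p : ℕ) : ℂ) ^ (-s)‖ = ((p : ℕ) : ℝ) ^ (-s.re) :=
  norm_cpow_neg_nat p.prop.pos s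

/-- bounded coefficients -/
lemma summable_bdd {a : Nat.Primes → ℂ} {C : ℝ} (ha : ∀ p, ‖a p‖ ≤ C) {s : ℂ} (hs : 1 < s.re) :
    Summable fun p : Nat.Primes => a p * ((p : ℕ) : ℂ) ^ (-s) := by
  refine Summable.of_norm_bounded ((summable_primes_rpow hs).mul_left C) fun p => ?_
  rw [norm_mul, norm_prime_cpow]
  exact mul_le_mul_of_nonneg_right (ha p) (by positivity)

lemma hc_le (p : Nat.Primes) : ‖((hc (𝓞 K) p : ℕ) : ℂ)‖ ≤ Module.finrank ℚ K := by
  rw [Complex.norm_natCast, ← R_eq_hc]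
  exact_mod_cast R_le p

/-- the primes of degree at least two -/
lemma ac2 : AC (fun s => (∑' v : HeightOneSpectrum (𝓞 K), (nm v : ℂ) ^ (-s)) -
    ∑' p : Nat.Primes, (hc (𝓞 K) p : ℂ) * ((p : ℕ) : ℂ) ^ (-s)) := by
  classical
  have h1 : AC (fun s => ∑' p : Nat.Primes,
      ∑ v : {v : HeightOneSpectrum (𝓞 K) // below v = p},
        (if deg v.1 = 1 then 0 else (nm v.1 : ℂ) ^ (-s))) := by
    refine AC.tsum (u := fun p : Nat.Primes =>
      (Module.finrank ℚ K : ℝ) * ((p : ℕ) : ℝ) ^ (-(3 / 2 : ℝ)))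
      ((summable_primes_rpow (by norm_num)).mul_left _) (fun p => ?_) (fun p s hs => ?_)
    · refine DifferentiableOn.fun_sum fun v _ => ?_
      by_cases hd : deg v.1 = 1
      · simp only [if_pos hd]
        exact differentiableOn_const _
      · simp only [if_neg hd]
        exact (differentiable_cpow_nat (nm_pos v.1)).differentiableOn
    · have hs' : (3 / 4 : ℝ) < s.re := hs
      have hp1 : (1 : ℝ) ≤ (p : ℕ) := by exact_mod_cast p.prop.one_lt.le
      calc ‖∑ v : {v : HeightOneSpectrum (𝓞 K) // below v = p},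
            (if deg v.1 = 1 then 0 else (nm v.1 : ℂ) ^ (-s))‖
          ≤ ∑ _v : {v : HeightOneSpectrum (𝓞 K) // below v = p},
              ((p : ℕ) : ℝ) ^ (-(3 / 2 : ℝ)) := by
            refine (norm_sum_le _ _).trans (Finset.sum_le_sum fun v _ => ?_)
            split_ifs with hd
            · rw [norm_zero]; positivity
            · rw [norm_cpow_neg_nat (nm_pos v.1)]
              obtain ⟨h1, h2, _⟩ := nm_eq v.1
              rw [v.2] at h1
              rw [h1]
              push_cast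
              rw [← Real.rpow_natCast, ← Real.rpow_mul (by positivity)]
              refine Real.rpow_le_rpow_of_exponent_le hp1 ?_
              have hd2 : (2 : ℝ) ≤ (deg v.1 : ℝ) := by
                have : 2 ≤ deg v.1 := by omega
                exact_mod_cast this
              nlinarith
        _ = (Fintype.card {v : HeightOneSpectrum (𝓞 K) // below v = p}) *
              ((p : ℕ) : ℝ) ^ (-(3 / 2 : ℝ)) := by simp
        _ ≤ _ := by
            refine mul_le_mul_of_nonneg_right ?_ (by positivity)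
            exact_mod_cast fiber_card_le p
  refine h1.congr fun s hs => ?_
  rw [tsum_fiberC (summable_nm hs), ← Summable.tsum_sub (summable_fiberC (summable_nm hs))
    (summable_bdd hc_le hs)]
  refine tsum_congr fun p => ?_
  have h2 : (hc (𝓞 K) p : ℂ) * ((p : ℕ) : ℂ) ^ (-s) =
      ∑ v : {v : HeightOneSpectrum (𝓞 K) // below v = p},
        (if deg v.1 = 1 then (nm v.1 : ℂ) ^ (-s) else 0) := by
    rw [← R_eq_hc]
    unfold R
    rw [← Finset.sum_filter, Finset.sum_congr rfl (g := fun _ => ((p : ℕ) : ℂ) ^ (-s)) (by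
      intro v hv
      have hd : deg v.1 = 1 := (Finset.mem_filter.mp hv).2
      have h2 := (nm_eq v.1).1
      rw [hd, pow_one, v.2] at h2
      rw [h2]), Finset.sum_const, nsmul_eq_mul]
  rw [h2, ← Finset.sum_sub_distrib]
  refine Finset.sum_congr rfl fun v _ => ?_
  split_ifs
  · exact sub_self _
  · exact sub_zero _

/-- the term of a nonzero ideal -/
noncomputable def fC (s : ℂ) (I : Ideal (𝓞 K)) : ℂ :=
  open Classical in if I = ⊥ then 0 else ((Ideal.absNorm I : ℕ) : ℂ) ^ (-s)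

lemma hasSum_fC {s : ℂ} (hs : 1 < s.re) : HasSum (fC (K := K) s) (dedekindZeta K s) := by
  classical
  have h := H484R2.hasSum_ideals K hs
  rw [← H484R2.zeta_eq K hs] at h
  have hinj : Function.Injective (fun I : H484R2.NZI K => I.1) := Subtype.val_injective
  rw [← hinj.hasSum_iff]
  · convert h using 1
    funext I
    simp only [Function.comp_apply, fC, if_neg I.2]
  · intro I hI
    unfold fC
    by_contra hne
    apply hI
    by_cases h0 : I = ⊥
    · rw [if_pos h0] at hne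
      exact absurd rfl hne
    · exact ⟨⟨I, h0⟩, rfl⟩

lemma cmiC {s : ℂ} (hs : 1 < s.re) : R426.QC.CMI (fC (K := K) s) where
  zero := by
    unfold fC
    rw [if_pos rfl]
  one := by
    unfold fC
    rw [if_neg (by exact top_ne_bot), Ideal.absNorm_top]
    simp
  mul I J := by
    unfold fC
    by_cases hI : I = ⊥
    · rw [if_pos hI, if_pos (by rw [hI, Ideal.bot_mul]), zero_mul]
    · by_cases hJ : J = ⊥
      · rw [if_pos hJ, if_pos (by rw [hJ, Ideal.mul_bot]), mul_zero]
      · rw [if_neg hI, if_neg hJ, if_neg (by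
          intro h
          rcases Ideal.mul_eq_bot.mp h with h | h
          · exact hI h
          · exact hJ h), map_mul]
        push_cast
        rw [← Complex.natCast_mul_natCast_cpow]
  summ := (hasSum_fC hs).summable

/-- the logarithm of the zeta function -/
noncomputable def SK (K : Type) [Field K] [NumberField K] (s : ℂ) : ℂ :=
  ∑' v : HeightOneSpectrum (𝓞 K), ell ((nm v : ℂ) ^ (-s))

lemma norm_nm_le_half (v : HeightOneSpectrum (𝓞 K)) {s : ℂ} (hs : 1 < s.re) :
    ‖(nm v : ℂ) ^ (-s)‖ ≤ 1 / 2 := by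
  rw [norm_cpow_neg_nat (nm_pos v)]
  exact nm_rpow_le_half v hs.le

lemma summable_ell {s : ℂ} (hs : 1 < s.re) :
    Summable fun v : HeightOneSpectrum (𝓞 K) => ell ((nm v : ℂ) ^ (-s)) := by
  refine Summable.of_norm_bounded ((nm_summable hs).mul_left 2) fun v => ?_
  have := norm_ell_le (norm_nm_le_half v hs)
  rwa [norm_cpow_neg_nat (nm_pos v)] at this

lemma exp_SK {s : ℂ} (hs : 1 < s.re) : Complex.exp (SK K s) = dedekindZeta K s := by
  have h1 := (summable_ell (K := K) hs).hasSum.cexp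
  have h2 := R426.QC.hasProdI (cmiC (K := K) hs)
  rw [(hasSum_fC (K := K) hs).tsum_eq] at h2
  have h3 : (fun v : HeightOneSpectrum (𝓞 K) => (1 - fC s v.asIdeal)⁻¹) =
      Complex.exp ∘ fun v : HeightOneSpectrum (𝓞 K) => ell ((nm v : ℂ) ^ (-s)) := by
    funext v
    rw [Function.comp_apply, exp_ell ((norm_nm_le_half v hs).trans_lt (by norm_num))]
    unfold fC
    rw [if_neg v.ne_bot]
    rfl
  rw [h3] at h2
  exact h1.unique h2

/-- the half plane of absolute convergence -/
lemma differentiableAt_SK {s : ℂ} (hs : 1 < s.re) : DifferentiableAt ℂ (SK K) s := by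
  set σ : ℝ := (1 + s.re) / 2 with hσ
  have hσ1 : 1 < σ := by rw [hσ]; linarith
  have hσ2 : σ < s.re := by rw [hσ]; linarith
  have hopen : IsOpen {z : ℂ | σ < z.re} := isOpen_lt continuous_const Complex.continuous_re
  have h := Complex.differentiableOn_tsum_of_summable_norm
    (F := fun (v : HeightOneSpectrum (𝓞 K)) (s : ℂ) => ell ((nm v : ℂ) ^ (-s)))
    (u := fun v => 2 * (nm v : ℝ) ^ (-σ)) ((nm_summable hσ1).mul_left 2) (fun v => ?_) hopen ?_
  · exact (h s hσ2).differentiableAt (hopen.mem_nhds hσ2)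
  · intro z hz
    have hz1 : 1 < z.re := hσ1.trans hz
    refine DifferentiableAt.differentiableWithinAt ?_
    exact DifferentiableAt.comp (g := ell) z
      (differentiableAt_ell ((norm_nm_le_half v hz1).trans_lt (by norm_num)))
      (differentiable_cpow_nat (nm_pos v) z)
  · intro v z hz
    have hz' : σ < z.re := hz
    have hz1 : 1 < z.re := hσ1.trans hz'
    refine (norm_ell_le (norm_nm_le_half v hz1)).trans ?_
    rw [norm_cpow_neg_nat (nm_pos v)]
    refine mul_le_mul_of_nonneg_left ?_ (by norm_num)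
    have h2 : (2 : ℝ) ≤ (nm v : ℝ) := by exact_mod_cast two_le_nm v
    exact Real.rpow_le_rpow_of_exponent_le (by linarith) (by linarith)

variable (K) in
/-- **The logarithm of the zeta function.** -/
theorem ac_SK : AC (fun s => SK K s + Complex.log (s - 1)) := by
  obtain ⟨g, hg, hg2⟩ := H484R2.continuation K 0
  have h10 : (1 : ℂ) + ((0 : ℝ) : ℂ) * Complex.I = 1 := by simp
  rw [h10] at hg hg2
  -- the value at `1`
  have hres := tendsto_sub_one_mul_dedekindZeta_nhdsGT K
  have hcoe : Tendsto (fun x : ℝ => (x : ℂ)) (𝓝[>] 1) (𝓝 1) := by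
    have := (Complex.continuous_ofReal.tendsto (1 : ℝ)).mono_left
      (nhdsWithin_le_nhds (s := Set.Ioi (1 : ℝ)))
    simpa using this
  have h1 : Tendsto (fun x : ℝ => g x) (𝓝[>] 1) (𝓝 (g 1)) :=
    (hg.continuousAt.tendsto).comp hcoe
  have h2 : Tendsto (fun x : ℝ => g x) (𝓝[>] 1) (𝓝 ((dedekindZeta_residue K : ℝ) : ℂ)) := by
    refine hres.congr' ?_
    filter_upwards [hcoe.eventually hg2, self_mem_nhdsWithin] with x hx hx1
    exact (hx (by simpa using hx1)).symm
  have h3 : g 1 = ((dedekindZeta_residue K : ℝ) : ℂ) := tendsto_nhds_unique h1 h2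
  have hg1 : g 1 ≠ 0 := by
    rw [h3]
    exact_mod_cast dedekindZeta_residue_ne_zero K
  -- the logarithm of `g`
  set b : ℂ → ℂ := fun s => Complex.log (g s / g 1) + Complex.log (g 1) with hb
  have hslit : g 1 / g 1 ∈ Complex.slitPlane := by
    rw [div_self hg1]
    exact Complex.one_mem_slitPlane
  have hban : AnalyticAt ℂ b 1 := (((hg.div analyticAt_const hg1).clog hslit)).add analyticAt_const
  have hq : ContinuousAt (fun s => g s / g 1) 1 := hg.continuousAt.div_const _
  have hev : ∀ᶠ s in 𝓝 (1 : ℂ), AnalyticAt ℂ b s ∧ g s / g 1 ∈ Complex.slitPlane ∧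
      (1 < s.re → g s = (s - 1) * dedekindZeta K s) :=
    hban.eventually_analyticAt.and ((hq.eventually_mem
      (Complex.isOpen_slitPlane.mem_nhds hslit)).and hg2)
  obtain ⟨ε, hε, hball⟩ := Metric.eventually_nhds_iff_ball.mp hev
  set D : Set ℂ := Metric.ball 1 ε ∩ {s | 1 < s.re} with hD
  have hDopen : IsOpen D :=
    Metric.isOpen_ball.inter (isOpen_lt continuous_const Complex.continuous_re)
  have hDconv : Convex ℝ D := (convex_ball _ _).inter (convex_halfSpace_re_gt 1)
  set h : ℂ → ℂ := fun s => SK K s + Complex.log (s - 1) - b s with hh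
  have hslit1 : ∀ s : ℂ, 1 < s.re → s - 1 ∈ Complex.slitPlane := fun s hs => by
    rw [Complex.mem_slitPlane_iff]
    left
    simp only [Complex.sub_re, Complex.one_re]
    linarith
  have hdiff : ∀ s ∈ D, DifferentiableAt ℂ h s := by
    intro s hs
    have hs1 : 1 < s.re := hs.2
    refine ((differentiableAt_SK hs1).add ?_).sub (hball s hs.1).1.differentiableAt
    exact (differentiableAt_id.sub (differentiableAt_const _)).clog (hslit1 s hs1)
  have hexp : ∀ s ∈ D, Complex.exp (h s) = 1 := by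
    intro s hs
    have hs1 : 1 < s.re := hs.2
    obtain ⟨_, hsl, hgs⟩ := hball s hs.1
    have hne : s - 1 ≠ 0 := Complex.slitPlane_ne_zero (hslit1 s hs1)
    have hgne : g s / g 1 ≠ 0 := Complex.slitPlane_ne_zero hsl
    have hζ : dedekindZeta K s ≠ 0 := by
      rw [← exp_SK hs1]; exact Complex.exp_ne_zero _
    simp only [hh, hb]
    rw [Complex.exp_sub, Complex.exp_add, Complex.exp_add, Complex.exp_log hgne,
      Complex.exp_log hg1, Complex.exp_log hne, exp_SK hs1, div_mul_cancel₀ _ hg1, hgs hs1,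
      mul_comm, div_self (mul_ne_zero hne hζ)]
  have hderiv : D.EqOn (deriv h) 0 := by
    intro s hs
    have h4 : HasDerivAt (fun z => Complex.exp (h z)) (Complex.exp (h s) * deriv h s) s :=
      (hdiff s hs).hasDerivAt.cexp
    have h5 : HasDerivAt (fun z => Complex.exp (h z)) 0 s := by
      refine (hasDerivAt_const s (1 : ℂ)).congr_of_eventuallyEq ?_
      filter_upwards [hDopen.mem_nhds hs] with z hz
      exact hexp z hz
    have h6 := h4.unique h5
    rw [hexp s hs, one_mul] at h6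
    exact h6
  have hconst : ∀ x ∈ D, ∀ y ∈ D, h x = h y := fun x hx y hy =>
    hDopen.is_const_of_deriv_eq_zero hDconv.isPreconnected
      (fun z hz => (hdiff z hz).differentiableWithinAt) hderiv hx hy
  -- a point of `D`
  obtain ⟨x₀, hx₀⟩ : ∃ x₀, x₀ ∈ D := by
    refine ⟨((1 + ε / 2 : ℝ) : ℂ), ?_, ?_⟩
    · rw [Metric.mem_ball, dist_eq_norm]
      have : ((1 + ε / 2 : ℝ) : ℂ) - 1 = ((ε / 2 : ℝ) : ℂ) := by push_cast; ring
      rw [this, Complex.norm_real, Real.norm_eq_abs, abs_of_pos (by linarith)]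
      linarith
    · simp only [Set.mem_ofPred_eq, Complex.ofReal_re]
      linarith
  refine ⟨fun s => b s + h x₀, hban.add analyticAt_const, ?_⟩
  filter_upwards [Metric.ball_mem_nhds (1 : ℂ) hε] with s hs hs1
  have h7 := hconst s ⟨hs, hs1⟩ x₀ hx₀
  rw [← h7]
  simp only [hh]
  ring

variable (K) in
/-- **Degree one primes.** -/
theorem ac_degree_one : AC (fun s => (∑' p : Nat.Primes, (hc (𝓞 K) p : ℂ) *
    ((p : ℕ) : ℂ) ^ (-s)) + Complex.log (s - 1)) := by
  refine (((ac_SK K).sub (ac1 (K := K))).sub (ac2 (K := K))).congr fun s hs => ?_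
  unfold SK
  rw [Summable.tsum_sub (summable_ell hs) (summable_nm hs)]
  ring

end

end Pool.Agent.N184.QP
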