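import Pool.Agent.H921R2.TatePole.Homs
import Pool.Agent.R426.QC.Ep

/-!
# Primes of degree one and the Dedekind zeta function near `1`

For a number field `K` the difference `∑_p #Hom(𝓞 K, 𝔽_p) p^{-x} - log (1/(x-1))` has a limit as
`x → 1+`.
-/

set_option autoImplicit false

open Filter Topology NumberField IsDedekindDomain
open Pool.Agent.H921R2.TatePole

namespace Pool.Agent.N184.QP

section
variable {K : Type} [Field K] [NumberField K]

/-- the term of a nonzero ideal -/
noncomputable def fI (x : ℝ) (I : Ideal (𝓞 K)) : ℝ :=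
  open Classical in if I = ⊥ then 0 else ((Ideal.absNorm I : ℕ) : ℝ) ^ (-x)

lemma fI_nonneg (x : ℝ) (I : Ideal (𝓞 K)) : 0 ≤ fI x I := by
  unfold fI
  split_ifs
  · exact le_rfl
  · positivity

lemma summable_fI {x : ℝ} (hx : 1 < x) : Summable (fI (K := K) x) := by
  classical
  refine summable_of_sum_le (fI_nonneg x) (c := ZK K x) fun A => ?_
  have h1 : ∑ I ∈ A, fI x I = ∑ I ∈ A.filter (fun I => I ≠ ⊥), ((Ideal.absNorm I : ℕ) : ℝ) ^ (-x) := by
    rw [Finset.sum_filter]
    refine Finset.sum_congr rfl fun I _ => ?_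
    unfold fI
    by_cases h : I = ⊥
    · rw [if_pos h, if_neg (not_not.mpr h)]
    · rw [if_neg h, if_pos h]
  rw [h1]
  exact sum_ideals_le hx _ fun I hI => (Finset.mem_filter.mp hI).2

lemma tsum_fI {x : ℝ} (hx : 1 < x) : ∑' I, fI (K := K) x I = ZK K x := by
  classical
  have h := ((summable_fI (K := K) hx).hasSum).tsum_fiberwise (fun I : Ideal (𝓞 K) => Ideal.absNorm I)
  rw [← h.tsum_eq]
  unfold ZK
  refine tsum_congr fun n => ?_
  by_cases hn : n = 0
  · subst hn
    rw [if_pos rfl]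
    have : ∀ b : ((fun I : Ideal (𝓞 K) => Ideal.absNorm I) ⁻¹' {0} : Set (Ideal (𝓞 K))),
        fI x b.1 = 0 := by
      rintro ⟨I, hI⟩
      have h0 : I = ⊥ := Ideal.absNorm_eq_zero_iff.mp hI
      unfold fI
      rw [if_pos h0]
    rw [tsum_congr this, tsum_zero]
  · rw [if_neg hn]
    have h1 : ∀ b : ((fun I : Ideal (𝓞 K) => Ideal.absNorm I) ⁻¹' {n} : Set (Ideal (𝓞 K))),
        fI x b.1 = (n : ℝ) ^ (-x) := by
      rintro ⟨I, hI⟩
      have hI' : Ideal.absNorm I = n := hI
      have h0 : I ≠ ⊥ := by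
        rintro rfl
        rw [Ideal.absNorm_bot] at hI'
        exact hn hI'.symm
      unfold fI
      rw [if_neg h0, hI']
    have hfin : Finite ((fun I : Ideal (𝓞 K) => Ideal.absNorm I) ⁻¹' {n} : Set (Ideal (𝓞 K))) :=
      (Ideal.finite_setOfPred_absNorm_eq (S := 𝓞 K) n).to_subtype
    have := Fintype.ofFinite ((fun I : Ideal (𝓞 K) => Ideal.absNorm I) ⁻¹' {n} : Set (Ideal (𝓞 K)))
    rw [tsum_congr h1, tsum_fintype, Finset.sum_const, Finset.card_univ, nsmul_eq_mul]
    unfold aK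
    rw [← Nat.card_eq_fintype_card]
    rfl

/-- the norm is completely multiplicative -/
lemma cmi {x : ℝ} (hx : 1 < x) : R426.QC.CMI (fun I : Ideal (𝓞 K) => ((fI x I : ℝ) : ℂ)) where
  zero := by
    unfold fI
    rw [if_pos rfl, Complex.ofReal_zero]
  one := by
    unfold fI
    rw [if_neg (by exact top_ne_bot), Ideal.absNorm_top]
    simp
  mul I J := by
    rw [← Complex.ofReal_mul]
    congr 1
    unfold fI
    by_cases hI : I = ⊥
    · rw [if_pos hI, if_pos (by rw [hI, Ideal.bot_mul]), zero_mul]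
    · by_cases hJ : J = ⊥
      · rw [if_pos hJ, if_pos (by rw [hJ, Ideal.mul_bot]), mul_zero]
      · rw [if_neg hI, if_neg hJ, if_neg (by
          intro h
          rcases Ideal.mul_eq_bot.mp h with h | h
          · exact hI h
          · exact hJ h), map_mul]
        push_cast
        exact Real.mul_rpow (by positivity) (by positivity)
  summ := by
    have := (summable_fI (K := K) hx)
    exact Complex.ofRealCLM.summable this

lemma fI_prime (x : ℝ) (v : HeightOneSpectrum (𝓞 K)) : fI x v.asIdeal = (nm v : ℝ) ^ (-x) := by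
  unfold fI
  rw [if_neg v.ne_bot]
  rfl

/-- the logarithm of the zeta function is the sum over the primes -/
lemma hasSum_log {x : ℝ} (hx : 1 < x) :
    HasSum (fun v : HeightOneSpectrum (𝓞 K) => -Real.log (1 - (nm v : ℝ) ^ (-x)))
      (Real.log (ZK K x)) := by
  have h1 := R426.QC.hasProdI (cmi (K := K) hx)
  have h2 : ∑' I : Ideal (𝓞 K), ((fI x I : ℝ) : ℂ) = ((ZK K x : ℝ) : ℂ) := by
    rw [← Complex.ofReal_tsum, tsum_fI hx]
  rw [h2] at h1
  have hpos : ∀ v : HeightOneSpectrum (𝓞 K), 0 < 1 - (nm v : ℝ) ^ (-x) := fun v => by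
    have := nm_rpow_le_half v hx.le
    linarith
  have hZ : 0 < ZK K x := by
    have h := prod_one_add_le (K := K) hx ∅
    rw [Finset.prod_empty] at h
    linarith
  have h3 : Tendsto (fun s : Finset (HeightOneSpectrum (𝓞 K)) =>
      ∏ v ∈ s, (1 - ((fI x v.asIdeal : ℝ) : ℂ))⁻¹) atTop (𝓝 ((ZK K x : ℝ) : ℂ)) := h1
  have h4 : Tendsto (fun s : Finset (HeightOneSpectrum (𝓞 K)) =>
      ∏ v ∈ s, (1 - (nm v : ℝ) ^ (-x))⁻¹) atTop (𝓝 (ZK K x)) := by
    have h5 := (Complex.continuous_re.tendsto _).comp h3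
    rw [Complex.ofReal_re] at h5
    refine h5.congr fun s => ?_
    rw [Function.comp_apply]
    have : ∏ v ∈ s, (1 - ((fI x v.asIdeal : ℝ) : ℂ))⁻¹ =
        ((∏ v ∈ s, (1 - (nm v : ℝ) ^ (-x))⁻¹ : ℝ) : ℂ) := by
      rw [Complex.ofReal_prod]
      refine Finset.prod_congr rfl fun v _ => ?_
      rw [fI_prime]
      push_cast
      rfl
    rw [this, Complex.ofReal_re]
  have h6 := h4.log hZ.ne'
  refine h6.congr fun s => ?_
  rw [Real.log_prod (fun v _ => (inv_pos.mpr (hpos v)).ne')]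
  exact Finset.sum_congr rfl fun v _ => Real.log_inv _

lemma le_neg_log {u : ℝ} (h1 : u < 1) : u ≤ -Real.log (1 - u) := by
  have := Real.log_le_sub_one_of_pos (show 0 < 1 - u by linarith)
  linarith

/-- continuity of a power at `1` from the right -/
lemma tendsto_rpow (a : ℝ) (ha : 0 < a) (c : ℝ) :
    Tendsto (fun x : ℝ => a ^ (-(c * x))) (𝓝[>] 1) (𝓝 (a ^ (-c))) := by
  have h : Continuous fun x : ℝ => a ^ (-(c * x)) :=
    Continuous.rpow continuous_const (by fun_prop) (fun x => Or.inl ha.ne')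
  have h2 := (h.tendsto 1).mono_left (nhdsWithin_le_nhds (s := Set.Ioi (1 : ℝ)))
  simpa using h2

lemma tendsto_nm (v : HeightOneSpectrum (𝓞 K)) :
    Tendsto (fun x : ℝ => (nm v : ℝ) ^ (-x)) (𝓝[>] 1) (𝓝 ((nm v : ℝ) ^ (-(1 : ℝ)))) := by
  have h := tendsto_rpow (nm v : ℝ) (by exact_mod_cast Nat.pos_of_ne_zero (nm_ne_zero v)) 1
  simpa using h

/-- the terms of degree at least two in the logarithms -/
lemma step1 : ∃ c : ℝ, Tendsto (fun x : ℝ => Real.log (ZK K x) -
    ∑' v : HeightOneSpectrum (𝓞 K), (nm v : ℝ) ^ (-x)) (𝓝[>] 1) (𝓝 c) := by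
  refine ⟨∑' v : HeightOneSpectrum (𝓞 K), (-Real.log (1 - (nm v : ℝ) ^ (-(1 : ℝ))) -
    (nm v : ℝ) ^ (-(1 : ℝ))), ?_⟩
  have h1 : Tendsto (fun x : ℝ => ∑' v : HeightOneSpectrum (𝓞 K),
      (-Real.log (1 - (nm v : ℝ) ^ (-x)) - (nm v : ℝ) ^ (-x))) (𝓝[>] 1)
      (𝓝 (∑' v : HeightOneSpectrum (𝓞 K), (-Real.log (1 - (nm v : ℝ) ^ (-(1 : ℝ))) -
        (nm v : ℝ) ^ (-(1 : ℝ))))) := by
    refine tendsto_tsum_of_dominated_convergence
      (bound := fun v : HeightOneSpectrum (𝓞 K) => (nm v : ℝ) ^ (-(2 : ℝ)))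
      (nm_summable (by norm_num)) (fun v => ?_) ?_
    · have hv := tendsto_nm v
      refine Tendsto.sub (Tendsto.neg (Tendsto.log (tendsto_const_nhds.sub hv) ?_)) hv
      have := nm_rpow_le_half v (le_refl (1 : ℝ))
      linarith
    · filter_upwards [self_mem_nhdsWithin] with x hx v
      have hx1 : (1 : ℝ) < x := hx
      have hu := nm_rpow_le_half v hx1.le
      have hu0 : 0 ≤ (nm v : ℝ) ^ (-x) := by positivity
      have a := le_neg_log (u := (nm v : ℝ) ^ (-x)) (by linarith)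
      have b := neg_log_one_sub_le hu0 hu
      rw [Real.norm_eq_abs, abs_of_nonneg (by linarith)]
      have c : ((nm v : ℝ) ^ (-x)) ^ 2 ≤ (nm v : ℝ) ^ (-(2 : ℝ)) := by
        rw [rpow_sq']
        have h2 : (2 : ℝ) ≤ (nm v : ℝ) := by exact_mod_cast two_le_nm v
        exact Real.rpow_le_rpow_of_exponent_le (by linarith) (by linarith)
      linarith
  refine h1.congr' ?_
  filter_upwards [self_mem_nhdsWithin] with x hx
  have hx1 : (1 : ℝ) < x := hx
  rw [Summable.tsum_sub (hasSum_log (K := K) hx1).summable (nm_summable hx1),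
    (hasSum_log (K := K) hx1).tsum_eq]

/-- the primes of degree at least two -/
lemma step2 : ∃ c : ℝ, Tendsto (fun x : ℝ => (∑' v : HeightOneSpectrum (𝓞 K), (nm v : ℝ) ^ (-x)) -
    ∑' p : Nat.Primes, (hc (𝓞 K) p : ℝ) * ((p : ℕ) : ℝ) ^ (-x)) (𝓝[>] 1) (𝓝 c) := by
  classical
  have hsum : ∀ x : ℝ, 1 < x → Summable fun p : Nat.Primes =>
      (hc (𝓞 K) p : ℝ) * ((p : ℕ) : ℝ) ^ (-x) := fun x hx => by
    refine Summable.of_nonneg_of_le (fun p => by positivity) (fun p => ?_)
      ((summable_primes_rpow hx).mul_left (Module.finrank ℚ K : ℝ))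
    refine mul_le_mul_of_nonneg_right ?_ (by positivity)
    rw [← R_eq_hc]
    exact_mod_cast R_le p
  -- the fibre term
  have hfib : ∀ (x : ℝ) (p : Nat.Primes),
      (∑ v : {v : HeightOneSpectrum (𝓞 K) // below v = p}, (nm v.1 : ℝ) ^ (-x)) -
        (hc (𝓞 K) p : ℝ) * ((p : ℕ) : ℝ) ^ (-x) =
      ∑ v : {v : HeightOneSpectrum (𝓞 K) // below v = p},
        (if deg v.1 = 1 then 0 else (nm v.1 : ℝ) ^ (-x)) := by
    intro x p
    have h1 : (hc (𝓞 K) p : ℝ) * ((p : ℕ) : ℝ) ^ (-x) =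
        ∑ v : {v : HeightOneSpectrum (𝓞 K) // below v = p},
          (if deg v.1 = 1 then (nm v.1 : ℝ) ^ (-x) else 0) := by
      rw [← R_eq_hc]
      unfold R
      rw [← Finset.sum_filter, Finset.sum_congr rfl (g := fun _ => ((p : ℕ) : ℝ) ^ (-x)) (by
        intro v hv
        have hd : deg v.1 = 1 := (Finset.mem_filter.mp hv).2
        have h2 := (nm_eq v.1).1
        rw [hd, pow_one, v.2] at h2
        rw [h2]), Finset.sum_const, nsmul_eq_mul]
    rw [h1, ← Finset.sum_sub_distrib]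
    refine Finset.sum_congr rfl fun v _ => ?_
    split_ifs
    · exact sub_self _
    · exact sub_zero _
  refine ⟨∑' p : Nat.Primes, ∑ v : {v : HeightOneSpectrum (𝓞 K) // below v = p},
        (if deg v.1 = 1 then 0 else (nm v.1 : ℝ) ^ (-(1 : ℝ))), ?_⟩
  have h1 : Tendsto (fun x : ℝ => ∑' p : Nat.Primes,
      ∑ v : {v : HeightOneSpectrum (𝓞 K) // below v = p},
        (if deg v.1 = 1 then 0 else (nm v.1 : ℝ) ^ (-x))) (𝓝[>] 1)
      (𝓝 (∑' p : Nat.Primes, ∑ v : {v : HeightOneSpectrum (𝓞 K) // below v = p},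
        (if deg v.1 = 1 then 0 else (nm v.1 : ℝ) ^ (-(1 : ℝ))))) := by
    refine tendsto_tsum_of_dominated_convergence
      (bound := fun p : Nat.Primes => (Module.finrank ℚ K : ℝ) * ((p : ℕ) : ℝ) ^ (-(2 : ℝ)))
      ((summable_primes_rpow (by norm_num)).mul_left _) (fun p => ?_) ?_
    · refine tendsto_finsetSum _ fun v _ => ?_
      by_cases hd : deg v.1 = 1
      · simp only [if_pos hd]
        exact tendsto_const_nhds
      · simp only [if_neg hd]
        exact tendsto_nm v.1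
    · filter_upwards [self_mem_nhdsWithin] with x hx p
      have hx1 : (1 : ℝ) < x := hx
      have hp1 : (1 : ℝ) ≤ (p : ℕ) := by exact_mod_cast p.prop.one_lt.le
      rw [Real.norm_eq_abs, abs_of_nonneg (Finset.sum_nonneg fun v _ => by
        split_ifs
        · exact le_rfl
        · positivity)]
      calc ∑ v : {v : HeightOneSpectrum (𝓞 K) // below v = p},
            (if deg v.1 = 1 then 0 else (nm v.1 : ℝ) ^ (-x))
          ≤ ∑ _v : {v : HeightOneSpectrum (𝓞 K) // below v = p}, ((p : ℕ) : ℝ) ^ (-(2 : ℝ)) := by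
            refine Finset.sum_le_sum fun v _ => ?_
            split_ifs with hd
            · positivity
            · obtain ⟨h1, h2, _⟩ := nm_eq v.1
              rw [v.2] at h1
              rw [h1]
              push_cast
              rw [← Real.rpow_natCast, ← Real.rpow_mul (by positivity)]
              refine Real.rpow_le_rpow_of_exponent_le hp1 ?_
              have hd2 : (2 : ℝ) ≤ (deg v.1 : ℝ) := by
                have : 2 ≤ deg v.1 := by omega
                exact_mod_cast this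
              nlinarith
        _ = (Fintype.card {v : HeightOneSpectrum (𝓞 K) // below v = p}) *
              ((p : ℕ) : ℝ) ^ (-(2 : ℝ)) := by simp
        _ ≤ _ := by
            refine mul_le_mul_of_nonneg_right ?_ (by positivity)
            exact_mod_cast fiber_card_le p
  refine h1.congr' ?_
  filter_upwards [self_mem_nhdsWithin] with x hx
  have hx1 : (1 : ℝ) < x := hx
  rw [tsum_fiber (nm_summable hx1), ← Summable.tsum_sub (summable_fiber (nm_summable hx1))
    (hsum x hx1)]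
  exact tsum_congr fun p => (hfib x p).symm

variable (K) in
/-- **Degree one primes.** The sum `∑_p #Hom(𝓞 K, 𝔽_p) p^{-x} - log (1/(x-1))` has a limit as
`x → 1+`. -/
theorem degree_one_limit : ∃ c : ℝ, Tendsto (fun x : ℝ =>
    (∑' p : Nat.Primes, (hc (𝓞 K) p : ℝ) * ((p : ℕ) : ℝ) ^ (-x)) - Lam x) (𝓝[>] 1) (𝓝 c) := by
  obtain ⟨c1, h1⟩ := step1 (K := K)
  obtain ⟨c2, h2⟩ := step2 (K := K)
  have h3 : Tendsto (fun x : ℝ => Real.log ((x - 1) * ZK K x)) (𝓝[>] 1)
      (𝓝 (Real.log (dedekindZeta_residue K))) :=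
    (ZK_tendsto (K := K)).log (dedekindZeta_residue_ne_zero K)
  refine ⟨Real.log (dedekindZeta_residue K) - c1 - c2, ?_⟩
  refine ((h3.sub h1).sub h2).congr' ?_
  filter_upwards [self_mem_nhdsWithin] with x hx
  have hx1 : (1 : ℝ) < x := hx
  have hZ : 0 < ZK K x := by
    have h := prod_one_add_le (K := K) hx1 ∅
    rw [Finset.prod_empty] at h
    linarith
  have hx2 : 0 < x - 1 := by linarith
  rw [Real.log_mul hx2.ne' hZ.ne']
  unfold Lam
  rw [one_div, Real.log_inv]
  ring

variable (K) in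
/-- the sum over the primes converges -/
theorem degree_one_summable {x : ℝ} (hx : 1 < x) : Summable fun p : Nat.Primes =>
      (hc (𝓞 K) p : ℝ) * ((p : ℕ) : ℝ) ^ (-x) := by
  refine Summable.of_nonneg_of_le (fun p => by positivity) (fun p => ?_)
    ((summable_primes_rpow hx).mul_left (Module.finrank ℚ K : ℝ))
  refine mul_le_mul_of_nonneg_right ?_ (by positivity)
  rw [← R_eq_hc]
  exact_mod_cast R_le p

end

end Pool.Agent.N184.QP
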